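import Mathlib
import Pool.Graph.R_pool_sql_team_seeded_b677cdb8.E8helper16.SL.G6

set_option autoImplicit false

/-! The block estimate of the starting file for a general real function on the integers in place of the Liouville
function. -/

namespace Pool.Agent.Helper34.SW
open Finset
open Pool.Agent.H373R2.T7 (Vz Vz_pos pz mem_pz)
open Pool.Agent.E8helper16.SL

variable (v : ℕ → ℝ)

/-- the function `v` on the integers -/
noncomputable def wz (m : ℤ) : ℂ := if 1 ≤ m then (v m.toNat : ℂ) else 0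

/-- the function `v` cut at `M` -/
noncomputable def wM (M : ℕ) (m : ℤ) : ℂ := if m ≤ M then wz v m else 0

lemma wz_norm (hv : ∀ n, |v n| ≤ 1) (m : ℤ) : ‖wz v m‖ ≤ 1 := by
  unfold wz
  split_ifs
  · rw [Complex.norm_real]; exact hv _
  · simp

lemma wM_norm (hv : ∀ n, |v n| ≤ 1) (M : ℕ) (m : ℤ) : ‖wM v M m‖ ≤ 1 := by
  unfold wM
  split_ifs
  · exact wz_norm v hv _
  · simp

lemma wz_conj (m : ℤ) : (starRingEnd ℂ) (wz v m) = wz v m := by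
  unfold wz
  split_ifs
  · exact Complex.conj_ofReal _
  · simp

lemma wM_conj (M : ℕ) (m : ℤ) : (starRingEnd ℂ) (wM v M m) = wM v M m := by
  unfold wM
  split_ifs
  · exact wz_conj v m
  · simp

/-- the sum over the multiples of `p`, cut at `M` -/
noncomputable def GMv (c : ℕ → ℂ) (H p M : ℕ) (n : ℤ) : ℂ :=
  ∑ h ∈ Icc 1 H, if (p : ℤ) ∣ n + h then c h * wM v M ((n + h) / p) else 0

lemma GMv_eq (c : ℕ → ℂ) (H p M J : ℕ) (hp : 1 ≤ p) (hJ : H ≤ p * J) (h : ℕ) (hh : h ∈ Icc 1 H) (m : ℤ) :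
    GMv v c H p M (p * m - h) = ∑ j ∈ Ioo (-(J : ℤ)) J, ct c H (h + p * j) * wM v M (m + j) := by
  classical
  rw [mem_Icc] at hh
  have hp0 : (0 : ℤ) < p := by exact_mod_cast hp
  have hJ' : (H : ℤ) ≤ p * J := by exact_mod_cast hJ
  have h1 : ∑ j ∈ Ioo (-(J : ℤ)) J, ct c H (h + p * j) * wM v M (m + j) =
      ∑ j ∈ (Ioo (-(J : ℤ)) J).filter (fun j => 1 ≤ (h : ℤ) + p * j ∧ (h : ℤ) + p * j ≤ H),
        c ((h : ℤ) + p * j).toNat * wM v M (m + j) := by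
    rw [sum_filter]
    apply sum_congr rfl
    intro j _
    unfold ct
    split_ifs
    · rfl
    · rw [zero_mul]
  rw [h1]
  unfold GMv
  symm
  apply sum_of_injOn (fun j : ℤ => ((h : ℤ) + p * j).toNat)
  · intro j hj j' hj' he
    rw [mem_coe, mem_filter] at hj hj'
    simp only at he
    have : (h : ℤ) + p * j = h + p * j' := by omega
    have h2 : (p : ℤ) * j = p * j' := by omega
    exact mul_left_cancel₀ hp0.ne' h2
  · intro j hj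
    rw [mem_coe, mem_filter] at hj
    rw [mem_coe, mem_Icc]
    simp only
    omega
  · intro h' hh' hn
    rw [mem_Icc] at hh'
    rw [if_neg]
    rintro ⟨q, hq⟩
    apply hn
    have e1 : (h' : ℤ) = h + p * (q - m) := by linarith
    refine ⟨q - m, ?_, ?_⟩
    · rw [mem_coe, mem_filter, mem_Ioo]
      refine ⟨⟨?_, ?_⟩, by omega, by omega⟩
      · by_contra hcon
        push Not at hcon
        have : (p : ℤ) * (q - m) ≤ p * (-(J : ℤ)) := mul_le_mul_of_nonneg_left hcon hp0.le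
        have e2 : (p : ℤ) * (-(J : ℤ)) = -(p * J) := by ring
        omega
      · by_contra hcon
        push Not at hcon
        have : (p : ℤ) * (J : ℤ) ≤ p * (q - m) := mul_le_mul_of_nonneg_left hcon hp0.le
        omega
    · simp only
      omega
  · intro j hj
    rw [mem_filter] at hj
    have e1 : ((((h : ℤ) + p * j).toNat : ℕ) : ℤ) = h + p * j := by omega
    rw [e1]
    have e2 : (p : ℤ) * m - h + (h + p * j) = p * (m + j) := by ring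
    rw [e2, if_pos (Dvd.intro _ rfl), Int.mul_ediv_cancel_left _ hp0.ne']

/-- the mean square as a correlation -/
lemma U_eq (c : ℕ → ℂ) (H p M : ℕ) (hp : 1 ≤ p) (ν : ℤ → ℝ) :
    ((∑ n ∈ Icc (-(H : ℤ)) (p * M), ν n * ‖GMv v c H p M n‖ ^ 2 : ℝ) : ℂ) =
      ∑ h ∈ Icc 1 H, ∑ m ∈ Icc 1 M, (ν (p * m - h) : ℂ) * (c h * wz v m * (starRingEnd ℂ) (GMv v c H p M (p * m - h))) := by
  classical
  have hp0 : (0 : ℤ) < p := by exact_mod_cast hp
  have h1 : ((∑ n ∈ Icc (-(H : ℤ)) (p * M), ν n * ‖GMv v c H p M n‖ ^ 2 : ℝ) : ℂ) =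
      ∑ n ∈ Icc (-(H : ℤ)) (p * M), ∑ h ∈ Icc 1 H,
        (if (p : ℤ) ∣ n + h then (ν n : ℂ) * (c h * wM v M ((n + h) / p) * (starRingEnd ℂ) (GMv v c H p M n)) else 0) := by
    rw [Complex.ofReal_sum]
    apply sum_congr rfl
    intro n _
    rw [Complex.ofReal_mul, Complex.ofReal_pow, ← Complex.mul_conj']
    have e : GMv v c H p M n * (starRingEnd ℂ) (GMv v c H p M n) = ∑ h ∈ Icc 1 H,
        (if (p : ℤ) ∣ n + h then c h * wM v M ((n + h) / p) else 0) * (starRingEnd ℂ) (GMv v c H p M n) := by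
      rw [← sum_mul]
      rfl
    rw [e, mul_sum]
    apply sum_congr rfl
    intro h _
    split_ifs
    · ring
    · ring
  rw [h1, sum_comm]
  apply sum_congr rfl
  intro h hh
  rw [mem_Icc] at hh
  symm
  apply sum_of_injOn (fun m : ℕ => (p : ℤ) * m - h)
  · intro m _ m' _ he
    simp only at he
    have h2 : (p : ℤ) * (m : ℤ) = p * (m' : ℤ) := by omega
    exact_mod_cast mul_left_cancel₀ hp0.ne' h2
  · intro m hm
    rw [mem_coe, mem_Icc] at hm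
    rw [mem_coe, mem_Icc]
    simp only
    have h2 : (p : ℤ) * m ≤ p * M := mul_le_mul_of_nonneg_left (by exact_mod_cast hm.2) hp0.le
    have h3 : (0 : ℤ) ≤ p * m := by positivity
    omega
  · intro n _ hn
    split_ifs with hd
    · obtain ⟨q, hq⟩ := hd
      have e1 : (n + h) / (p : ℤ) = q := by rw [hq, Int.mul_ediv_cancel_left _ hp0.ne']
      rw [e1]
      have hl : wM v M q = 0 := by
        by_contra hcon
        apply hn
        have h3 : 1 ≤ q ∧ q ≤ M := by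
          unfold wM at hcon
          by_cases q1 : q ≤ M
          · refine ⟨?_, q1⟩
            rw [if_pos q1] at hcon
            unfold wz at hcon
            by_contra q2
            rw [if_neg q2] at hcon
            exact hcon rfl
          · rw [if_neg q1] at hcon
            exact absurd rfl hcon
        refine ⟨q.toNat, ?_, ?_⟩
        · rw [mem_coe, mem_Icc]
          omega
        · simp only
          have : ((q.toNat : ℕ) : ℤ) = q := by omega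
          rw [this]
          omega
      rw [hl]
      ring
    · rfl
  · intro m hm
    rw [mem_Icc] at hm
    have e1 : (p : ℤ) * m - h + h = p * m := by ring
    rw [e1, if_pos (Dvd.intro _ rfl), Int.mul_ediv_cancel_left _ hp0.ne']
    have e2 : wM v M (m : ℤ) = wz v m := by
      unfold wM
      rw [if_pos (by exact_mod_cast hm.2)]
    rw [e2]

lemma noise_le (hv : ∀ n, |v n| ≤ 1) {ι : Type} (S : Finset ι) (E : ι → ℕ → ℝ) (D : ι → ℤ → ℂ) (hD : ∀ κ j, ‖D κ j‖ ≤ 1) (M J : ℕ) (B : ℝ)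
    (hB : ∑ κ ∈ S, ∑ κ' ∈ S, |∑ m ∈ Icc 1 M, E κ m * E κ' m| ≤ B) :
    ‖∑ κ ∈ S, ∑ m ∈ Icc 1 M, ∑ j ∈ Ioo (-(J : ℤ)) J, (E κ m : ℂ) * (D κ j * (wz v m * wM v M (m + j)))‖ ≤
      2 * J * √(M * B) := by
  have h1 : ∑ κ ∈ S, ∑ m ∈ Icc 1 M, ∑ j ∈ Ioo (-(J : ℤ)) J, (E κ m : ℂ) * (D κ j * (wz v m * wM v M (m + j))) =
      ∑ j ∈ Ioo (-(J : ℤ)) J, ∑ m ∈ Icc 1 M, (∑ κ ∈ S, (E κ m : ℂ) * D κ j) * (wz v m * wM v M (m + j)) := by
    rw [sum_comm]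
    have : ∀ m ∈ Icc 1 M, ∑ κ ∈ S, ∑ j ∈ Ioo (-(J : ℤ)) J, (E κ m : ℂ) * (D κ j * (wz v m * wM v M (m + j))) =
        ∑ j ∈ Ioo (-(J : ℤ)) J, (∑ κ ∈ S, (E κ m : ℂ) * D κ j) * (wz v m * wM v M (m + j)) := by
      intro m _
      rw [sum_comm]
      apply sum_congr rfl
      intro j _
      rw [sum_mul]
      apply sum_congr rfl
      intro κ _
      ring
    rw [sum_congr rfl this, sum_comm]
  rw [h1]
  have h2 : ∀ j ∈ Ioo (-(J : ℤ)) J, ‖∑ m ∈ Icc 1 M, (∑ κ ∈ S, (E κ m : ℂ) * D κ j) * (wz v m * wM v M (m + j))‖ ≤ √(M * B) := by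
    intro j _
    refine le_trans ?_ (l1_le_l2 M (fun m => ∑ κ ∈ S, (E κ m : ℂ) * D κ j) B
      ((noise_sq S E (fun κ => D κ j) (fun κ => hD κ j) M).trans hB))
    refine (norm_sum_le _ _).trans (sum_le_sum fun m _ => ?_)
    rw [norm_mul]
    have h3 : ‖wz v m * wM v M (m + j)‖ ≤ 1 := by
      rw [norm_mul]
      exact mul_le_one₀ (wz_norm v hv _) (norm_nonneg _) (wM_norm v hv _ _)
    exact mul_le_of_le_one_right (norm_nonneg _) h3
  refine (norm_sum_le _ _).trans ((sum_le_sum h2).trans ?_)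
  rw [sum_const, nsmul_eq_mul, Int.card_Ioo]
  apply mul_le_mul_of_nonneg_right _ (Real.sqrt_nonneg _)
  have : ((J : ℤ) - -(J : ℤ) - 1).toNat ≤ 2 * J := by omega
  exact_mod_cast this

section block
variable {f : ℕ} (s : Fin f → ℤ)

/-- the mean square over the block -/
theorem U_bound (hv : ∀ n, |v n| ≤ 1) (c : ℕ → ℂ) (hc : ∀ h, ‖c h‖ ≤ 1) {w z H J M : ℕ} (P : Finset ℕ) (hP : ∀ p ∈ P, p ∈ pz z)
    (hJ : ∀ p ∈ P, H ≤ p * J) (ε₁ B : ℝ) (hε₁ : 0 ≤ ε₁)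
    (hmrt : ∀ g : ℕ → ℂ, (∀ n, ‖g n‖ ≤ 1) → ∑ j ∈ Ioo (-(J : ℤ)) J, ‖∑ m ∈ Icc 1 M, g m * wM v M (m + j)‖ ≤ ε₁ * J * M)
    (hB : ∑ κ ∈ KK s P H, ∑ κ' ∈ KK s P H, |Cov s κ.1 κ'.1 (κ.2 : ℤ) (κ'.2 : ℤ) M w z| ≤ B) :
    ∑ p ∈ P, ∑ n ∈ Icc (-(H : ℤ)) (p * M), nu s z n * ‖GMv v c H p M n‖ ^ 2 ≤
      2 * J * √(M * B) + P.card * H * (((Vz w) ^ f)⁻¹ * (ε₁ * J * M)) := by
  classical
  obtain ⟨D, hDdef⟩ : ∃ D : ℕ × ℕ → ℤ → ℂ, D = fun κ j => c κ.2 * (starRingEnd ℂ) (ct c H (κ.2 + κ.1 * j)) := ⟨_, rfl⟩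
  have hD : ∀ κ j, ‖D κ j‖ ≤ 1 := by
    intro κ j
    rw [hDdef]
    simp only
    rw [norm_mul, RCLike.norm_conj]
    exact mul_le_one₀ (hc _) (norm_nonneg _) (ct_norm hc _ _)
  -- the identity
  have h1 : ((∑ p ∈ P, ∑ n ∈ Icc (-(H : ℤ)) (p * M), nu s z n * ‖GMv v c H p M n‖ ^ 2 : ℝ) : ℂ) =
      ∑ κ ∈ KK s P H, ∑ m ∈ Icc 1 M, ∑ j ∈ Ioo (-(J : ℤ)) J,
        (nu s z (κ.1 * m - κ.2) : ℂ) * (D κ j * (wz v m * wM v M (m + j))) := by
    rw [Complex.ofReal_sum]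
    have h2 : ∀ p ∈ P, ((∑ n ∈ Icc (-(H : ℤ)) (p * M), nu s z n * ‖GMv v c H p M n‖ ^ 2 : ℝ) : ℂ) =
        ∑ h ∈ Icc 1 H, ∑ m ∈ Icc 1 M, ∑ j ∈ Ioo (-(J : ℤ)) J,
          (nu s z (p * m - h) : ℂ) * (D (p, h) j * (wz v m * wM v M (m + j))) := by
      intro p hp
      have hp1 : 1 ≤ p := (mem_pz.1 (hP p hp)).2.one_le
      rw [U_eq v c H p M hp1]
      apply sum_congr rfl
      intro h hh
      apply sum_congr rfl
      intro m _
      rw [GMv_eq v c H p M J hp1 (hJ p hp) h hh m, map_sum, mul_sum, mul_sum]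
      apply sum_congr rfl
      intro j _
      rw [map_mul, wM_conj, hDdef]
      simp only
      ring
    rw [sum_congr rfl h2]
    have h3 := (sum_product' P (Icc 1 H) (fun p h => ∑ m ∈ Icc 1 M, ∑ j ∈ Ioo (-(J : ℤ)) J,
          (nu s z (p * m - h) : ℂ) * (D (p, h) j * (wz v m * wM v M (m + j))))).symm
    rw [h3]
    unfold KK
    rw [sum_filter]
    apply sum_congr rfl
    rintro ⟨p, h⟩ hph
    rw [mem_product] at hph
    simp only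
    split_ifs with hk
    · rfl
    · push Not at hk
      obtain ⟨k, hk⟩ := hk
      apply sum_eq_zero
      intro m _
      apply sum_eq_zero
      intro j _
      rw [nu_vanish s (hP p hph.1) hk]
      simp
  have h0 : (0 : ℝ) ≤ ∑ p ∈ P, ∑ n ∈ Icc (-(H : ℤ)) (p * M), nu s z n * ‖GMv v c H p M n‖ ^ 2 :=
    sum_nonneg fun p _ => sum_nonneg fun n _ => mul_nonneg (nu_nonneg s z n) (by positivity)
  have h4 : ‖((∑ p ∈ P, ∑ n ∈ Icc (-(H : ℤ)) (p * M), nu s z n * ‖GMv v c H p M n‖ ^ 2 : ℝ) : ℂ)‖ =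
      ∑ p ∈ P, ∑ n ∈ Icc (-(H : ℤ)) (p * M), nu s z n * ‖GMv v c H p M n‖ ^ 2 := by
    rw [Complex.norm_real, Real.norm_eq_abs, abs_of_nonneg h0]
  rw [← h4, h1]
  -- the decomposition
  have h5 : ∑ κ ∈ KK s P H, ∑ m ∈ Icc 1 M, ∑ j ∈ Ioo (-(J : ℤ)) J,
        (nu s z (κ.1 * m - κ.2) : ℂ) * (D κ j * (wz v m * wM v M (m + j))) =
      ∑ κ ∈ KK s P H, ∑ m ∈ Icc 1 M, ∑ j ∈ Ioo (-(J : ℤ)) J,
        ((nu s z (κ.1 * m - κ.2) - nu s w (κ.1 * m - κ.2) : ℝ) : ℂ) * (D κ j * (wz v m * wM v M (m + j))) +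
      ∑ κ ∈ KK s P H, ∑ m ∈ Icc 1 M, ∑ j ∈ Ioo (-(J : ℤ)) J,
        (nu s w (κ.1 * m - κ.2) : ℂ) * (D κ j * (wz v m * wM v M (m + j))) := by
    rw [← sum_add_distrib]
    apply sum_congr rfl
    intro κ _
    rw [← sum_add_distrib]
    apply sum_congr rfl
    intro m _
    rw [← sum_add_distrib]
    apply sum_congr rfl
    intro j _
    push_cast
    ring
  rw [h5]
  refine (norm_add_le _ _).trans (add_le_add ?_ ?_)
  · exact noise_le v hv (KK s P H) (fun κ m => nu s z (κ.1 * m - κ.2) - nu s w (κ.1 * m - κ.2)) D hD M J B hB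
  · have hV : 0 < (Vz w) ^ f := pow_pos (Vz_pos w) f
    have h6 : ∀ κ ∈ KK s P H, ‖∑ m ∈ Icc 1 M, ∑ j ∈ Ioo (-(J : ℤ)) J,
        (nu s w (κ.1 * m - κ.2) : ℂ) * (D κ j * (wz v m * wM v M (m + j)))‖ ≤ ((Vz w) ^ f)⁻¹ * (ε₁ * J * M) := by
      intro κ _
      rw [sum_comm]
      have h7 : ∀ j ∈ Ioo (-(J : ℤ)) J, ∑ m ∈ Icc 1 M, (nu s w (κ.1 * m - κ.2) : ℂ) * (D κ j * (wz v m * wM v M (m + j))) =
          ((((Vz w) ^ f)⁻¹ : ℝ) : ℂ) * (D κ j * ∑ m ∈ Icc 1 M, (((Vz w) ^ f * nu s w (κ.1 * m - κ.2) : ℝ) : ℂ) * wz v m * wM v M (m + j)) := by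
        intro j _
        rw [mul_sum, mul_sum]
        apply sum_congr rfl
        intro m _
        have e : ((((Vz w) ^ f)⁻¹ : ℝ) : ℂ) * (((Vz w) ^ f : ℝ) : ℂ) = 1 := by
          rw [← Complex.ofReal_mul, inv_mul_cancel₀ hV.ne', Complex.ofReal_one]
        rw [Complex.ofReal_mul]
        calc _ = 1 * ((nu s w (κ.1 * m - κ.2) : ℂ) * (D κ j * (wz v m * wM v M (m + j)))) := by ring
          _ = _ := by rw [← e]; ring
      rw [sum_congr rfl h7, ← mul_sum, norm_mul, Complex.norm_real, Real.norm_eq_abs, abs_of_pos (inv_pos.2 hV)]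
      apply mul_le_mul_of_nonneg_left _ (inv_pos.2 hV).le
      refine (norm_sum_le _ _).trans ?_
      refine le_trans (sum_le_sum fun j _ => ?_) (hmrt (fun m => (((Vz w) ^ f * nu s w (κ.1 * m - κ.2) : ℝ) : ℂ) * wz v m) ?_)
      · rw [norm_mul]
        exact mul_le_of_le_one_left (norm_nonneg _) (hD κ j)
      · intro m
        rw [norm_mul, Complex.norm_real, Real.norm_eq_abs]
        apply mul_le_one₀ _ (norm_nonneg _) (wz_norm v hv _)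
        rw [abs_of_nonneg (mul_nonneg hV.le (nu_nonneg _ _ _))]
        have := mul_le_mul_of_nonneg_left (nu_le s w (κ.1 * m - κ.2)) hV.le
        rw [mul_inv_cancel₀ hV.ne'] at this
        exact this
    refine (norm_sum_le _ _).trans ((sum_le_sum h6).trans ?_)
    rw [sum_const, nsmul_eq_mul]
    apply mul_le_mul_of_nonneg_right (card_KK s P H)
    positivity

end block

section blockA
variable {f : ℕ} (s : Fin f → ℤ)

/-- the sum over the multiples of `p` -/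
noncomputable def Gv (c : ℕ → ℂ) (H p : ℕ) (n : ℤ) : ℂ :=
  ∑ h ∈ Icc 1 H, if (p : ℤ) ∣ n + h then c h * wz v ((n + h) / p) else 0

lemma GMv_eq_Gv (c : ℕ → ℂ) {H p M N : ℕ} (hp : 1 ≤ p) (hM : N + H ≤ p * M) {n : ℤ} (hn : n ≤ N) :
    GMv v c H p M n = Gv v c H p n := by
  unfold GMv Gv
  apply sum_congr rfl
  intro h hh
  rw [mem_Icc] at hh
  split_ifs with hd
  · unfold wM
    rw [if_pos]
    obtain ⟨t, ht⟩ := hd
    have hp0 : (0 : ℤ) < p := by exact_mod_cast hp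
    rw [ht, Int.mul_ediv_cancel_left _ hp0.ne']
    have hMz : (N : ℤ) + H ≤ p * M := by exact_mod_cast hM
    by_contra hc
    push Not at hc
    have h1 : (p : ℤ) * (M + 1) ≤ p * t := mul_le_mul_of_nonneg_left (by omega) hp0.le
    have hh2 : (h : ℤ) ≤ H := by exact_mod_cast hh.2
    have h3 : (p : ℤ) * (M + 1) = p * M + p := by ring
    linarith
  · rfl

/-- the `L¹` bound over the block -/
theorem block_nu (hv : ∀ n, |v n| ≤ 1) {D b x w z y K H J M N : ℕ} (hf : 1 ≤ f) (hs : Sep s D) (hDw : D ≤ w) (hfw : 16 * f ^ 2 ≤ w) (hfw' : 8 * f + 1 ≤ w)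
    (hFL : FL f b x z) (hwz : w ≤ z) (hy : 1 ≤ y) (hCw : C2 f ≤ w) (hKy : 4 * f * K * f ^ 2 * w ≤ y) (hwb : w = 2 ^ b)
    (P : Finset ℕ) (hP : ∀ p ∈ P, p ∈ pz z)
    (hsize : ∀ κ ∈ KK s P H, ∀ κ' ∈ KK s P H, ∀ i j, (Dt s κ.1 κ'.1 (κ.2 : ℤ) (κ'.2 : ℤ) i j).natAbs ≤ 2 ^ K)
    (hW : 6 * (f : ℝ) ^ 2 * W0 f y ≤ H * (1 / 2 : ℝ) ^ b)
    (hR : 4 * (((Vz z) ^ (2 * f))⁻¹ * √(x : ℝ)) ≤ M * (1 / 2 : ℝ) ^ b)
    (hA : 6 * (f : ℝ) ^ 2 * ((Vz z) ^ f)⁻¹ ≤ P.card * H * (1 / 2 : ℝ) ^ b)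
    (c : ℕ → ℂ) (hc : ∀ h, ‖c h‖ ≤ 1) (hJ : ∀ p ∈ P, H ≤ p * J)
    (hmrt : ∀ g : ℕ → ℂ, (∀ n, ‖g n‖ ≤ 1) → ∑ j ∈ Ioo (-(J : ℤ)) J, ‖∑ m ∈ Icc 1 M, g m * wM v M (m + j)‖ ≤ (1 / 2 : ℝ) ^ b * J * M)
    (hMN : ∀ p ∈ P, N + H ≤ p * M) (hRN : ((Vz z) ^ (2 * f))⁻¹ * √(x : ℝ) ≤ N) (T : ℝ)
    (hT : (H : ℝ) * J * M ≤ 4 * N * T ^ 2) (hT0 : 0 ≤ T) :
    ∑ p ∈ P, ∑ n ∈ Icc 1 N, nu s z n * ‖Gv v c H p n‖ ≤
      P.card * (T * N) * √(20 * ((Vz w) ^ f)⁻¹ * (2 * √((C4 f + 3) * ((Vz w) ^ (2 * f))⁻¹ * (1 / 2 : ℝ) ^ b) +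
        ((Vz w) ^ f)⁻¹ * (1 / 2 : ℝ) ^ b)) := by
  classical
  obtain ⟨β, hβ⟩ : ∃ β, β = (C4 f + 3) * ((Vz w) ^ (2 * f))⁻¹ * (1 / 2 : ℝ) ^ b := ⟨_, rfl⟩
  have hC4 : 0 ≤ C4 f := by
    unfold C4 C3
    have := C2_pos f
    positivity
  have hVw := (Vz_pos w).le
  have hβ0 : 0 ≤ β := by rw [hβ]; positivity
  have hB := blockB s hf hs hDw hfw hfw' hFL hwz hy hCw hKy hwb P (fun p hp => (mem_pz.1 (hP p hp)).2) hsize hW hR hA
  rw [← hβ] at hB ⊢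
  have hU := U_bound v s hv c hc (w := w) (z := z) (J := J) (M := M) P hP hJ ((1 / 2 : ℝ) ^ b) _ (by positivity) hmrt hB
  obtain ⟨V, hV⟩ : ∃ V, V = ((Vz w) ^ f)⁻¹ := ⟨_, rfl⟩
  obtain ⟨e, he⟩ : ∃ e, e = (1 / 2 : ℝ) ^ b := ⟨_, rfl⟩
  rw [← hV, ← he] at hU ⊢
  have hV1 : 1 ≤ V := by rw [hV]; exact inv_ge_one w f
  have he0 : 0 < e := by rw [he]; positivity
  have hM0 : (0 : ℝ) ≤ M := Nat.cast_nonneg _
  have hJ0 : (0 : ℝ) ≤ J := Nat.cast_nonneg _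
  have hN0 : (0 : ℝ) ≤ N := Nat.cast_nonneg _
  have hH0 : (0 : ℝ) ≤ H := Nat.cast_nonneg _
  have hP0 : (0 : ℝ) ≤ P.card := Nat.cast_nonneg _
  have e1 : √(M * ((P.card * H) ^ 2 * (M * β))) = P.card * H * (M * √β) := by
    have : (M : ℝ) * ((P.card * H) ^ 2 * (M * β)) = (P.card * H * M) ^ 2 * β := by ring
    rw [this, Real.sqrt_mul (sq_nonneg _), Real.sqrt_sq (by positivity)]
    ring
  rw [e1] at hU
  have hU2 : ∑ p ∈ P, ∑ n ∈ Icc (-(H : ℤ)) (p * M), nu s z n * ‖GMv v c H p M n‖ ^ 2 ≤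
      P.card * (4 * N * T ^ 2) * (2 * √β + V * e) := by
    have q : (0 : ℝ) ≤ 2 * √β + V * e := by positivity
    calc _ ≤ _ := hU
      _ = P.card * (H * J * M) * (2 * √β + V * e) := by ring
      _ ≤ _ := by
        apply mul_le_mul_of_nonneg_right _ q
        exact mul_le_mul_of_nonneg_left hT hP0
  -- restriction to `1 ≤ n ≤ N`
  have h1 : ∀ p ∈ P, ∑ n ∈ Icc 1 N, nu s z n * ‖Gv v c H p n‖ ^ 2 ≤
      ∑ n ∈ Icc (-(H : ℤ)) (p * M), nu s z n * ‖GMv v c H p M n‖ ^ 2 := by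
    intro p hp
    have hMp := hMN p hp
    have h2 : ∑ n ∈ Icc 1 N, nu s z (n : ℤ) * ‖Gv v c H p (n : ℤ)‖ ^ 2 =
        ∑ n ∈ (Icc 1 N).image (fun n : ℕ => (n : ℤ)), nu s z n * ‖GMv v c H p M n‖ ^ 2 := by
      rw [sum_image (fun a _ b _ h => by exact_mod_cast h)]
      apply sum_congr rfl
      intro n hn
      rw [mem_Icc] at hn
      rw [GMv_eq_Gv v c (mem_pz.1 (hP p hp)).2.one_le hMp (by exact_mod_cast hn.2)]
    rw [h2]
    apply sum_le_sum_of_subset_of_nonneg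
    · intro n hn
      rw [mem_image] at hn
      obtain ⟨m, hm, rfl⟩ := hn
      rw [mem_Icc] at hm ⊢
      constructor
      · have : (0 : ℤ) ≤ (m : ℤ) := Int.natCast_nonneg _
        have : (0 : ℤ) ≤ (H : ℤ) := Int.natCast_nonneg _
        linarith
      · have h3 : m ≤ p * M := by omega
        exact_mod_cast h3
    · intro n _ _
      exact mul_nonneg (nu_nonneg s z n) (by positivity)
  have h3 : ∑ p ∈ P, ∑ n ∈ Icc 1 N, nu s z n * ‖Gv v c H p n‖ ^ 2 ≤ P.card * (4 * N * T ^ 2) * (2 * √β + V * e) :=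
    (sum_le_sum h1).trans hU2
  -- the sum of the weights
  have h4 : ∑ n ∈ Icc 1 N, nu s z (n : ℤ) ≤ 5 * N * V := by
    have q := single_le s 1 0 hf hs hDw hfw hFL hwz (nd_one s 0) (Or.inl rfl) N
    have q2 : ∑ m ∈ Icc 1 N, nu s z (((1 : ℕ) : ℤ) * m - 0) = ∑ n ∈ Icc 1 N, nu s z (n : ℤ) := by
      apply sum_congr rfl
      intro m _
      congr 1
      push_cast
      ring
    rw [q2, ← hV] at q
    have q3 : (N : ℝ) ≤ N * V := le_mul_of_one_le_right hN0 hV1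
    linarith
  have h5 : ∑ p ∈ P, ∑ n ∈ Icc 1 N, nu s z (n : ℤ) ≤ P.card * (5 * N * V) := by
    rw [sum_const, nsmul_eq_mul]
    exact mul_le_mul_of_nonneg_left h4 hP0
  -- Cauchy-Schwarz
  have h6 : (∑ p ∈ P, ∑ n ∈ Icc 1 N, nu s z n * ‖Gv v c H p n‖) ^ 2 ≤
      (∑ p ∈ P, ∑ n ∈ Icc 1 N, nu s z (n : ℤ)) * (∑ p ∈ P, ∑ n ∈ Icc 1 N, nu s z n * ‖Gv v c H p n‖ ^ 2) := by
    have q := sum_mul_sq_le_sq_mul_sq (P ×ˢ Icc 1 N) (fun r => √(nu s z (r.2 : ℤ))) (fun r => √(nu s z (r.2 : ℤ)) * ‖Gv v c H r.1 (r.2 : ℤ)‖)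
    rw [sum_product, sum_product, sum_product] at q
    have q1 : ∀ p n : ℕ, √(nu s z (n : ℤ)) * (√(nu s z (n : ℤ)) * ‖Gv v c H p (n : ℤ)‖) = nu s z n * ‖Gv v c H p n‖ := by
      intro p n
      rw [← mul_assoc, Real.mul_self_sqrt (nu_nonneg s z n)]
    have q2 : ∀ n : ℕ, √(nu s z (n : ℤ)) ^ 2 = nu s z n := fun n => Real.sq_sqrt (nu_nonneg s z n)
    simp only [q1, mul_pow, q2] at q
    exact q
  have h7 : (∑ p ∈ P, ∑ n ∈ Icc 1 N, nu s z n * ‖Gv v c H p n‖) ^ 2 ≤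
      (P.card * (T * N) * √(20 * V * (2 * √β + V * e))) ^ 2 := by
    refine h6.trans ?_
    have q0 : (0 : ℝ) ≤ 20 * V * (2 * √β + V * e) := by positivity
    rw [mul_pow, Real.sq_sqrt q0]
    have q1 : 0 ≤ ∑ p ∈ P, ∑ n ∈ Icc 1 N, nu s z n * ‖Gv v c H p n‖ ^ 2 :=
      sum_nonneg fun p _ => sum_nonneg fun n _ => mul_nonneg (nu_nonneg s z n) (by positivity)
    calc _ ≤ (P.card * (5 * N * V)) * (P.card * (4 * N * T ^ 2) * (2 * √β + V * e)) :=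
          mul_le_mul h5 h3 q1 (by positivity)
      _ = _ := by ring
  exact le_of_sq_le_sq' h7 (by positivity)
where
  le_of_sq_le_sq' {a b : ℝ} (h : a ^ 2 ≤ b ^ 2) (hb : 0 ≤ b) : a ≤ b := abs_le_of_sq_le_sq' h hb |>.2

end blockA

section lam
variable {f : ℕ} (s : Fin f → ℤ)

lemma Gv_norm (hv : ∀ n, |v n| ≤ 1) (c : ℕ → ℂ) (hc : ∀ h, ‖c h‖ ≤ 1) (H p : ℕ) (n : ℤ) : ‖Gv v c H p n‖ ≤ H := by
  unfold Gv
  refine (norm_sum_le _ _).trans ?_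
  have h1 : ∀ h ∈ Icc 1 H, ‖(if (p : ℤ) ∣ n + h then c h * wz v ((n + h) / p) else 0 : ℂ)‖ ≤ 1 := by
    intro h _
    split_ifs
    · rw [norm_mul]
      exact mul_le_one₀ (hc h) (norm_nonneg _) (wz_norm v hv _)
    · simp
  refine (sum_le_sum h1).trans ?_
  rw [sum_const, Nat.card_Icc, Nat.add_sub_cancel, nsmul_eq_mul, mul_one]

/-- the transfer -/
lemma transfer (hv : ∀ n, |v n| ≤ 1) {N : ℕ} (hN : 1 ≤ N) (hs : ∀ i, |s i| ≤ 2 * N) (z H : ℕ) (P : Finset ℕ) (c : ℕ → ℂ) (hc : ∀ h, ‖c h‖ ≤ 1) :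
    ∑ p ∈ P, ∑ n ∈ Icc 1 N, LL s n * ‖Gv v c H p n‖ ≤
      (Real.log (3 * N) * Vz z) ^ f * ∑ p ∈ P, ∑ n ∈ Icc 1 N, nu s z n * ‖Gv v c H p n‖ +
        P.card * (Real.log (3 * N) ^ f * (f * (z * (Nat.log 2 (3 * N) + 1)) : ℕ) * H) := by
  classical
  have hN1 : (1 : ℝ) ≤ N := by exact_mod_cast hN
  have hlog : 0 ≤ Real.log (3 * N) := Real.log_nonneg (by linarith)
  have h1 : ∀ p ∈ P, ∑ n ∈ Icc 1 N, LL s n * ‖Gv v c H p n‖ ≤
      (Real.log (3 * N) * Vz z) ^ f * ∑ n ∈ Icc 1 N, nu s z n * ‖Gv v c H p n‖ +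
        Real.log (3 * N) ^ f * (f * (z * (Nat.log 2 (3 * N) + 1)) : ℕ) * H := by
    intro p _
    have h2 : ∀ n ∈ Icc 1 N, LL s (n : ℤ) * ‖Gv v c H p n‖ ≤ (Real.log (3 * N) * Vz z) ^ f * (nu s z n * ‖Gv v c H p n‖) +
        (if n ∈ EE s z N then Real.log (3 * N) ^ f * H else 0) := by
      intro n hn
      have q0 := norm_nonneg (Gv v c H p (n : ℤ))
      have q1 := nu_nonneg s z (n : ℤ)
      have q2 := (Vz_pos z).le
      split_ifs with hE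
      · have q3 : LL s (n : ℤ) * ‖Gv v c H p n‖ ≤ Real.log (3 * N) ^ f * H :=
          mul_le_mul (LL_le_log s hN hs (mem_Icc.1 hn).2) (Gv_norm v hv c hc H p n) q0 (by positivity)
        have q4 : 0 ≤ (Real.log (3 * N) * Vz z) ^ f * (nu s z n * ‖Gv v c H p n‖) := by positivity
        linarith
      · rw [add_zero, mul_pow, ← mul_assoc]
        exact mul_le_mul_of_nonneg_right (LL_le_nu s hN hs z hn hE) q0
    refine (sum_le_sum h2).trans ?_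
    rw [sum_add_distrib, ← mul_sum]
    apply add_le_add le_rfl
    rw [← sum_filter, sum_const, nsmul_eq_mul]
    have h3 : (((Icc 1 N).filter (fun n => n ∈ EE s z N)).card : ℝ) ≤ (f * (z * (Nat.log 2 (3 * N) + 1)) : ℕ) := by
      have h4 : (Icc 1 N).filter (fun n => n ∈ EE s z N) ⊆ EE s z N := fun n hn => (mem_filter.1 hn).2
      exact_mod_cast (card_le_card h4).trans (card_EE s hs z)
    calc _ ≤ ((f * (z * (Nat.log 2 (3 * N) + 1)) : ℕ) : ℝ) * (Real.log (3 * N) ^ f * H) :=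
          mul_le_mul_of_nonneg_right h3 (by positivity)
      _ = _ := by ring
  refine (sum_le_sum h1).trans (le_of_eq ?_)
  rw [sum_add_distrib, ← mul_sum, sum_const, nsmul_eq_mul]

end lam

end Pool.Agent.Helper34.SW
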