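import Mathlib
import Pool.Graph.R_pool_sql_team_seeded_1e53cb71.Helper82K9.EL.EL8
import Pool.Graph.R_seed8.Y304.U.Pw
import Pool.Agent.Helper34.SW.V2

set_option autoImplicit false

/-! The Liouville function weighted with the number of the prime divisors in a finite set: distances. -/

namespace Pool.Agent.Helper34.SW
open Finset Filter Topology
open Pool.Agent.Helper82K9.EL (RMul FarR dstR Sm famR)

/-- the number of the prime divisors in `Q` -/
def omq (Q : Finset ℕ) (m : ℕ) : ℕ := (Q.filter (fun p => p ∣ m)).card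

lemma omq_mul {Q : Finset ℕ} (hQ : ∀ p ∈ Q, p.Prime) {m n : ℕ} (h : Nat.Coprime m n) :
    omq Q (m * n) = omq Q m + omq Q n := by
  unfold omq
  rw [← card_union_of_disjoint]
  · congr 1
    ext p
    simp only [mem_filter, mem_union]
    constructor
    · rintro ⟨h1, h2⟩
      rcases (hQ p h1).dvd_mul.1 h2 with h3 | h3
      · exact Or.inl ⟨h1, h3⟩
      · exact Or.inr ⟨h1, h3⟩
    · rintro (⟨h1, h2⟩ | ⟨h1, h2⟩)
      · exact ⟨h1, h2.mul_right _⟩
      · exact ⟨h1, h2.mul_left _⟩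
  · rw [disjoint_left]
    intro p h1 h2
    rw [mem_filter] at h1 h2
    have h3 := Nat.dvd_gcd h1.2 h2.2
    rw [h] at h3
    exact (hQ p h1.1).one_lt.ne' (Nat.dvd_one.1 h3)

/-- the Liouville function times a power -/
noncomputable def uq (Q : Finset ℕ) (x : ℝ) (m : ℕ) : ℝ := (-1) ^ (ArithmeticFunction.cardFactors m) * x ^ (omq Q m)

/-- the Liouville function with the weight of Ramare -/
noncomputable def vq (Q : Finset ℕ) (m : ℕ) : ℝ := (-1) ^ (ArithmeticFunction.cardFactors m) / (1 + omq Q m)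

lemma vq_abs (Q : Finset ℕ) (m : ℕ) : |vq Q m| ≤ 1 := by
  unfold vq
  rw [abs_div, abs_pow, abs_neg, abs_one, one_pow, abs_of_pos (by positivity), div_le_one (by positivity)]
  have : (0 : ℝ) ≤ omq Q m := Nat.cast_nonneg _
  linarith

lemma uq_abs (Q : Finset ℕ) {x : ℝ} (h0 : 0 ≤ x) (h1 : x ≤ 1) (m : ℕ) : |uq Q x m| ≤ 1 := by
  unfold uq
  rw [abs_mul, abs_pow, abs_neg, abs_one, one_pow, one_mul, abs_pow, abs_of_nonneg h0]
  exact pow_le_one₀ h0 h1

lemma uq_rmul {Q : Finset ℕ} (hQ : ∀ p ∈ Q, p.Prime) {x : ℝ} (h0 : 0 ≤ x) (h1 : x ≤ 1) : RMul (uq Q x) := by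
  refine ⟨?_, uq_abs Q h0 h1, fun m n hm hn h => ?_⟩
  · unfold uq omq
    have : Q.filter (fun p => p ∣ 1) = ∅ := by
      rw [filter_eq_empty_iff]
      intro p hp hd
      exact (hQ p hp).one_lt.ne' (Nat.dvd_one.1 hd)
    rw [this]
    simp
  · unfold uq
    rw [ArithmeticFunction.cardFactors_mul (by omega) (by omega), omq_mul hQ h, pow_add, pow_add]
    ring

/-- the sum of the reciprocals of the primes `≡ 1` -/
lemma recip_div (A : ℕ) (hA : 1 ≤ A) (K : ℝ) : ∃ N₀ : ℕ, ∀ N : ℕ, N₀ ≤ N →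
    K ≤ ∑ p ∈ (Icc 1 N).filter (fun p => p.Prime ∧ p % A = 1 % A), 1 / (p : ℝ) := by
  obtain ⟨P₀, hP₀⟩ := Pool.Agent.Y304.U.pw A hA (1 / 2) (by norm_num) (by norm_num)
  have hφ : (0 : ℝ) < (Nat.totient A : ℝ) := by exact_mod_cast Nat.totient_pos.2 (by omega : 0 < A)
  have hl2 : 0 < Real.log 2 := Real.log_pos (by norm_num)
  obtain ⟨c, hc⟩ : ∃ c : ℝ, c = 1 / (4 * (Nat.totient A : ℝ) * Real.log 2) := ⟨_, rfl⟩
  have hc0 : 0 < c := by rw [hc]; positivity
  obtain ⟨i0, hi0⟩ : ∃ i0 : ℕ, i0 = P₀ + 1 := ⟨_, rfl⟩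
  have hterm : ∀ i : ℕ, i0 ≤ i → c / i ≤ ∑ p ∈ (Ioc (2 ^ i) (2 ^ (i + 1))).filter (fun p => p.Prime ∧ p % A = 1 % A), 1 / (p : ℝ) := by
    intro i hi
    have hi1 : 1 ≤ i := by omega
    have hir : (1 : ℝ) ≤ i := by exact_mod_cast hi1
    have h1 := hP₀ (2 ^ i) (by
      have : i < 2 ^ i := Nat.lt_two_pow_self
      omega)
    obtain ⟨S, hS⟩ : ∃ S, S = (Ioc (2 ^ i) ⌊(1 + 1 / 2 : ℝ) * ((2 ^ i : ℕ) : ℝ)⌋₊).filter (fun p => p.Prime ∧ p % A = 1 % A) := ⟨_, rfl⟩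
    rw [← hS] at h1
    have hup : ∀ p ∈ S, (p : ℝ) ≤ 3 / 2 * 2 ^ i := by
      intro p hp
      rw [hS, mem_filter, mem_Ioc] at hp
      have := (Nat.le_floor_iff (by positivity)).1 hp.1.2
      push_cast at this
      linarith
    have hsub : S ⊆ (Ioc (2 ^ i) (2 ^ (i + 1))).filter (fun p => p.Prime ∧ p % A = 1 % A) := by
      intro p hp
      have h2 := hup p hp
      rw [hS, mem_filter, mem_Ioc] at hp
      rw [mem_filter, mem_Ioc]
      refine ⟨⟨hp.1.1, ?_⟩, hp.2⟩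
      have h3 : (p : ℝ) ≤ ((2 ^ (i + 1) : ℕ) : ℝ) := by
        push_cast
        rw [pow_succ]
        have : (0 : ℝ) < 2 ^ i := by positivity
        linarith
      exact_mod_cast h3
    refine le_trans ?_ (sum_le_sum_of_subset_of_nonneg hsub (fun _ _ _ => by positivity))
    have h4 : ∑ _p ∈ S, 1 / (3 / 2 * (2 : ℝ) ^ i) ≤ ∑ p ∈ S, 1 / (p : ℝ) := by
      apply sum_le_sum
      intro p hp
      have h2 := hup p hp
      rw [hS, mem_filter, mem_Ioc] at hp
      have hp0 : (0 : ℝ) < p := by exact_mod_cast (hp.2.1).pos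
      exact one_div_le_one_div_of_le hp0 h2
    refine le_trans ?_ h4
    rw [sum_const, nsmul_eq_mul]
    push_cast at h1
    rw [Real.log_pow] at h1
    have h5 := mul_le_mul_of_nonneg_right h1 (show (0 : ℝ) ≤ 1 / (3 / 2 * (2 : ℝ) ^ i) by positivity)
    refine le_trans (le_of_eq ?_) h5
    rw [hc]
    have hi0' : (i : ℝ) ≠ 0 := by positivity
    field_simp
  -- the harmonic series
  have hharm : Tendsto (fun n : ℕ => ∑ i ∈ range n, (1 : ℝ) / ((i : ℝ) + 1)) atTop atTop := Real.tendsto_sum_range_one_div_nat_succ_atTop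
  obtain ⟨n, hn⟩ := (hharm.eventually_ge_atTop (K / c + ∑ i ∈ range i0, (1 : ℝ) / ((i : ℝ) + 1))).exists
  refine ⟨2 ^ (n + 1), fun N hN => ?_⟩
  have hsub2 : (range n).filter (fun i => i0 ≤ i) ⊆ range n := filter_subset _ _
  have h6 : K / c ≤ ∑ i ∈ (range n).filter (fun i => i0 ≤ i), (1 : ℝ) / ((i : ℝ) + 1) := by
    have h7 : ∑ i ∈ range n, (1 : ℝ) / ((i : ℝ) + 1) = ∑ i ∈ (range n).filter (fun i => i0 ≤ i), (1 : ℝ) / ((i : ℝ) + 1) +
        ∑ i ∈ (range n).filter (fun i => ¬ i0 ≤ i), (1 : ℝ) / ((i : ℝ) + 1) := (sum_filter_add_sum_filter_not _ _ _).symm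
    have h8 : ∑ i ∈ (range n).filter (fun i => ¬ i0 ≤ i), (1 : ℝ) / ((i : ℝ) + 1) ≤ ∑ i ∈ range i0, (1 : ℝ) / ((i : ℝ) + 1) := by
      apply sum_le_sum_of_subset_of_nonneg
      · intro i hi
        rw [mem_filter] at hi
        rw [mem_range]
        omega
      · intro i _ _
        positivity
    linarith
  have h9 : K ≤ ∑ i ∈ (range n).filter (fun i => i0 ≤ i), c / ((i + 1 : ℕ) : ℝ) := by
    rw [div_le_iff₀ hc0, sum_mul] at h6
    refine h6.trans (le_of_eq ?_)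
    apply sum_congr rfl
    intro i _
    push_cast
    ring
  refine h9.trans ?_
  have h10 : ∀ i ∈ (range n).filter (fun i => i0 ≤ i), c / ((i + 1 : ℕ) : ℝ) ≤
      ∑ p ∈ (Ioc (2 ^ (i + 1)) (2 ^ (i + 1 + 1))).filter (fun p => p.Prime ∧ p % A = 1 % A), 1 / (p : ℝ) := by
    intro i hi
    rw [mem_filter] at hi
    exact hterm (i + 1) (by omega)
  refine (sum_le_sum h10).trans ?_
  rw [← sum_biUnion]
  · apply sum_le_sum_of_subset_of_nonneg
    · intro p hp
      rw [mem_biUnion] at hp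
      obtain ⟨i, hi, hp⟩ := hp
      rw [mem_filter, mem_range] at hi
      rw [mem_filter, mem_Ioc] at hp
      rw [mem_filter, mem_Icc]
      refine ⟨⟨hp.2.1.one_le, ?_⟩, hp.2⟩
      calc p ≤ 2 ^ (i + 1 + 1) := hp.1.2
        _ ≤ 2 ^ (n + 1) := Nat.pow_le_pow_right (by norm_num) (by omega)
        _ ≤ N := hN
    · intro p _ _
      positivity
  · intro i _ j _ hij
    simp only [Function.onFun]
    rw [disjoint_left]
    intro p hp hp'
    rw [mem_filter, mem_Ioc] at hp hp'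
    apply hij
    have a1 : 2 ^ (i + 1) < 2 ^ (j + 1 + 1) := lt_of_lt_of_le hp.1.1 hp'.1.2
    have a2 : 2 ^ (j + 1) < 2 ^ (i + 1 + 1) := lt_of_lt_of_le hp'.1.1 hp.1.2
    have b1 := (Nat.pow_lt_pow_iff_right (by norm_num : 1 < 2)).1 a1
    have b2 := (Nat.pow_lt_pow_iff_right (by norm_num : 1 < 2)).1 a2
    omega

/-- the functions are far from the real characters -/
lemma far_uq (A : ℕ) (K : ℝ) : ∃ N₀ : ℕ, ∀ N : ℕ, N₀ ≤ N → ∀ Q : Finset ℕ, (∀ p ∈ Q, p.Prime) →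
    ∑ p ∈ Q, 1 / (p : ℝ) ≤ K → ∀ x : ℝ, 0 ≤ x → x ≤ 1 → FarR A N (uq Q x) := by
  classical
  obtain ⟨N₀, hN₀⟩ := recip_div A.factorial A.factorial_pos (A + K)
  refine ⟨N₀, fun N hN Q hQ hK x hx0 hx1 q χ hq hqA hχ => ?_⟩
  have h1 := hN₀ N hN
  obtain ⟨S, hS⟩ : ∃ S, S = (Icc 1 N).filter (fun p => p.Prime ∧ p % A.factorial = 1 % A.factorial) := ⟨_, rfl⟩
  rw [← hS] at h1
  have h2 : ∑ p ∈ S, 1 / (p : ℝ) ≤ ∑ p ∈ S.filter (fun p => p ∉ Q), 1 / (p : ℝ) + K := by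
    rw [← sum_filter_add_sum_filter_not S (fun p => p ∉ Q)]
    apply add_le_add le_rfl
    refine le_trans (sum_le_sum_of_subset_of_nonneg ?_ (fun _ _ _ => by positivity)) hK
    intro p hp
    rw [mem_filter] at hp
    by_contra hcon
    exact hp.2 hcon
  have h3 : (A : ℝ) ≤ ∑ p ∈ S.filter (fun p => p ∉ Q), 1 / (p : ℝ) := by linarith
  refine h3.trans ?_
  unfold dstR
  have hsub : S.filter (fun p => p ∉ Q) ⊆ (Icc 1 N).filter Nat.Prime := by
    intro p hp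
    rw [mem_filter, hS, mem_filter] at hp
    rw [mem_filter]
    exact ⟨hp.1.1, hp.1.2.1⟩
  refine le_trans ?_ (sum_le_sum_of_subset_of_nonneg hsub ?_)
  · apply sum_le_sum
    intro p hp
    rw [mem_filter, hS, mem_filter] at hp
    obtain ⟨⟨_, hpp, hp1⟩, hpQ⟩ := hp
    have hp0 : (0 : ℝ) < p := by exact_mod_cast hpp.pos
    have hpq : ((p : ℕ) : ZMod q) = 1 := by
      have h4 : p ≡ 1 [MOD q] := Nat.ModEq.of_dvd (Nat.dvd_factorial (by omega) hqA) hp1
      have := (ZMod.natCast_eq_natCast_iff p 1 q).2 h4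
      simpa using this
    rw [hpq, map_one, mul_one, Complex.ofReal_re]
    have e1 : uq Q x p = -1 := by
      unfold uq
      rw [ArithmeticFunction.cardFactors_apply_prime hpp]
      have : omq Q p = 0 := by
        unfold omq
        rw [card_eq_zero, filter_eq_empty_iff]
        intro l hl hd
        rw [(Nat.prime_dvd_prime_iff_eq (hQ l hl) hpp).1 hd] at hl
        exact hpQ hl
      rw [this]
      norm_num
    rw [e1]
    apply div_le_div_of_nonneg_right _ hp0.le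
    norm_num
  · intro p hp _
    apply div_nonneg _ (Nat.cast_nonneg _)
    have h4 : ‖((uq Q x p : ℝ) : ℂ) * χ (p : ZMod q)‖ ≤ 1 := by
      rw [norm_mul, Complex.norm_real, Real.norm_eq_abs]
      exact mul_le_one₀ (uq_abs Q hx0 hx1 p) (norm_nonneg _) (χ.norm_le_one _)
    have h5 := (abs_le.1 (Complex.abs_re_le_norm (((uq Q x p : ℝ) : ℂ) * χ (p : ZMod q)))).2
    linarith

end Pool.Agent.Helper34.SW
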