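import Mathlib
import Pool.Agent.Helper34.SW.V3

set_option autoImplicit false

/-! The averaged two point theorem for the Liouville function with the weight of Ramare. -/

namespace Pool.Agent.Helper34.SW
open Finset Filter Topology
open Pool.Agent.Helper82K9.EL (RMul FarR dstR Sm famR)
open Pool.Agent.H373R2.T7 (exI energy)
open Pool.Agent.E8helper16.SL (energy_one)

lemma wM_sum (v : ℕ → ℝ) (g : ℕ → ℂ) (M : ℕ) (j : ℤ) :
    ∃ X ≤ M, ∑ m ∈ Icc 1 M, g m * wM v M (m + j) = ∑ m ∈ Icc 1 X, g m * wz v (m + j) := by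
  rcases le_or_gt 0 j with hj | hj
  · refine ⟨M - j.toNat, Nat.sub_le _ _, ?_⟩
    symm
    apply sum_subset_zero_on_sdiff
    · intro m hm
      rw [mem_Icc] at hm ⊢
      omega
    · intro m hm
      rw [Finset.mem_sdiff, mem_Icc, mem_Icc] at hm
      have : ¬ ((m : ℤ) + j ≤ M) := by omega
      unfold wM
      rw [if_neg this, mul_zero]
    · intro m hm
      rw [mem_Icc] at hm
      have : ((m : ℤ) + j ≤ M) := by omega
      unfold wM
      rw [if_pos this]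
  · refine ⟨M, le_rfl, ?_⟩
    apply sum_congr rfl
    intro m hm
    rw [mem_Icc] at hm
    have : ((m : ℤ) + j ≤ M) := by omega
    unfold wM
    rw [if_pos this]

/-- the averaged two point theorem for the functions `uq Q x` -/
theorem mrt_u (K : ℝ) (ε : ℝ) (hε : 0 < ε) : ∃ J₀ M₀ : ℕ, ∀ Q : Finset ℕ, (∀ p ∈ Q, p.Prime) → ∑ p ∈ Q, 1 / (p : ℝ) ≤ K →
    ∀ x : ℝ, 0 ≤ x → x ≤ 1 → ∀ M J : ℕ, M₀ ≤ M → J₀ ≤ J → 2 * J ≤ M → ∀ g : ℕ → ℂ, (∀ n, ‖g n‖ ≤ 1) →
    ∑ j ∈ Ioo (-(J : ℤ)) J, ‖∑ m ∈ Icc 1 M, g m * wM (uq Q x) M (m + j)‖ ≤ ε * J * M := by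
  classical
  obtain ⟨A, hA⟩ := famR 1 (ε / 4) (by positivity) 1 1
  obtain ⟨N₀, hN₀⟩ := far_uq A K
  refine ⟨A + 1, A + N₀, fun Q hQ hK x hx0 hx1 M J hM hJ hJM g hg => ?_⟩
  have hM0 : (0 : ℝ) ≤ M := Nat.cast_nonneg _
  have h1 := hA M (by omega) (uq Q x) (uq_rmul hQ hx0 hx1) (hN₀ M (by omega) Q hQ hK x hx0 hx1) (2 * J) (by omega) hJM
    (2 * J) (fun m => (m : ℤ)) (by
      intro m hm
      rw [mem_Icc] at hm
      rw [abs_of_nonneg (by positivity)]
      exact_mod_cast hm.2) (by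
      have := energy_one (2 * J)
      have h2 : (energy 1 (2 * J) (fun m => (m : ℤ)) : ℝ) ≤ ((2 * J : ℕ) : ℝ) := by exact_mod_cast this
      calc (energy 1 (2 * J) (fun m => (m : ℤ)) : ℝ) * ((2 * J : ℕ) : ℝ) ≤ ((2 * J : ℕ) : ℝ) * ((2 * J : ℕ) : ℝ) :=
            mul_le_mul_of_nonneg_right h2 (Nat.cast_nonneg _)
        _ = 1 * ((2 * J : ℕ) : ℝ) ^ (2 * 1) := by ring) 1 (-(J : ℤ)) g le_rfl (by
      have : (0 : ℤ) ≤ (1 : ℕ) * (M : ℤ) := by positivity
      omega) hg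
  have h2 : ∀ j ∈ Ioo (-(J : ℤ)) J, ‖∑ m ∈ Icc 1 M, g m * wM (uq Q x) M (m + j)‖ ≤ ε / 4 * M +
      M * (if ∃ X ≤ M, ε / 4 * M < ‖∑ n ∈ Icc 1 X, g n * wz (uq Q x) (n + j)‖ then 1 else 0) := by
    intro j _
    obtain ⟨X, hX, h3⟩ := wM_sum (uq Q x) g M j
    rw [h3]
    split_ifs with h4
    · have h5 : ‖∑ m ∈ Icc 1 X, g m * wz (uq Q x) (m + j)‖ ≤ M := by
        refine (norm_sum_le _ _).trans ?_
        calc ∑ m ∈ Icc 1 X, ‖g m * wz (uq Q x) (m + j)‖ ≤ ∑ _m ∈ Icc 1 X, (1 : ℝ) := by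
              apply sum_le_sum
              intro m _
              rw [norm_mul]
              exact mul_le_one₀ (hg m) (norm_nonneg _) (wz_norm _ (uq_abs Q hx0 hx1) _)
          _ = X := by rw [sum_const, Nat.card_Icc, Nat.add_sub_cancel, nsmul_eq_mul, mul_one]
          _ ≤ M := by exact_mod_cast hX
      have : 0 ≤ ε / 4 * M := by positivity
      linarith
    · push Not at h4
      have := h4 X hX
      linarith
  refine (sum_le_sum h2).trans ?_
  rw [sum_add_distrib, sum_const, nsmul_eq_mul, Int.card_Ioo, ← mul_sum, sum_boole]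
  have h3 : (((Ioo (-(J : ℤ)) J).filter (fun j => ∃ X ≤ M, ε / 4 * M < ‖∑ n ∈ Icc 1 X, g n * wz (uq Q x) (n + j)‖)).card : ℝ) ≤
      ε / 4 * ((2 * J : ℕ) : ℝ) := by
    have h1' : (((Icc 1 (2 * J)).filter (fun m : ℕ => ¬ Sm (fun n => ((uq Q x n : ℝ) : ℂ)) 1 M (ε / 4) 1 (-(J : ℤ)) g ((m : ℕ) : ℤ))).card : ℝ) ≤
        ε / 4 * ((2 * J : ℕ) : ℝ) := by
      unfold Pool.Agent.TH823.MRS.nu at h1
      convert h1
    refine le_trans ?_ h1'
    apply Nat.cast_le.2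
    apply card_le_card_of_injOn (fun j : ℤ => (j + J).toNat)
    · intro j hj
      rw [mem_coe, mem_filter, mem_Ioo] at hj
      obtain ⟨X, hX, h4⟩ := hj.2
      refine mem_coe.2 (Finset.mem_filter.2 ⟨mem_Icc.2 (by simp only; omega), ?_⟩)
      intro hS
      have h5 := hS X (by omega)
      have e : ∑ n ∈ Icc 1 X, g n * exI (fun n => ((uq Q x n : ℝ) : ℂ)) (((1 : ℕ) : ℤ) * n + -(J : ℤ) + (((j + J).toNat : ℕ) : ℤ)) =
          ∑ n ∈ Icc 1 X, g n * wz (uq Q x) (n + j) := by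
        apply sum_congr rfl
        intro n _
        have e1 : ((1 : ℕ) : ℤ) * n + -(J : ℤ) + (((j + J).toNat : ℕ) : ℤ) = n + j := by push_cast; omega
        rw [e1]
        rfl
      rw [e] at h5
      linarith
    · intro j hj j' hj' h
      rw [mem_coe, mem_filter, mem_Ioo] at hj hj'
      simp only at h
      omega
  have h4 : (((J : ℤ) - -(J : ℤ) - 1).toNat : ℝ) ≤ 2 * J := by
    have : ((J : ℤ) - -(J : ℤ) - 1).toNat ≤ 2 * J := by omega
    exact_mod_cast this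
  have h5 := mul_le_mul_of_nonneg_left h3 hM0
  have h6 := mul_le_mul_of_nonneg_right h4 (by positivity : 0 ≤ ε / 4 * (M : ℝ))
  push_cast at h5
  have e : ε * J * M = 2 * J * (ε / 4 * M) + M * (ε / 4 * (2 * J)) := by ring
  rw [e]
  linarith

lemma wM_cont (Q : Finset ℕ) (M : ℕ) (t : ℤ) : Continuous (fun x : ℝ => wM (uq Q x) M t) := by
  unfold wM wz uq
  split_ifs
  · fun_prop
  · exact continuous_const
  · exact continuous_const

lemma wM_int (Q : Finset ℕ) (M : ℕ) (t : ℤ) : wM (vq Q) M t = ∫ x in (0 : ℝ)..1, wM (uq Q x) M t := by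
  unfold wM wz uq vq
  split_ifs
  · rw [intervalIntegral.integral_ofReal, intervalIntegral.integral_const_mul, integral_pow]
    congr 1
    simp only [one_pow, ne_eq, Nat.add_eq_zero_iff, one_ne_zero, and_false, not_false_eq_true, zero_pow, sub_zero]
    rw [div_eq_mul_one_div, add_comm]
  · simp
  · simp

/-- the family of the functions `vq Q` -/
def VF (K : ℝ) (v : ℕ → ℝ) : Prop := ∃ Q : Finset ℕ, (∀ p ∈ Q, p.Prime) ∧ ∑ p ∈ Q, 1 / (p : ℝ) ≤ K ∧ v = vq Q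

lemma VF_abs (K : ℝ) : ∀ v, VF K v → ∀ n, |v n| ≤ 1 := by
  rintro v ⟨Q, _, _, rfl⟩ n
  exact vq_abs Q n

theorem mrt_v (K : ℝ) : MRT (VF K) := by
  intro δ hδ
  obtain ⟨J₀, M₀, h0⟩ := mrt_u K δ hδ
  refine ⟨J₀, M₀, ?_⟩
  rintro v ⟨Q, hQ, hK, rfl⟩ M J hM hJ hJM g hg
  have hcont : ∀ j : ℤ, Continuous (fun x : ℝ => ∑ m ∈ Icc 1 M, g m * wM (uq Q x) M (m + j)) := by
    intro j
    apply continuous_finsetSum
    intro m _
    exact continuous_const.mul (wM_cont Q M _)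
  have h1 : ∀ j ∈ Ioo (-(J : ℤ)) J, ‖∑ m ∈ Icc 1 M, g m * wM (vq Q) M (m + j)‖ ≤
      ∫ x in (0 : ℝ)..1, ‖∑ m ∈ Icc 1 M, g m * wM (uq Q x) M (m + j)‖ := by
    intro j _
    have e : ∑ m ∈ Icc 1 M, g m * wM (vq Q) M (m + j) = ∫ x in (0 : ℝ)..1, ∑ m ∈ Icc 1 M, g m * wM (uq Q x) M (m + j) := by
      rw [intervalIntegral.integral_finsetSum]
      · apply sum_congr rfl
        intro m _
        rw [intervalIntegral.integral_const_mul, wM_int]
      · intro m _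
        exact (continuous_const.mul (wM_cont Q M _)).intervalIntegrable _ _
    rw [e]
    exact intervalIntegral.norm_integral_le_integral_norm zero_le_one
  refine (sum_le_sum h1).trans ?_
  rw [← intervalIntegral.integral_finsetSum]
  · have h2 : ∫ x in (0 : ℝ)..1, ∑ j ∈ Ioo (-(J : ℤ)) J, ‖∑ m ∈ Icc 1 M, g m * wM (uq Q x) M (m + j)‖ ≤
        ∫ _x in (0 : ℝ)..1, δ * J * M := by
      apply intervalIntegral.integral_mono_on zero_le_one
      · apply Continuous.intervalIntegrable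
        apply continuous_finsetSum
        intro j _
        exact (hcont j).norm
      · exact intervalIntegrable_const
      · intro x hx
        exact h0 Q hQ hK x hx.1 hx.2 M J hM hJ hJM g hg
    refine h2.trans (le_of_eq ?_)
    simp
  · intro j _
    exact (hcont j).norm.intervalIntegrable _ _

end Pool.Agent.Helper34.SW
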