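import Mathlib
import Pool.Agent.Helper34.SW.V4
import Pool.Graph.R_pool_sql_team_seeded_b677cdb8.E8helper16.SL.I4

set_option autoImplicit false

/-! The identity of Ramare on a window. -/

namespace Pool.Agent.Helper34.SW
open Finset
open Pool.Agent.E8helper16.SL (lz lz_nat lz_norm sum_ind cnt_dvd sum_inv_sq)

lemma omq_div {Q : Finset ℕ} (hQ : ∀ p ∈ Q, p.Prime) {t p : ℕ} (hp : p ∈ Q) (hd : p ∣ t) (ht : 1 ≤ t) :
    omq Q t ≤ omq Q (t / p) + 1 := by
  unfold omq
  have h1 : Q.filter (fun l => l ∣ t) ⊆ insert p (Q.filter (fun l => l ∣ t / p)) := by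
    intro l hl
    rw [mem_filter] at hl
    rw [mem_insert, mem_filter]
    by_cases h : l = p
    · exact Or.inl h
    · right
      refine ⟨hl.1, ?_⟩
      obtain ⟨m, rfl⟩ := hd
      rw [Nat.mul_div_cancel_left _ (hQ p hp).pos]
      rcases (hQ l hl.1).dvd_mul.1 hl.2 with h2 | h2
      · exact absurd ((Nat.prime_dvd_prime_iff_eq (hQ l hl.1) (hQ p hp)).1 h2) h
      · exact h2
  exact (card_le_card h1).trans (card_insert_le _ _)

lemma omq_div_eq {Q : Finset ℕ} (hQ : ∀ p ∈ Q, p.Prime) {t p : ℕ} (hp : p ∈ Q) (hd : p ∣ t) (ht : 1 ≤ t) (hsq : ¬ p ^ 2 ∣ t) :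
    omq Q t = omq Q (t / p) + 1 := by
  classical
  unfold omq
  have h1 : Q.filter (fun l => l ∣ t) = insert p (Q.filter (fun l => l ∣ t / p)) := by
    ext l
    rw [mem_filter, mem_insert, mem_filter]
    obtain ⟨m, rfl⟩ := hd
    rw [Nat.mul_div_cancel_left _ (hQ p hp).pos]
    constructor
    · rintro ⟨hl1, hl2⟩
      by_cases h : l = p
      · exact Or.inl h
      · right
        refine ⟨hl1, ?_⟩
        rcases (hQ l hl1).dvd_mul.1 hl2 with h2 | h2
        · exact absurd ((Nat.prime_dvd_prime_iff_eq (hQ l hl1) (hQ p hp)).1 h2) h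
        · exact h2
    · rintro (rfl | ⟨h1, h2⟩)
      · exact ⟨hp, dvd_mul_right _ _⟩
      · exact ⟨h1, h2.mul_left _⟩
  rw [h1, card_insert_of_notMem]
  intro h
  rw [mem_filter] at h
  apply hsq
  obtain ⟨m, rfl⟩ := hd
  rw [Nat.mul_div_cancel_left _ (hQ p hp).pos] at h
  rw [pow_two]
  exact Nat.mul_dvd_mul_left p h.2

/-- the real Liouville function -/
noncomputable def lr (m : ℕ) : ℝ := (-1) ^ (ArithmeticFunction.cardFactors m)

lemma lr_abs (m : ℕ) : |lr m| = 1 := by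
  unfold lr
  rw [abs_pow, abs_neg, abs_one, one_pow]

lemma lr_div {t p : ℕ} (hp : p.Prime) (hd : p ∣ t) (ht : 1 ≤ t) : lr (t / p) = - lr t := by
  obtain ⟨m, rfl⟩ := hd
  have hm : m ≠ 0 := by
    rintro rfl
    omega
  rw [Nat.mul_div_cancel_left _ hp.pos]
  unfold lr
  rw [ArithmeticFunction.cardFactors_mul hp.ne_zero hm, ArithmeticFunction.cardFactors_apply_prime hp, pow_add, pow_one]
  ring

/-- the pointwise identity -/
lemma ramare {Q : Finset ℕ} (hQ : ∀ p ∈ Q, p.Prime) {t : ℕ} (ht : 1 ≤ t) :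
    |lr t + ∑ p ∈ Q, (if p ∣ t then vq Q (t / p) else 0)| ≤ (if omq Q t = 0 then 1 else 0) +
      2 * ∑ p ∈ Q, (if p ^ 2 ∣ t then (1 : ℝ) else 0) := by
  classical
  rw [← sum_filter]
  by_cases h0 : omq Q t = 0
  · have h1 : Q.filter (fun p => p ∣ t) = ∅ := by
      unfold omq at h0
      exact card_eq_zero.1 h0
    rw [h1, sum_empty, add_zero, lr_abs, if_pos h0]
    have : 0 ≤ ∑ p ∈ Q, (if p ^ 2 ∣ t then (1 : ℝ) else 0) := sum_nonneg fun p _ => by split_ifs <;> norm_num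
    linarith
  · rw [if_neg h0, zero_add]
    have hpos : (0 : ℝ) < omq Q t := by exact_mod_cast Nat.pos_of_ne_zero h0
    by_cases hsq : ∃ q ∈ Q, q ^ 2 ∣ t
    · obtain ⟨q, hq, hqt⟩ := hsq
      have h1 : (1 : ℝ) ≤ ∑ p ∈ Q, (if p ^ 2 ∣ t then (1 : ℝ) else 0) := by
        have := single_le_sum (f := fun p => if p ^ 2 ∣ t then (1 : ℝ) else 0) (s := Q) (fun i _ => by split_ifs <;> norm_num) hq
        simp only [if_pos hqt] at this
        exact this
      have h2 : |∑ p ∈ Q.filter (fun p => p ∣ t), vq Q (t / p)| ≤ 1 := by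
        refine (abs_sum_le_sum_abs _ _).trans ?_
        have h3 : ∀ p ∈ Q.filter (fun p => p ∣ t), |vq Q (t / p)| ≤ 1 / (omq Q t : ℝ) := by
          intro p hp
          rw [mem_filter] at hp
          have h4 := omq_div hQ hp.1 hp.2 ht
          unfold vq
          rw [abs_div, abs_pow, abs_neg, abs_one, one_pow, abs_of_pos (by positivity)]
          apply one_div_le_one_div_of_le hpos
          have : (omq Q t : ℝ) ≤ ((omq Q (t / p) + 1 : ℕ) : ℝ) := by exact_mod_cast h4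
          push_cast at this
          linarith
        refine (sum_le_sum h3).trans (le_of_eq ?_)
        rw [sum_const, nsmul_eq_mul]
        have : ((Q.filter (fun p => p ∣ t)).card : ℝ) = omq Q t := rfl
        rw [this, mul_one_div_cancel hpos.ne']
      have h3 := abs_add_le (lr t) (∑ p ∈ Q.filter (fun p => p ∣ t), vq Q (t / p))
      rw [lr_abs] at h3
      linarith
    · push Not at hsq
      have h1 : ∑ p ∈ Q.filter (fun p => p ∣ t), vq Q (t / p) = - lr t := by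
        have h3 : ∀ p ∈ Q.filter (fun p => p ∣ t), vq Q (t / p) = - lr t / (omq Q t : ℝ) := by
          intro p hp
          rw [mem_filter] at hp
          have h4 := omq_div_eq hQ hp.1 hp.2 ht (hsq p hp.1)
          have h5 := lr_div (hQ p hp.1) hp.2 ht
          unfold vq
          unfold lr at h5 ⊢
          rw [h5, h4]
          push_cast
          rw [add_comm (1 : ℝ)]
        rw [sum_congr rfl h3, sum_const, nsmul_eq_mul]
        have : ((Q.filter (fun p => p ∣ t)).card : ℝ) = omq Q t := rfl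
        rw [this, mul_div_cancel₀ _ hpos.ne']
      rw [h1, add_neg_cancel, abs_zero]
      have : 0 ≤ ∑ p ∈ Q, (if p ^ 2 ∣ t then (1 : ℝ) else 0) := sum_nonneg fun p _ => by split_ifs <;> norm_num
      linarith

lemma Gv_eq (v : ℕ → ℝ) (c : ℕ → ℂ) {p : ℕ} (hp : p.Prime) (H n : ℕ) :
    Gv v c H p n = ∑ h ∈ Icc 1 H, c h * ((if p ∣ n + h then v ((n + h) / p) else 0 : ℝ) : ℂ) := by
  unfold Gv
  apply sum_congr rfl
  intro h hh
  rw [mem_Icc] at hh
  have e : ((p : ℤ) ∣ (n : ℤ) + h) ↔ p ∣ n + h := by exact_mod_cast Int.natCast_dvd_natCast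
  by_cases hd : p ∣ n + h
  · rw [if_pos (e.2 hd), if_pos hd]
    obtain ⟨m, hm⟩ := hd
    have hm1 : 1 ≤ m := by
      rcases Nat.eq_zero_or_pos m with h0 | h0
      · rw [h0, mul_zero] at hm
        omega
      · exact h0
    have hp0 : (p : ℤ) ≠ 0 := by exact_mod_cast hp.ne_zero
    have e2 : ((n : ℤ) + h) / p = (m : ℤ) := by
      have : (n : ℤ) + h = p * m := by exact_mod_cast hm
      rw [this, Int.mul_ediv_cancel_left _ hp0]
    rw [e2, hm, Nat.mul_div_cancel_left _ hp.pos]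
    unfold wz
    rw [if_pos (by exact_mod_cast hm1), Int.toNat_natCast]
  · rw [if_neg (fun q => hd (e.1 q)), if_neg hd, Complex.ofReal_zero, mul_zero]

/-- the sum over a window -/
theorem win_le (c : ℕ → ℂ) (hc : ∀ h, ‖c h‖ ≤ 1) (E : Finset ℕ) (hE : ∀ h, h ∉ E → c h = 0) {Q : Finset ℕ} (hQ : ∀ p ∈ Q, p.Prime)
    {w : ℕ} (hw : 1 ≤ w) (hwQ : ∀ q ∈ Q, w < q) (n H : ℕ) :
    ‖∑ h ∈ Icc 1 H, c h * lz ((n + h : ℕ) : ℤ)‖ ≤ ∑ h ∈ E, (if omq Q (n + h) = 0 then (1 : ℝ) else 0) +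
      2 * (H / w + Q.card) + ∑ p ∈ Q, ‖Gv (vq Q) c H p n‖ := by
  classical
  have h1 : ∑ h ∈ Icc 1 H, c h * lz ((n + h : ℕ) : ℤ) =
      ∑ h ∈ Icc 1 H, c h * ((lr (n + h) + ∑ p ∈ Q, (if p ∣ n + h then vq Q ((n + h) / p) else 0) : ℝ) : ℂ) -
        ∑ p ∈ Q, Gv (vq Q) c H p n := by
    rw [sum_congr rfl (fun p hp => Gv_eq (vq Q) c (hQ p hp) H n), sum_comm, ← sum_sub_distrib]
    apply sum_congr rfl
    intro h hh
    rw [mem_Icc] at hh
    rw [lz_nat _ (by omega), ← mul_sum]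
    unfold lr
    push_cast
    ring
  rw [h1]
  refine (norm_sub_le _ _).trans (add_le_add ?_ (norm_sum_le _ _))
  have h2 : ∀ h ∈ Icc 1 H, ‖c h * ((lr (n + h) + ∑ p ∈ Q, (if p ∣ n + h then vq Q ((n + h) / p) else 0) : ℝ) : ℂ)‖ ≤
      (if h ∈ E then (if omq Q (n + h) = 0 then (1 : ℝ) else 0) else 0) +
        2 * ∑ p ∈ Q, (if p ^ 2 ∣ n + h then (1 : ℝ) else 0) := by
    intro h hh
    rw [mem_Icc] at hh
    have h0 : 0 ≤ ∑ p ∈ Q, (if p ^ 2 ∣ n + h then (1 : ℝ) else 0) := sum_nonneg fun p _ => by split_ifs <;> norm_num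
    by_cases hhE : h ∈ E
    · rw [if_pos hhE, norm_mul, Complex.norm_real, Real.norm_eq_abs]
      refine le_trans ?_ (ramare hQ (show 1 ≤ n + h by omega))
      exact mul_le_of_le_one_left (abs_nonneg _) (hc h)
    · rw [if_neg hhE, hE h hhE, zero_mul, norm_zero]
      linarith
  refine (norm_sum_le _ _).trans ((sum_le_sum h2).trans ?_)
  rw [sum_add_distrib, ← mul_sum]
  apply add_le_add
  · rw [← sum_filter]
    apply sum_le_sum_of_subset_of_nonneg
    · intro h hh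
      exact (mem_filter.1 hh).2
    · intro h _ _
      split_ifs <;> norm_num
  · apply mul_le_mul_of_nonneg_left _ (by norm_num)
    rw [sum_comm]
    have h3 : ∀ p ∈ Q, ∑ h ∈ Icc 1 H, (if p ^ 2 ∣ n + h then (1 : ℝ) else 0) ≤ H * (1 / (p : ℝ) ^ 2) + 1 := by
      intro p hp
      rw [sum_ind]
      have h4 := (abs_le.1 (cnt_dvd (p ^ 2) n H (pow_pos (hQ p hp).pos 2))).2
      push_cast at h4
      have e : (H : ℝ) * (1 / (p : ℝ) ^ 2) = H / (p : ℝ) ^ 2 := by ring
      rw [e]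
      linarith
    refine (sum_le_sum h3).trans ?_
    rw [sum_add_distrib, ← mul_sum, sum_const, nsmul_eq_mul, mul_one]
    apply add_le_add _ le_rfl
    have h5 := mul_le_mul_of_nonneg_left (sum_inv_sq hw hwQ) (Nat.cast_nonneg H : (0 : ℝ) ≤ H)
    rw [mul_one_div] at h5
    exact h5

end Pool.Agent.Helper34.SW
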