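import Mathlib
import Pool.Agent.Helper34.SW.V5
import Pool.Graph.R_seed8.H373R2.T7.Bonf
import Pool.Graph.R_seed8.H373R2.T7.LamMaj

set_option autoImplicit false

/-! The primes `n + a` such that `n + t` is free of the primes of a set. -/

namespace Pool.Agent.Helper34.SW
open Finset Filter Topology
open Pool.Agent.H373R2.T7 (sieve_gen' es es_le card_small lam_ap lamAP)
open Pool.Agent.E8helper16.SL (log_tendsto)

/-- the primes of `Q` which do not divide `t - a` -/
noncomputable def QT (Q : Finset ℕ) (a t : ℕ) : Finset ℕ := Q.filter (fun q => ¬ (q : ℤ) ∣ (t : ℤ) - a)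

lemma prog_shift (X a t d : ℕ) (hd : 1 ≤ d) :
    ∑ n ∈ (Icc 1 X).filter (fun n => d ∣ n + t), ArithmeticFunction.vonMangoldt (n + a) =
      lamAP (X + a) d (a + (d - 1) * t) - lamAP a d (a + (d - 1) * t) := by
  classical
  have hiff : ∀ n : ℕ, d ∣ n + t ↔ n + a ≡ a + (d - 1) * t [MOD d] := by
    intro n
    have e1 : (d - 1) * t + t = d * t := by
      obtain ⟨k, rfl⟩ : ∃ k, d = k + 1 := ⟨d - 1, by omega⟩
      rw [Nat.add_sub_cancel]
      ring
    constructor
    · intro h
      have h1 : n + t ≡ (d - 1) * t + t [MOD d] := by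
        rw [e1]
        exact ((Nat.modEq_zero_iff_dvd.2 h).trans (Nat.modEq_zero_iff_dvd.2 (dvd_mul_right d t)).symm)
      have h2 : n ≡ (d - 1) * t [MOD d] := Nat.ModEq.add_right_cancel' t h1
      rw [add_comm n a]
      exact Nat.ModEq.add_left a h2
    · intro h
      rw [add_comm n a] at h
      have h2 : n ≡ (d - 1) * t [MOD d] := Nat.ModEq.add_left_cancel' a h
      have h1 : n + t ≡ d * t [MOD d] := by
        rw [← e1]
        exact Nat.ModEq.add_right t h2
      exact Nat.modEq_zero_iff_dvd.1 (h1.trans (Nat.modEq_zero_iff_dvd.2 (dvd_mul_right d t)))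
  unfold lamAP
  have h1 : (Icc 1 (X + a)).filter (fun n => n ≡ a + (d - 1) * t [MOD d]) =
      (Icc 1 a).filter (fun n => n ≡ a + (d - 1) * t [MOD d]) ∪ ((Icc 1 X).filter (fun n => d ∣ n + t)).image (fun n => n + a) := by
    ext m
    simp only [mem_union, mem_image, mem_filter, mem_Icc]
    constructor
    · rintro ⟨⟨h1, h2⟩, h3⟩
      by_cases h4 : m ≤ a
      · exact Or.inl ⟨⟨h1, h4⟩, h3⟩
      · right
        refine ⟨m - a, ⟨⟨by omega, by omega⟩, ?_⟩, by omega⟩
        rw [hiff, Nat.sub_add_cancel (by omega)]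
        exact h3
    · rintro (⟨⟨h1, h2⟩, h3⟩ | ⟨n, ⟨⟨h1, h2⟩, h3⟩, rfl⟩)
      · exact ⟨⟨h1, by omega⟩, h3⟩
      · exact ⟨⟨by omega, by omega⟩, (hiff n).1 h3⟩
  have hdis : Disjoint ((Icc 1 a).filter (fun n => n ≡ a + (d - 1) * t [MOD d]))
      (((Icc 1 X).filter (fun n => d ∣ n + t)).image (fun n => n + a)) := by
    rw [disjoint_left]
    intro m
    simp only [mem_image, mem_filter, mem_Icc]
    rintro ⟨⟨h1, h2⟩, h3⟩ ⟨n, ⟨⟨h4, h5⟩, h6⟩, rfl⟩
    omega
  rw [h1, sum_union hdis, sum_image (fun x _ y _ h => by simpa using h)]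
  ring

theorem tf1 (K : ℝ) (hK : 0 ≤ K) (δ : ℝ) (hδ : 0 < δ) : ∃ N₀ : ℕ, ∀ N : ℕ, N₀ ≤ N → ∀ Q : Finset ℕ,
    (∀ q ∈ Q, q.Prime ∧ 2 < q ∧ (q : ℝ) ≤ Real.log N ^ 2) → ∑ q ∈ Q, 1 / (q : ℝ) ≤ K →
    ∀ a X t : ℕ, a ≤ N → X ≤ N →
      ∑ n ∈ Icc 1 X, ArithmeticFunction.vonMangoldt (n + a) * (if omq Q (n + t) = 0 then (1 : ℝ) else 0) ≤
        X * ∏ q ∈ QT Q a t, (1 - 1 / (q : ℝ)) + δ * N := by
  classical
  obtain ⟨r, hr⟩ := exists_nat_ge (6 * K + Real.log (4 / δ))
  obtain ⟨N₁, hN₁⟩ := lam_ap (2 * r) (2 * r + 1)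
  obtain ⟨N₂, hN₂⟩ := eventually_atTop.1 (log_tendsto.eventually_ge_atTop (1 + 8 * 2 ^ r / δ))
  refine ⟨N₁ + N₂ + 1, fun N hN Q hQ hQK a X t ha hX => ?_⟩
  have hLx := hN₂ N (by omega)
  obtain ⟨x, hx⟩ : ∃ x, x = Real.log N := ⟨_, rfl⟩
  rw [← hx] at hLx
  have h8 : (0 : ℝ) ≤ 8 * 2 ^ r / δ := by positivity
  have hx1 : 1 ≤ x := by linarith
  have hx0 : 0 < x := by linarith
  have hN0 : (0 : ℝ) < N := by exact_mod_cast (by omega : 0 < N)
  obtain ⟨T, hT⟩ : ∃ T, T = QT Q a t := ⟨_, rfl⟩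
  rw [← hT]
  have hTQ : T ⊆ Q := by rw [hT]; exact filter_subset _ _
  have hTp : ∀ q ∈ T, q.Prime ∧ 2 < q ∧ (q : ℝ) ≤ x ^ 2 := fun q hq => by rw [hx]; exact hQ q (hTQ hq)
  have hTd : ∀ q ∈ T, ¬ (q : ℤ) ∣ (t : ℤ) - a := fun q hq => by
    rw [hT] at hq
    exact (mem_filter.1 hq).2
  -- the first step
  have h1 : ∑ n ∈ Icc 1 X, ArithmeticFunction.vonMangoldt (n + a) * (if omq Q (n + t) = 0 then (1 : ℝ) else 0) ≤
      ∑ n ∈ Icc 1 X with ∀ q ∈ T, ¬ q ∣ n + t, ArithmeticFunction.vonMangoldt (n + a) := by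
    rw [sum_filter]
    apply sum_le_sum
    intro n _
    by_cases h0 : omq Q (n + t) = 0
    · rw [if_pos h0, mul_one, if_pos]
      intro q hq hd
      unfold omq at h0
      rw [card_eq_zero, filter_eq_empty_iff] at h0
      exact h0 (hTQ hq) hd
    · rw [if_neg h0, mul_zero]
      split_ifs
      · exact ArithmeticFunction.vonMangoldt_nonneg
      · exact le_rfl
  have hlog2 : x ≤ Real.log ((2 * N : ℕ) : ℝ) := by
    rw [hx]
    apply Real.log_le_log hN0
    push_cast
    linarith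
  obtain ⟨x2, hx2⟩ : ∃ x2, x2 = Real.log ((2 * N : ℕ) : ℝ) := ⟨_, rfl⟩
  rw [← hx2] at hlog2
  obtain ⟨R, hR⟩ : ∃ R : ℝ, R = 4 * N / x ^ (2 * r + 1) := ⟨_, rfl⟩
  have hg01 : ∀ q ∈ T, 0 ≤ (fun q : ℕ => 1 / ((q : ℝ) - 1)) q ∧ (fun q : ℕ => 1 / ((q : ℝ) - 1)) q ≤ 1 := by
    intro q hq
    have : (3 : ℝ) ≤ q := by exact_mod_cast (hTp q hq).2.1
    simp only
    constructor
    · apply div_nonneg zero_le_one
      linarith
    · rw [div_le_one (by linarith)]
      linarith
  have key := sieve_gen' (Icc 1 X) (fun n => ArithmeticFunction.vonMangoldt (n + a)) (fun _ _ => ArithmeticFunction.vonMangoldt_nonneg)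
    (fun q n => q ∣ n + t) T (fun q => 1 / ((q : ℝ) - 1)) hg01 X (Nat.cast_nonneg _) (fun _ => R) r (by
      intro S hS hSr
      obtain ⟨d, hd⟩ : ∃ d, d = ∏ q ∈ S, q := ⟨_, rfl⟩
      have hSp : ∀ q ∈ S, q.Prime := fun q hq => (hTp q (hS hq)).1
      have hd1 : 1 ≤ d := by
        rw [hd]
        exact Nat.pos_of_ne_zero (prod_ne_zero_iff.2 fun q hq => (hSp q hq).ne_zero)
      have hdvd : ∀ m : ℕ, (∀ q ∈ S, q ∣ m) ↔ d ∣ m := by
        intro m
        rw [hd]
        constructor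
        · intro h
          exact prod_primes_dvd m (fun q hq => (hSp q hq).prime) h
        · intro h q hq
          exact (dvd_prod_of_mem _ hq).trans h
      have e1 : ∑ n ∈ Icc 1 X with ∀ q ∈ S, q ∣ n + t, ArithmeticFunction.vonMangoldt (n + a) =
          ∑ n ∈ (Icc 1 X).filter (fun n => d ∣ n + t), ArithmeticFunction.vonMangoldt (n + a) := by
        apply sum_congr _ (fun _ _ => rfl)
        apply filter_congr
        intro n _
        exact hdvd (n + t)
      rw [e1, prog_shift X a t d hd1]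
      have hphi : (Nat.totient d : ℝ) = ∏ q ∈ S, ((q : ℝ) - 1) := by
        rw [hd]
        clear hd hdvd e1 hSr
        induction S using Finset.induction_on with
        | empty => simp
        | insert q S hqS ih =>
          rw [prod_insert hqS, prod_insert hqS]
          have hcop : Nat.Coprime q (∏ l ∈ S, l) := by
            apply Nat.Coprime.prod_right
            intro l hl
            rw [Nat.coprime_primes (hSp q (mem_insert_self _ _)) (hSp l (mem_insert_of_mem hl))]
            rintro rfl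
            exact hqS hl
          rw [Nat.totient_mul hcop, Nat.totient_prime (hSp q (mem_insert_self _ _)), Nat.cast_mul,
            ih ((subset_insert _ _).trans hS) (fun l hl => hSp l (mem_insert_of_mem hl)) ,
            Nat.cast_sub (hSp q (mem_insert_self _ _)).one_le]
          · simp
      have hcop : (a + (d - 1) * t).Coprime d := by
        rw [hd]
        apply Nat.Coprime.prod_right
        intro q hq
        rw [Nat.coprime_comm, (hSp q hq).coprime_iff_not_dvd, ← hd]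
        intro hqd
        apply hTd q (hS hq)
        have hqd' : q ∣ d := by rw [hd]; exact dvd_prod_of_mem _ hq
        have h2 : ((a + (d - 1) * t : ℕ) : ℤ) = (a : ℤ) - t + d * t := by
          push_cast
          rw [Nat.cast_sub hd1]
          push_cast
          ring
        have h3 : (q : ℤ) ∣ (a : ℤ) - t + d * t := by
          rw [← h2]
          exact_mod_cast hqd
        have h4 : (q : ℤ) ∣ (d : ℤ) * t := Dvd.dvd.mul_right (by exact_mod_cast hqd') _
        have h5 := dvd_sub h4 h3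
        have e : (d : ℤ) * t - ((a : ℤ) - t + d * t) = t - a := by ring
        rwa [e] at h5
      have hdK : (d : ℝ) ≤ x2 ^ (2 * r) := by
        have h2 : (d : ℝ) ≤ (x ^ 2) ^ S.card := by
          rw [hd]
          push_cast
          calc ∏ q ∈ S, (q : ℝ) ≤ ∏ _q ∈ S, x ^ 2 := by
                apply Finset.prod_le_prod
                · intro q _
                  positivity
                · intro q hq
                  exact (hTp q (hS hq)).2.2
            _ = _ := by rw [prod_const]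
        calc (d : ℝ) ≤ (x ^ 2) ^ S.card := h2
          _ ≤ (x ^ 2) ^ r := pow_le_pow_right₀ (one_le_pow₀ hx1) hSr
          _ = x ^ (2 * r) := by rw [pow_mul]
          _ ≤ x2 ^ (2 * r) := pow_le_pow_left₀ hx0.le hlog2 _
      have a1 := hN₁ (2 * N) (by omega) d hd1 (by rw [← hx2]; exact hdK) (a + (d - 1) * t) (X + a) (by omega)
      have a2 := hN₁ (2 * N) (by omega) d hd1 (by rw [← hx2]; exact hdK) (a + (d - 1) * t) a (by omega)
      rw [if_pos hcop, ← hx2] at a1 a2
      have e2 : ((X : ℝ)) * ∏ q ∈ S, 1 / ((q : ℝ) - 1) = ((X + a : ℕ) : ℝ) / (Nat.totient d : ℝ) - (a : ℝ) / (Nat.totient d : ℝ) := by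
        rw [hphi, prod_div_distrib, prod_const_one]
        push_cast
        ring
      rw [e2]
      have e3 : ((2 * N : ℕ) : ℝ) / x2 ^ (2 * r + 1) ≤ 2 * N / x ^ (2 * r + 1) := by
        push_cast
        apply div_le_div_of_nonneg_left (by positivity) (by positivity)
        exact pow_le_pow_left₀ hx0.le hlog2 _
      have e4 : R = 2 * N / x ^ (2 * r + 1) + 2 * N / x ^ (2 * r + 1) := by rw [hR]; ring
      have b1 := abs_le.1 a1
      have b2 := abs_le.1 a2
      unfold lamAP
      rw [e4, abs_le]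
      constructor <;> linarith [b1.1, b1.2, b2.1, b2.2])
  have h2 := (abs_le.1 key).2
  -- the number of the error terms
  have h3 : ∑ j ∈ range (r + 1), ∑ _S ∈ T.powersetCard j, R ≤ δ / 2 * N := by
    have e1 : ∑ j ∈ range (r + 1), ∑ _S ∈ T.powersetCard j, R = ((∑ j ∈ range (r + 1), (T.powersetCard j).card : ℕ) : ℝ) * R := by
      push_cast
      rw [sum_mul]
      apply sum_congr rfl
      intro j _
      rw [sum_const, nsmul_eq_mul]
    rw [e1]
    have hR0 : 0 ≤ R := by rw [hR]; positivity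
    have hcard : (T.card : ℝ) + 1 ≤ 2 * x ^ 2 := by
      have g1 : T ⊆ Icc 1 ⌊x ^ 2⌋₊ := by
        intro q hq
        rw [mem_Icc]
        exact ⟨(hTp q hq).1.one_le, Nat.le_floor (hTp q hq).2.2⟩
      have g2 := card_le_card g1
      rw [Nat.card_Icc, Nat.add_sub_cancel] at g2
      have g3 : (T.card : ℝ) ≤ x ^ 2 := le_trans (by exact_mod_cast g2) (Nat.floor_le (by positivity))
      have g4 : 1 ≤ x ^ 2 := one_le_pow₀ hx1
      linarith
    calc _ ≤ ((T.card : ℝ) + 1) ^ r * R := mul_le_mul_of_nonneg_right (card_small T r) hR0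
      _ ≤ (2 * x ^ 2) ^ r * R := mul_le_mul_of_nonneg_right (pow_le_pow_left₀ (by positivity) hcard r) hR0
      _ = (4 * 2 ^ r / x) * N := by
          rw [hR, mul_pow, ← pow_mul, pow_succ]
          field_simp
      _ ≤ δ / 2 * N := by
          apply mul_le_mul_of_nonneg_right _ hN0.le
          rw [div_le_iff₀ hx0]
          have : 8 * 2 ^ r / δ ≤ x := by linarith
          rw [div_le_iff₀ hδ] at this
          linarith
  have h4 : 2 * (X : ℝ) * es (fun q => 1 / ((q : ℝ) - 1)) T r ≤ δ / 2 * N := by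
    have g1 := es_le (x := fun q : ℕ => 1 / ((q : ℝ) - 1)) (T := T) (fun q hq => (hg01 q hq).1) r
    have g2 : ∑ q ∈ T, 1 / ((q : ℝ) - 1) ≤ 2 * K := by
      calc ∑ q ∈ T, 1 / ((q : ℝ) - 1) ≤ ∑ q ∈ T, 2 * (1 / (q : ℝ)) := by
            apply sum_le_sum
            intro q hq
            have : (3 : ℝ) ≤ q := by exact_mod_cast (hTp q hq).2.1
            rw [mul_one_div, div_le_div_iff₀ (by linarith) (by linarith)]
            linarith
        _ = 2 * ∑ q ∈ T, 1 / (q : ℝ) := by rw [mul_sum]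
        _ ≤ 2 * ∑ q ∈ Q, 1 / (q : ℝ) := by
            apply mul_le_mul_of_nonneg_left _ (by norm_num)
            exact sum_le_sum_of_subset_of_nonneg hTQ (fun _ _ _ => by positivity)
        _ ≤ 2 * K := by linarith
    have g3 : Real.exp (3 * ∑ q ∈ T, 1 / ((q : ℝ) - 1) - r) ≤ δ / 4 := by
      rw [← Real.le_log_iff_exp_le (by positivity)]
      have e : Real.log (δ / 4) = - Real.log (4 / δ) := by
        rw [← Real.log_inv, inv_div]
      rw [e]
      linarith
    have g4 : es (fun q => 1 / ((q : ℝ) - 1)) T r ≤ δ / 4 := g1.trans g3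
    have hXN : (X : ℝ) ≤ N := by exact_mod_cast hX
    calc 2 * (X : ℝ) * es (fun q => 1 / ((q : ℝ) - 1)) T r ≤ 2 * X * (δ / 4) := mul_le_mul_of_nonneg_left g4 (by positivity)
      _ ≤ 2 * N * (δ / 4) := by gcongr
      _ = _ := by ring
  have h5 : (X : ℝ) * ∏ q ∈ T, (1 - 1 / ((q : ℝ) - 1)) ≤ X * ∏ q ∈ T, (1 - 1 / (q : ℝ)) := by
    apply mul_le_mul_of_nonneg_left _ (Nat.cast_nonneg _)
    apply Finset.prod_le_prod
    · intro q hq
      have := (hg01 q hq).2
      simp only at this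
      linarith
    · intro q hq
      have : (3 : ℝ) ≤ q := by exact_mod_cast (hTp q hq).2.1
      have : 1 / (q : ℝ) ≤ 1 / ((q : ℝ) - 1) := one_div_le_one_div_of_le (by linarith) (by linarith)
      linarith
  linarith

end Pool.Agent.Helper34.SW
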