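import Mathlib
import Pool.Agent.Helper34.SW.W1

set_option autoImplicit false

/-! The integers `n` with all `n + s i` prime such that `n + t` is free of the primes of a set: an upper bound. -/

namespace Pool.Agent.Helper34.SW
open Finset Filter Topology
open Pool.Agent.H373R2.T7 (Vz Vz_pos pz mem_pz PerB nuB nuB_le)
open Pool.Agent.E8helper16.SL (LL LL_nonneg LL_nat Sep mid mem_mid FL fl_exists mert zN zN_tendsto lam_cost err_cond log_tendsto
  inv_ge_one zN_pow EE card_EE Rough LL_le_log Bad bad_PerB nuB_eq_A Aset pz_split pz_disj Vz_split fac_nonneg two_log_le_z)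

/-- the primes of `Q` which divide no `t - s i` -/
noncomputable def QS {f : ℕ} (s : Fin f → ℤ) (Q : Finset ℕ) (t : ℤ) : Finset ℕ := Q.filter (fun q => ∀ i, ¬ (q : ℤ) ∣ t - s i)

section gen
variable {f : ℕ} (s : Fin f → ℤ) (Q : Finset ℕ) (t : ℤ)

/-- the active forms -/
def acQ (l : ℕ) : Option (Fin f) → Prop := fun k => match k with
  | some _ => True
  | none => l ∈ QS s Q t

/-- the constants of the forms -/
def beQ : Option (Fin f) → ℤ := fun k => match k with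
  | some i => s i
  | none => t

lemma perQ : PerB (Bad (acQ s Q t) (fun _ => 1) (beQ s t)) (f + 1) := by
  apply bad_PerB
  · rw [Fintype.card_option, Fintype.card_fin]
  · rintro l hl k _ ⟨h1, _⟩
    have : l ∣ 1 := by exact_mod_cast h1
    exact hl.one_lt.ne' (Nat.dvd_one.1 this)

/-- the number of the classes -/
lemma nuQ {D l : ℕ} (hs : Sep s D) (hl : l.Prime) (hD : D < l) :
    nuB (Bad (acQ s Q t) (fun _ => 1) (beQ s t)) l = f + (if l ∈ QS s Q t then 1 else 0) := by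
  classical
  have hl1 : ¬ (l : ℤ) ∣ 1 := by
    intro h
    have : l ∣ 1 := by exact_mod_cast h
    exact hl.one_lt.ne' (Nat.dvd_one.1 this)
  rw [nuB_eq_A _ _ _ _ hl (fun k _ h => hl1 h.1)]
  · have e : Aset (acQ s Q t) (fun _ => (1 : ℤ)) l = (univ : Finset (Option (Fin f))).filter (fun k => acQ s Q t l k) := by
      unfold Aset
      apply filter_congr
      intro k _
      simp only [and_iff_left hl1]
    rw [e]
    split_ifs with h
    · have : (univ : Finset (Option (Fin f))).filter (fun k => acQ s Q t l k) = univ := by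
        apply filter_true_of_mem
        rintro (_ | i) _
        · exact h
        · trivial
      rw [this, card_univ, Fintype.card_option, Fintype.card_fin]
    · have : (univ : Finset (Option (Fin f))).filter (fun k => acQ s Q t l k) = (univ : Finset (Fin f)).image some := by
        ext k
        rw [mem_filter, mem_image]
        rcases k with _ | i
        · simp only [mem_univ, true_and]
          constructor
          · intro h2
            exact absurd h2 h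
          · rintro ⟨i, hi⟩
            exact absurd hi (by simp)
        · simp only [mem_univ, true_and]
          constructor
          · intro _
            exact ⟨i, rfl⟩
          · intro _
            trivial
      rw [this, card_image_of_injective _ (Option.some_injective _), card_univ, Fintype.card_fin, add_zero]
  · intro k hk k' hk' hkk
    unfold Aset at hk hk'
    rw [mem_filter] at hk hk'
    have key : ∀ i j : Fin f, i ≠ j → ¬ (l : ℤ) ∣ s j - s i := by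
      intro i j hij hd
      obtain ⟨h1, h2⟩ := hs j i hij.symm
      have h3 : s j - s i ≠ 0 := sub_ne_zero.2 h1
      have h4 := Int.le_of_dvd (abs_pos.2 h3) ((dvd_abs _ _).2 hd)
      have h5 : (D : ℤ) < l := by exact_mod_cast hD
      omega
    rcases k with _ | i <;> rcases k' with _ | j
    · exact absurd rfl hkk
    · have h1 : l ∈ QS s Q t := hk.2.1
      unfold QS at h1
      rw [mem_filter] at h1
      intro h2
      apply h1.2 j
      simp only [beQ, one_mul] at h2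
      have e : t - s j = -(s j - t) := by ring
      rw [e]
      exact (dvd_neg).2 h2
    · have h1 : l ∈ QS s Q t := hk'.2.1
      unfold QS at h1
      rw [mem_filter] at h1
      intro h2
      apply h1.2 i
      simp only [beQ, one_mul] at h2
      exact h2
    · intro h2
      simp only [beQ, one_mul] at h2
      exact key i j (fun h => hkk (by rw [h])) h2

lemma one_sub_le_pow {x : ℝ} (hx1 : x ≤ 1) (k : ℕ) : 1 - k * x ≤ (1 - x) ^ k := by
  have h := one_add_mul_le_pow (show (-2 : ℝ) ≤ -x by linarith) k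
  have e1 : (1 : ℝ) + k * (-x) = 1 - k * x := by ring
  have e2 : (1 : ℝ) + -x = 1 - x := by ring
  rwa [e1, e2] at h

/-- the product of the densities -/
lemma prodQ {D w z : ℕ} (hs : Sep s D) (hDw : D ≤ w) (hwz : w ≤ z) (hQ : ∀ q ∈ Q, w < q ∧ q ≤ z ∧ q.Prime) :
    ∏ p ∈ pz z, (1 - (nuB (Bad (acQ s Q t) (fun _ => 1) (beQ s t)) p : ℝ) / p) ≤
      (Vz z) ^ f * ((Vz w) ^ f)⁻¹ * ∏ q ∈ QS s Q t, (1 - 1 / (q : ℝ)) := by
  classical
  rw [pz_split w z hwz, prod_union (pz_disj w z)]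
  have h1 : ∏ p ∈ pz w, (1 - (nuB (Bad (acQ s Q t) (fun _ => 1) (beQ s t)) p : ℝ) / p) ≤ 1 := by
    apply prod_le_one
    · intro l hl
      exact fac_nonneg _ (mem_pz.1 hl).2
    · intro l _
      have : (0 : ℝ) ≤ (nuB (Bad (acQ s Q t) (fun _ => 1) (beQ s t)) l : ℝ) / l := by positivity
      linarith
  have h2 : ∏ p ∈ mid w z, (1 - (nuB (Bad (acQ s Q t) (fun _ => 1) (beQ s t)) p : ℝ) / p) ≤
      ∏ p ∈ mid w z, ((1 - 1 / (p : ℝ)) ^ f * (if p ∈ QS s Q t then 1 - 1 / (p : ℝ) else 1)) := by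
    apply Finset.prod_le_prod
    · intro l hl
      exact fac_nonneg _ (mem_mid.1 hl).2.2
    · intro l hl
      rw [mem_mid] at hl
      have hl0 : (0 : ℝ) < l := by exact_mod_cast hl.2.2.pos
      have hl1 : 1 / (l : ℝ) ≤ 1 := by
        rw [div_le_one hl0]
        exact_mod_cast hl.2.2.one_le
      rw [nuQ s Q t hs hl.2.2 (by omega)]
      split_ifs with h
      · have := one_sub_le_pow hl1 (f + 1)
        push_cast at this ⊢
        rw [← pow_succ]
        calc 1 - ((f : ℝ) + 1) / l = 1 - ((f : ℝ) + 1) * (1 / l) := by ring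
          _ ≤ _ := this
      · have := one_sub_le_pow hl1 f
        rw [mul_one, add_zero]
        calc 1 - (f : ℝ) / l = 1 - (f : ℝ) * (1 / l) := by ring
          _ ≤ _ := this
  have h3 : ∏ p ∈ mid w z, ((1 - 1 / (p : ℝ)) ^ f * (if p ∈ QS s Q t then 1 - 1 / (p : ℝ) else 1)) =
      (Vz z) ^ f * ((Vz w) ^ f)⁻¹ * ∏ q ∈ QS s Q t, (1 - 1 / (q : ℝ)) := by
    rw [prod_mul_distrib, prod_pow, ← prod_filter]
    have e1 : (mid w z).filter (fun p => p ∈ QS s Q t) = QS s Q t := by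
      ext p
      rw [mem_filter]
      constructor
      · exact fun h => h.2
      · intro h
        refine ⟨?_, h⟩
        unfold QS at h
        rw [mem_filter] at h
        rw [mem_mid]
        exact hQ p h.1
    rw [e1, Vz_split w z hwz, mul_pow, mul_comm (Vz w ^ f), mul_assoc _ (Vz w ^ f), mul_inv_cancel₀ (pow_pos (Vz_pos w) f).ne', mul_one]
  have h4 : 0 ≤ ∏ p ∈ mid w z, (1 - (nuB (Bad (acQ s Q t) (fun _ => 1) (beQ s t)) p : ℝ) / p) :=
    prod_nonneg fun l hl => fac_nonneg _ (mem_mid.1 hl).2.2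
  rw [← h3]
  exact (mul_le_of_le_one_left h4 h1).trans h2

end gen

theorem tfg (f : ℕ) (hf : 1 ≤ f) (D : ℕ) : ∃ C7 : ℝ, 1 ≤ C7 ∧ ∃ w : ℕ, 2 ≤ w ∧ ∀ δ : ℝ, 0 < δ → ∃ N₀ : ℕ, ∀ N : ℕ, N₀ ≤ N →
    ∀ Q : Finset ℕ, (∀ q ∈ Q, q.Prime ∧ w < q ∧ (q : ℝ) ≤ Real.log N ^ (f + 1)) →
    ∀ s : Fin f → ℤ, Sep s D → (∀ i, |s i| ≤ 2 * N) → ∀ X t : ℕ, X ≤ N →
      ∑ n ∈ Icc 1 X, LL s n * (if omq Q (n + t) = 0 then (1 : ℝ) else 0) ≤
        C7 * N * ∏ q ∈ QS s Q t, (1 - 1 / (q : ℝ)) + δ * N := by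
  classical
  obtain ⟨C0, hC01, hFLex⟩ := fl_exists f hf
  obtain ⟨C, hC1, hC⟩ := mert
  have h2b : Tendsto (fun b : ℕ => (2 : ℝ) ^ b) atTop atTop := tendsto_pow_atTop_atTop_of_one_lt (by norm_num)
  obtain ⟨b, hbC0, hb1, hb2⟩ := ((eventually_ge_atTop C0).and
    ((eventually_ge_atTop 1).and (h2b.eventually_ge_atTop (D + (f : ℝ) + 2)))).exists
  obtain ⟨x0, hx0⟩ := hFLex b hbC0
  obtain ⟨c0, hc0⟩ : ∃ c0, c0 = 16 * (C0 * b) := ⟨_, rfl⟩
  have hc01 : 1 ≤ c0 := by
    rw [hc0]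
    have : 1 ≤ C0 * b := Nat.mul_pos hC01 hb1
    omega
  have hff0 : (0 : ℝ) ≤ f := Nat.cast_nonneg _
  have hD0 : (0 : ℝ) ≤ D := Nat.cast_nonneg _
  have w1 : D ≤ 2 ^ b := by
    have : (D : ℝ) ≤ ((2 ^ b : ℕ) : ℝ) := by push_cast; linarith
    exact_mod_cast this
  have w2 : f + 1 ≤ 2 ^ b := by
    have : ((f + 1 : ℕ) : ℝ) ≤ ((2 ^ b : ℕ) : ℝ) := by push_cast; linarith
    exact_mod_cast this
  obtain ⟨V, hV⟩ : ∃ V, V = ((Vz (2 ^ b)) ^ f)⁻¹ := ⟨_, rfl⟩
  have hV1 : 1 ≤ V := by rw [hV]; exact inv_ge_one _ f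
  have hc0r : (0 : ℝ) ≤ c0 := Nat.cast_nonneg _
  refine ⟨(8 * c0 * C) ^ f * (2 * V) + 1, by
    have : (0 : ℝ) ≤ (8 * c0 * C) ^ f * (2 * V) := by positivity
    linarith, 2 ^ b, by omega, fun δ hδ => ?_⟩
  have hall := (((zN_tendsto c0 hc01).eventually_ge_atTop (x0 + 2 ^ b + 2)).and ((lam_cost c0 hc01 hC1 hC).and
    ((err_cond f b c0 0 hf hc01 hC1 hC).and ((log_tendsto.eventually_ge_atTop (1 + ((8 * c0 * C) ^ f + 1) / δ)).and
      ((two_log_le_z c0 hc01 (f + 1)).and (eventually_ge_atTop 3))))))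
  rw [eventually_atTop] at hall
  obtain ⟨N₀, hall⟩ := hall
  refine ⟨N₀, fun N hN Q hQ s hs hsN X t hX => ?_⟩
  obtain ⟨hz, h4, ⟨h5a, h5b, _⟩, hL1', h2z, hN3⟩ := hall N hN
  obtain ⟨z, hzd⟩ : ∃ z, z = zN c0 N := ⟨_, rfl⟩
  rw [← hzd] at hz h4 h5a h5b h2z
  obtain ⟨L, hL⟩ : ∃ L, L = Real.log N := ⟨_, rfl⟩
  rw [← hL] at h5a h5b hL1' h2z
  have hδi : 0 ≤ ((8 * c0 * C) ^ f + 1) / δ := by positivity
  have hL1 : 1 ≤ L := by linarith
  have hLL1 : L ≤ L ^ (f + 1) := le_self_pow₀ hL1 (by omega)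
  have hN3r : (3 : ℝ) ≤ N := by exact_mod_cast hN3
  have hN0 : (0 : ℝ) < N := by linarith
  have hLf0 : 0 < L ^ (f + 1) := by positivity
  have he0 : (0 : ℝ) < (1 / 2 : ℝ) ^ b := by positivity
  have he1 : (1 / 2 : ℝ) ^ b ≤ 1 := pow_le_one₀ (by norm_num) (by norm_num)
  have hkey : ((8 * c0 * C) ^ f + 1) * N ≤ (δ * N) * L ^ (f + 1) := by
    have : ((8 * c0 * C) ^ f + 1) / δ ≤ L ^ (f + 1) := by linarith
    rw [div_le_iff₀ hδ] at this
    nlinarith
  obtain ⟨G, hG⟩ : ∃ G : ℝ, G = (8 * c0 * C) ^ f := ⟨_, rfl⟩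
  have hG0 : 0 ≤ G := by rw [hG]; positivity
  rw [← hG] at hkey ⊢
  -- the errors
  obtain ⟨E, hE⟩ : ∃ E, E = Real.log (3 * N) ^ f * (f * (z * (Nat.log 2 (3 * N) + 1)) : ℕ) := ⟨_, rfl⟩
  rw [← hE] at h5b
  have hE0 : 0 ≤ E := by
    rw [hE]
    have : 0 ≤ Real.log (3 * N) := Real.log_nonneg (by linarith)
    positivity
  have hVz := (Vz_pos z).le
  obtain ⟨R, hR⟩ : ∃ R, R = ((Vz z) ^ (2 * f))⁻¹ * √((Nat.sqrt N : ℕ) : ℝ) := ⟨_, rfl⟩
  rw [← hR] at h5a
  have hR0 : 0 ≤ R := by rw [hR]; positivity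
  have hsqR : ((Vz z) ^ f)⁻¹ * √((Nat.sqrt N : ℕ) : ℝ) ≤ R := by
    rw [hR]
    apply mul_le_mul_of_nonneg_right _ (Real.sqrt_nonneg _)
    apply inv_anti₀ (pow_pos (Vz_pos z) _)
    apply pow_le_pow_of_le_one hVz _ (by omega)
    have := Pool.Agent.E8helper16.SL.Vz_anti (Nat.zero_le z)
    rw [Pool.Agent.E8helper16.SL.Vz_zero] at this
    exact this
  have hEGR : E + G * R ≤ δ * N := by
    have a1 : (E + G * R) * L ^ (f + 1) ≤ (δ * N) * L ^ (f + 1) := by
      have b1 : N * (1 / 2 : ℝ) ^ b ≤ N := mul_le_of_le_one_right hN0.le he1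
      have b2 : R * L ^ (f + 1) ≤ N := by
        have : 0 ≤ R * L ^ (f + 1) := by positivity
        nlinarith
      calc (E + G * R) * L ^ (f + 1) = E * L ^ (f + 1) + G * (R * L ^ (f + 1)) := by ring
        _ ≤ N + G * N := add_le_add (h5b.trans b1) (mul_le_mul_of_nonneg_left b2 hG0)
        _ = (G + 1) * N := by ring
        _ ≤ _ := hkey
    exact le_of_mul_le_mul_right a1 hLf0
  have hzx : z ^ c0 ≤ Nat.sqrt N := by
    rw [Nat.le_sqrt, ← pow_add, ← two_mul, hzd]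
    exact zN_pow c0 N hc01
  rw [hc0] at hzx
  have hFL : FL f b (Nat.sqrt N) z := hx0 (Nat.sqrt N) z (by omega) hzx
  have hwz : 2 ^ b ≤ z := by omega
  have hlog : 0 ≤ Real.log (3 * N) := Real.log_nonneg (by linarith)
  have hQz : ∀ q ∈ Q, 2 ^ b < q ∧ q ≤ z ∧ q.Prime := by
    intro q hq
    obtain ⟨q1, q2, q3⟩ := hQ q hq
    refine ⟨q2, ?_, q1⟩
    have : (q : ℝ) ≤ z := by
      rw [← hL] at q3
      linarith
    exact_mod_cast this
  -- the count
  have hper : PerB (Bad (acQ s Q t) (fun _ => 1) (beQ s t)) (2 * f) := by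
    have := perQ s Q t
    exact ⟨this.per, fun p hp => (this.few p hp).trans (by omega)⟩
  obtain ⟨W, hW⟩ : ∃ W, W = ∏ q ∈ QS s Q t, (1 - 1 / (q : ℝ)) := ⟨_, rfl⟩
  rw [← hW]
  have hW0 : 0 ≤ W := by
    rw [hW]
    apply prod_nonneg
    intro q hq
    unfold QS at hq
    rw [mem_filter] at hq
    have : (1 : ℝ) ≤ q := by exact_mod_cast (hQ q hq.1).1.one_le
    have : 1 / (q : ℝ) ≤ 1 := by rw [div_le_one (by linarith)]; exact this
    linarith
  have hcnt : ((((Icc 1 X).filter (fun n : ℕ => ∀ p ∈ pz z, ¬ Bad (acQ s Q t) (fun _ => 1) (beQ s t) p n)).card : ℕ) : ℝ) ≤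
      2 * (N * ((Vz z) ^ f * V * W)) + √((Nat.sqrt N : ℕ) : ℝ) := by
    have a1 := (abs_le.1 (hFL _ hper X)).2
    have a2 := prodQ s Q t hs w1 hwz hQz
    rw [← hV, ← hW] at a2
    obtain ⟨Pr, hPr⟩ : ∃ Pr, Pr = ∏ p ∈ pz z, (1 - (nuB (Bad (acQ s Q t) (fun _ => 1) (beQ s t)) p : ℝ) / p) := ⟨_, rfl⟩
    rw [← hPr] at a1 a2
    have hPr0 : 0 ≤ Pr := by
      rw [hPr]
      exact prod_nonneg fun l hl => fac_nonneg _ (mem_pz.1 hl).2
    have hXN : (X : ℝ) ≤ N := by exact_mod_cast hX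
    have a3 : (X : ℝ) * Pr ≤ N * ((Vz z) ^ f * V * W) := mul_le_mul hXN a2 hPr0 hN0.le
    have a4 : 0 ≤ (X : ℝ) * Pr := by positivity
    nlinarith
  have h7 : ∀ n ∈ Icc 1 X, LL s (n : ℤ) * (if omq Q (n + t) = 0 then (1 : ℝ) else 0) ≤
      Real.log (3 * N) ^ f * (if ∀ p ∈ pz z, ¬ Bad (acQ s Q t) (fun _ => 1) (beQ s t) p n then (1 : ℝ) else 0) +
      (if n ∈ EE s z N then Real.log (3 * N) ^ f else 0) := by
    intro n hn
    rw [mem_Icc] at hn
    have q3 := LL_le_log s (N := N) (by omega) hsN (n := n) (by omega)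
    have q0 := LL_nonneg s (n : ℤ)
    have q4 : 0 ≤ Real.log (3 * N) ^ f * (if ∀ p ∈ pz z, ¬ Bad (acQ s Q t) (fun _ => 1) (beQ s t) p n then (1 : ℝ) else 0) := by
      split_ifs <;> positivity
    have q5 : LL s (n : ℤ) * (if omq Q (n + t) = 0 then (1 : ℝ) else 0) ≤ LL s (n : ℤ) := by
      split_ifs <;> linarith
    split_ifs with a1 a2 a3 a3 a2 a3 a3
    all_goals try linarith
    -- the last case: `n` is not exceptional and not counted
    rw [mul_one, mul_zero, add_zero]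
    have hnE : n ∉ EE s z N := a3
    unfold EE at hnE
    rw [mem_filter] at hnE
    push Not at hnE
    have hne := hnE (mem_Icc.2 ⟨hn.1, by omega⟩)
    by_cases h0 : LL s (n : ℤ) = 0
    · rw [h0]
    · exfalso
      have hr := hne h0
      apply a2
      rintro p hp ⟨k, hk, hd⟩
      rcases k with _ | i
      · have h1 : p ∈ QS s Q t := hk
        unfold QS at h1
        rw [mem_filter] at h1
        unfold omq at a1
        rw [card_eq_zero, filter_eq_empty_iff] at a1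
        apply a1 h1.1
        simp only [beQ, one_mul] at hd
        exact_mod_cast hd
      · simp only [beQ, one_mul] at hd
        exact hr p hp i hd
  have h8 : ∑ n ∈ Icc 1 X, (if n ∈ EE s z N then Real.log (3 * N) ^ f else 0) ≤ E := by
    rw [← sum_filter, sum_const, nsmul_eq_mul, hE, mul_comm]
    apply mul_le_mul_of_nonneg_left _ (by positivity)
    have h4 : (Icc 1 X).filter (fun n => n ∈ EE s z N) ⊆ EE s z N := fun n hn => (mem_filter.1 hn).2
    exact_mod_cast (card_le_card h4).trans (card_EE s hsN z)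
  have h9 : Real.log (3 * N) ^ f * (Vz z) ^ f ≤ G := by
    rw [← mul_pow, hG]
    exact pow_le_pow_left₀ (by positivity) h4 f
  have h10 : Real.log (3 * N) ^ f ≤ G * ((Vz z) ^ f)⁻¹ := by
    rw [← div_eq_mul_inv, le_div_iff₀ (pow_pos (Vz_pos z) f)]
    exact h9
  have hlogf : 0 ≤ Real.log (3 * N) ^ f := by positivity
  calc _ ≤ _ := sum_le_sum h7
    _ = Real.log (3 * N) ^ f * ((((Icc 1 X).filter (fun n : ℕ => ∀ p ∈ pz z, ¬ Bad (acQ s Q t) (fun _ => 1) (beQ s t) p n)).card : ℕ) : ℝ) +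
        ∑ n ∈ Icc 1 X, (if n ∈ EE s z N then Real.log (3 * N) ^ f else 0) := by
          rw [sum_add_distrib, ← mul_sum, sum_boole]
    _ ≤ Real.log (3 * N) ^ f * (2 * (N * ((Vz z) ^ f * V * W)) + √((Nat.sqrt N : ℕ) : ℝ)) + E :=
        add_le_add (mul_le_mul_of_nonneg_left hcnt hlogf) h8
    _ = (Real.log (3 * N) ^ f * (Vz z) ^ f) * (2 * V * W * N) + Real.log (3 * N) ^ f * √((Nat.sqrt N : ℕ) : ℝ) + E := by ring
    _ ≤ G * (2 * V * W * N) + (G * ((Vz z) ^ f)⁻¹) * √((Nat.sqrt N : ℕ) : ℝ) + E := by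
        gcongr
    _ = G * (2 * V * W * N) + G * (((Vz z) ^ f)⁻¹ * √((Nat.sqrt N : ℕ) : ℝ)) + E := by ring
    _ ≤ G * (2 * V * W * N) + G * R + E := by gcongr
    _ ≤ G * (2 * V * W * N) + δ * N := by linarith
    _ ≤ (G * (2 * V) + 1) * N * W + δ * N := by
        have : 0 ≤ N * W := by positivity
        nlinarith

end Pool.Agent.Helper34.SW
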