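import Mathlib
import Pool.Agent.Helper34.SW.V5

set_option autoImplicit false

/-! The sums over all the blocks. -/

namespace Pool.Agent.Helper34.SW
open Finset Filter Topology
open Pool.Agent.H373R2.T7 (Vz Vz_pos pz mem_pz)
open Pool.Agent.E8helper16.SL (LL LL_nonneg LL_sum Sep mid mem_mid RP RP_nonneg blocks_sum loglog_pow_le log_tendsto sum_ind cnt_dvd)

lemma Gv_norm2 (v : ℕ → ℝ) (hv : ∀ n, |v n| ≤ 1) (c : ℕ → ℂ) (hc : ∀ h, ‖c h‖ ≤ 1) {p q H : ℕ} (hp : p.Prime) (hq : 1 ≤ q)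
    (hqp : q ≤ p) (hqH : q ≤ H) (n : ℕ) : ‖Gv v c H p n‖ ≤ 2 * ((H : ℝ) / q) := by
  classical
  rw [Gv_eq v c hp]
  have hq0 : (0 : ℝ) < q := by exact_mod_cast hq
  have hqp' : (q : ℝ) ≤ p := by exact_mod_cast hqp
  have hqH' : (q : ℝ) ≤ H := by exact_mod_cast hqH
  have h1 : ‖∑ h ∈ Icc 1 H, c h * ((if p ∣ n + h then v ((n + h) / p) else 0 : ℝ) : ℂ)‖ ≤
      ∑ h ∈ Icc 1 H, (if p ∣ n + h then (1 : ℝ) else 0) := by
    refine (norm_sum_le _ _).trans (sum_le_sum fun h _ => ?_)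
    split_ifs
    · rw [norm_mul, Complex.norm_real]
      exact mul_le_one₀ (hc h) (norm_nonneg _) (hv _)
    · rw [Complex.ofReal_zero, mul_zero, norm_zero]
  rw [sum_ind] at h1
  have h2 := (abs_le.1 (cnt_dvd p n H hp.one_le)).2
  have h3 : (H : ℝ) / p ≤ H / q := div_le_div_of_nonneg_left (Nat.cast_nonneg _) hq0 hqp'
  have h4 : 1 ≤ (H : ℝ) / q := by rw [one_le_div hq0]; exact hqH'
  linarith

theorem blocks (f : ℕ) (hf : 1 ≤ f) (D : ℕ) (K : ℝ) (hK : 0 ≤ K) (e1 : ℝ) (he1 : 0 < e1) (ε : ℝ) (hε : 0 < ε) :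
    ∃ I₀ N₀ : ℕ, ∀ N : ℕ, N₀ ≤ N → ∀ H i0 i1 : ℕ, I₀ ≤ i0 → (H : ℝ) ≤ Real.log N ^ (f + 1) →
      Real.log N ^ ((f : ℝ) + e1) ≤ 2 ^ i0 * H → 2 ^ i1 * Real.log N ^ e1 ≤ H → RP (mid (2 ^ i0) (2 ^ i1)) ≤ K →
      ∀ s : Fin f → ℤ, Sep s D → (∀ i, |s i| ≤ 2 * N) → ∀ c : ℕ → ℂ, (∀ h, ‖c h‖ ≤ 1) →
      ∑ p ∈ mid (2 ^ i0) (2 ^ i1), ∑ n ∈ Icc 1 N, LL s n * ‖Gv (vq (mid (2 ^ i0) (2 ^ i1))) c H p n‖ ≤ ε * (H * N) := by
  classical
  obtain ⟨C6, hC6, hsum⟩ := LL_sum f hf D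
  obtain ⟨N₁, hsum⟩ := hsum 1 one_pos
  obtain ⟨A, hA1, N₂, J₀, hblock⟩ := block (VF K) (VF_abs K) (mrt_v K) f hf D (ε / (4 * K + 4)) (by positivity)
  obtain ⟨I₂, hI₂⟩ := exists_nat_ge (4 * C6 / ε + 3)
  have t1 : Tendsto (fun N : ℕ => Real.log N ^ e1) atTop atTop := (tendsto_rpow_atTop he1).comp log_tendsto
  obtain ⟨N₃, hN₃⟩ := eventually_atTop.1 ((t1.eventually_ge_atTop ((J₀ : ℝ) + 1)).and ((log_tendsto.eventually_ge_atTop 3).and
    (loglog_pow_le (A * (2 * (f + 1)) ^ 2) 2 e1 he1)))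
  refine ⟨I₂ + 2, N₁ + N₂ + N₃ + 3, fun N hN H i0 i1 hi0 hH2 hP1 hP2 hRP s hs hsN c hc => ?_⟩
  obtain ⟨hJx, hx3, hAx⟩ := hN₃ N (by omega)
  obtain ⟨x, hx⟩ : ∃ x, x = Real.log N := ⟨_, rfl⟩
  rw [← hx] at hH2 hP1 hP2 hJx hx3 hAx
  have hx0 : 0 < x := by linarith
  have hx1 : 1 ≤ x := by linarith
  have hxe0 : 0 < x ^ e1 := by positivity
  have hxe1 : 1 ≤ x ^ e1 := Real.one_le_rpow hx1 he1.le
  have hN0 : (0 : ℝ) < N := by exact_mod_cast (by omega : 0 < N)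
  obtain ⟨P, hPd⟩ : ∃ P, P = mid (2 ^ i0) (2 ^ i1) := ⟨_, rfl⟩
  rw [← hPd] at hRP ⊢
  have hPp : ∀ p ∈ P, p.Prime := fun p hp => by
    rw [hPd, mem_mid] at hp
    exact hp.2.2
  have hPlog : ∀ p ∈ P, i0 ≤ Nat.log 2 p ∧ Nat.log 2 p ≤ i1 := by
    intro p hp
    rw [hPd, mem_mid] at hp
    constructor
    · exact Nat.le_log_of_pow_le (by norm_num) hp.1.le
    · have := Nat.log_mono_right (b := 2) hp.2.1
      rwa [Nat.log_pow (by norm_num)] at this
  have hH0 : (0 : ℝ) < H := by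
    have : (0 : ℝ) < 2 ^ i1 * x ^ e1 := by positivity
    linarith
  have hLLN : ∑ n ∈ Icc 1 N, LL s n ≤ C6 * N := hsum N (by omega) N (by rw [one_mul]) le_rfl s hs hsN
  have hv : VF K (vq P) := ⟨P, hPp, hRP, rfl⟩
  have hva : ∀ n, |vq P n| ≤ 1 := VF_abs K _ hv
  have hJ0r : (0 : ℝ) ≤ J₀ := Nat.cast_nonneg _
  have hε' : 0 < ε / (4 * K + 4) := by positivity
  have hbl : ∀ i ∈ Icc i0 i1, ∑ p ∈ P with Nat.log 2 p = i, ∑ n ∈ Icc 1 N, LL s n * ‖Gv (vq P) c H p n‖ ≤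
      (ε / (4 * K + 4) * (H * N)) * (((P.filter (fun p => Nat.log 2 p = i)).card : ℝ) / 2 ^ i) + (2 * C6 * (H * N)) / (i : ℝ) ^ 2 := by
    intro i hi
    rw [mem_Icc] at hi
    obtain ⟨Q, hQ⟩ : ∃ Q, Q = P.filter (fun p => Nat.log 2 p = i) := ⟨_, rfl⟩
    rw [← hQ]
    have hi0r : (0 : ℝ) < i := by exact_mod_cast (by omega : 0 < i)
    have h2i : (2 : ℝ) ^ i * x ^ e1 ≤ H := by
      refine le_trans ?_ hP2
      apply mul_le_mul_of_nonneg_right _ hxe0.le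
      exact pow_le_pow_right₀ (by norm_num) hi.2
    have h2iH : ((2 ^ i : ℕ) : ℝ) ≤ H := by
      push_cast
      refine le_trans ?_ h2i
      exact le_mul_of_one_le_right (by positivity) hxe1
    have h2iHn : 2 ^ i ≤ H := by exact_mod_cast h2iH
    have hQp : ∀ p ∈ Q, p.Prime ∧ 2 ^ i ≤ p ∧ p ≤ 2 * 2 ^ i := by
      intro p hp
      rw [hQ, mem_filter] at hp
      refine ⟨hPp p hp.1, ?_, ?_⟩
      · rw [← hp.2]
        exact Nat.pow_log_le_self 2 (hPp p hp.1).ne_zero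
      · rw [← pow_succ', ← hp.2]
        exact (Nat.lt_pow_succ_log_self (by norm_num) p).le
    have hc0 : (0 : ℝ) ≤ Q.card := Nat.cast_nonneg _
    by_cases hrich : (2 : ℝ) ^ i ≤ Q.card * (i : ℝ) ^ 2
    · -- a rich block
      have hJ1 : H < 2 ^ i * (H / 2 ^ i + 1) := Nat.lt_mul_div_succ _ (by positivity)
      have hJ2 : 2 ^ i * (H / 2 ^ i + 1) ≤ 2 * H := by
        have := Nat.mul_div_le H (2 ^ i)
        rw [mul_add, mul_one]
        omega
      have hJ0 : J₀ ≤ H / 2 ^ i + 1 := by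
        have g1 : (J₀ : ℝ) * 2 ^ i ≤ H := by
          calc (J₀ : ℝ) * 2 ^ i ≤ x ^ e1 * 2 ^ i := by
                apply mul_le_mul_of_nonneg_right _ (by positivity)
                linarith
            _ = 2 ^ i * x ^ e1 := mul_comm _ _
            _ ≤ H := h2i
        have g2 : J₀ * 2 ^ i ≤ H := by exact_mod_cast g1
        have g3 : J₀ ≤ H / 2 ^ i := (Nat.le_div_iff_mul_le (by positivity)).2 g2
        omega
      have hAx2 : A * x ^ f ≤ Q.card * H := by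
        -- `i` is small
        have g1 : (i : ℝ) ≤ 2 * (f + 1) * Real.log x := by
          have a1 : (2 : ℝ) ^ i ≤ x ^ (f + 1) := by
            push_cast at h2iH
            exact h2iH.trans hH2
          have a2 := Real.log_le_log (by positivity) a1
          rw [Real.log_pow, Real.log_pow] at a2
          have a3 : (1 : ℝ) / 2 ≤ Real.log 2 := by
            have := Real.log_two_gt_d9
            linarith
          push_cast at a2
          nlinarith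
        have g2 : A * (i : ℝ) ^ 2 ≤ x ^ e1 := by
          refine le_trans ?_ hAx
          have : (i : ℝ) ^ 2 ≤ (2 * (f + 1) * Real.log x) ^ 2 := pow_le_pow_left₀ hi0r.le g1 2
          calc A * (i : ℝ) ^ 2 ≤ A * (2 * (f + 1) * Real.log x) ^ 2 := mul_le_mul_of_nonneg_left this (by linarith)
            _ = _ := by ring
        have g3 : x ^ ((f : ℝ) + e1) ≤ 2 ^ i * H := by
          refine hP1.trans ?_
          apply mul_le_mul_of_nonneg_right _ hH0.le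
          exact pow_le_pow_right₀ (by norm_num) hi.1
        rw [Real.rpow_add hx0, Real.rpow_natCast] at g3
        have hi2 : (0 : ℝ) < (i : ℝ) ^ 2 := by positivity
        have g4 : A * x ^ f * (i : ℝ) ^ 2 ≤ (Q.card * H) * (i : ℝ) ^ 2 := by
          calc A * x ^ f * (i : ℝ) ^ 2 = x ^ f * (A * (i : ℝ) ^ 2) := by ring
            _ ≤ x ^ f * x ^ e1 := mul_le_mul_of_nonneg_left g2 (by positivity)
            _ ≤ 2 ^ i * H := g3
            _ ≤ (Q.card * (i : ℝ) ^ 2) * H := mul_le_mul_of_nonneg_right hrich hH0.le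
            _ = _ := by ring
        exact le_of_mul_le_mul_right g4 hi2
      have key := hblock (vq P) hv N (by omega) H (2 ^ i) (H / 2 ^ i + 1) Q (Nat.one_le_two_pow) h2iHn (by rw [← hx]; exact hH2) hQp hJ1.le hJ2 hJ0
        (by rw [← hx]; exact hAx2) s hs hsN c hc
      refine key.trans ?_
      have e1 : ε / (4 * K + 4) * (Q.card * ((H : ℝ) / ((2 ^ i : ℕ) : ℝ) * N)) = ε / (4 * K + 4) * (H * N) * (Q.card / 2 ^ i) := by
        push_cast
        ring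
      rw [e1]
      have : (0 : ℝ) ≤ 2 * C6 * (H * N) / (i : ℝ) ^ 2 := by positivity
      linarith
    · -- a poor block
      push Not at hrich
      have h1 : ∀ p ∈ Q, ∑ n ∈ Icc 1 N, LL s n * ‖Gv (vq P) c H p n‖ ≤ (2 * ((H : ℝ) / 2 ^ i)) * (C6 * N) := by
        intro p hp
        obtain ⟨a1, a2, a3⟩ := hQp p hp
        have h2 : ∀ n ∈ Icc 1 N, LL s (n : ℤ) * ‖Gv (vq P) c H p n‖ ≤ (2 * ((H : ℝ) / 2 ^ i)) * LL s n := by
          intro n _
          rw [mul_comm]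
          apply mul_le_mul_of_nonneg_right _ (LL_nonneg s _)
          have := Gv_norm2 (vq P) hva c hc a1 (Nat.one_le_two_pow (n := i)) a2 h2iHn n
          push_cast at this
          exact this
        refine (sum_le_sum h2).trans ?_
        rw [← mul_sum]
        exact mul_le_mul_of_nonneg_left hLLN (by positivity)
      refine (sum_le_sum h1).trans ?_
      rw [sum_const, nsmul_eq_mul]
      have h3 : (Q.card : ℝ) * (2 * ((H : ℝ) / 2 ^ i) * (C6 * N)) ≤ 2 * C6 * (H * N) / (i : ℝ) ^ 2 := by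
        rw [le_div_iff₀ (by positivity)]
        have e1 : (Q.card : ℝ) * (2 * ((H : ℝ) / 2 ^ i) * (C6 * N)) * (i : ℝ) ^ 2 = (2 * C6 * (H * N)) * ((Q.card * (i : ℝ) ^ 2) / 2 ^ i) := by
          ring
        rw [e1]
        apply mul_le_of_le_one_right (by positivity)
        rw [div_le_one (by positivity)]
        exact hrich.le
      have : (0 : ℝ) ≤ ε / (4 * K + 4) * (H * N) * (Q.card / 2 ^ i) := by positivity
      linarith
  have hall := blocks_sum P i0 i1 (by omega) (fun p hp => ⟨hPp p hp, hPlog p hp⟩) (fun p => ∑ n ∈ Icc 1 N, LL s n * ‖Gv (vq P) c H p n‖)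
    (ε / (4 * K + 4) * (H * N)) (2 * C6 * (H * N)) (by positivity) (by positivity) hbl
  refine hall.trans ?_
  have hHN : (0 : ℝ) < H * N := by positivity
  have g1 : ε / (4 * K + 4) * (H * N) * (2 * RP P) ≤ ε / 2 * (H * N) := by
    have a1 : ε / (4 * K + 4) * (2 * RP P) ≤ ε / 2 := by
      rw [div_mul_eq_mul_div, div_le_div_iff₀ (by positivity) (by norm_num)]
      nlinarith
    calc _ = (ε / (4 * K + 4) * (2 * RP P)) * (H * N) := by ring
      _ ≤ _ := mul_le_mul_of_nonneg_right a1 hHN.le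
  have g2 : 2 * C6 * (H * N) / ((i0 : ℝ) - 1) ≤ ε / 2 * (H * N) := by
    have hI2 : (I₂ : ℝ) + 2 ≤ i0 := by exact_mod_cast hi0
    have hpos : (0 : ℝ) < (i0 : ℝ) - 1 := by
      have : 0 ≤ 4 * C6 / ε := by positivity
      linarith
    rw [div_le_iff₀ hpos]
    have g3 : 4 * C6 ≤ ε * ((i0 : ℝ) - 1) := by
      have : 4 * C6 / ε ≤ (i0 : ℝ) - 1 := by linarith
      rw [div_le_iff₀ hε] at this
      linarith
    calc 2 * C6 * (H * N) = (1 / 2) * (4 * C6) * (H * N) := by ring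
      _ ≤ (1 / 2) * (ε * ((i0 : ℝ) - 1)) * (H * N) := by gcongr
      _ = _ := by ring
  linarith

end Pool.Agent.Helper34.SW
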