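import Mathlib
import Pool.Agent.Helper34.SW.W2

set_option autoImplicit false

/-! The primes dividing the differences are rare on average over the window. -/

namespace Pool.Agent.Helper34.SW
open Finset Filter Topology
open Pool.Agent.E8helper16.SL (LL LL_nonneg LL_nat Sep sep_of cnt_sq sum_inv_sq)

/-- the upper bound for the free part, with the constant `C` -/
def TFree (f D : ℕ) (C : ℝ) (w : ℕ) : Prop := ∀ K δ : ℝ, 0 < δ → ∃ N₀ : ℕ, ∀ N : ℕ, N₀ ≤ N →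
    ∀ Q : Finset ℕ, (∀ q ∈ Q, q.Prime ∧ w < q ∧ (q : ℝ) ≤ Real.log N ^ (f + 1)) → ∑ q ∈ Q, 1 / (q : ℝ) ≤ K →
    ∀ a : Fin f → ℕ, Function.Injective a → (∀ i, a i ≤ N) → (∀ i l, a i ≤ a l + D) → ∀ X t : ℕ, X ≤ N →
      ∑ n ∈ Icc 1 X, (∏ i, ArithmeticFunction.vonMangoldt (n + a i)) * (if omq Q (n + t) = 0 then (1 : ℝ) else 0) ≤
        C * N * ∏ q ∈ QS (fun i => (a i : ℤ)) Q t, (1 - 1 / (q : ℝ)) + δ * N

lemma prod_QS_nonneg {f : ℕ} (s : Fin f → ℤ) (Q : Finset ℕ) (t : ℤ) (hQ : ∀ q ∈ Q, q.Prime) :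
    0 ≤ ∏ q ∈ QS s Q t, (1 - 1 / (q : ℝ)) := by
  apply prod_nonneg
  intro q hq
  unfold QS at hq
  rw [mem_filter] at hq
  have : (1 : ℝ) ≤ q := by exact_mod_cast (hQ q hq.1).one_le
  have : 1 / (q : ℝ) ≤ 1 := by rw [div_le_one (by linarith)]; exact this
  linarith

theorem tfree_one (D : ℕ) : TFree 1 D 1 2 := by
  classical
  intro K δ hδ
  obtain ⟨N₀, hN₀⟩ := tf1 (max K 0) (le_max_right _ _) δ hδ
  refine ⟨N₀, fun N hN Q hQ hK a ha haN haD X t hX => ?_⟩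
  have h1 := hN₀ N hN Q hQ (hK.trans (le_max_left _ _)) (a 0) X t (haN 0) hX
  have e1 : ∀ n : ℕ, ∏ i : Fin 1, ArithmeticFunction.vonMangoldt (n + a i) = ArithmeticFunction.vonMangoldt (n + a 0) := by
    intro n
    simp
  simp only [e1]
  refine h1.trans (add_le_add ?_ le_rfl)
  have e2 : QT Q (a 0) t = QS (fun i => (a i : ℤ)) Q t := by
    unfold QT QS
    apply filter_congr
    intro q _
    constructor
    · intro h i
      rw [Subsingleton.elim i 0]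
      exact h
    · intro h
      exact h 0
  rw [e2, one_mul]
  apply mul_le_mul_of_nonneg_right _ (prod_QS_nonneg _ _ _ (fun q hq => (hQ q hq).1))
  exact_mod_cast hX

theorem tfree_gen (f : ℕ) (hf : 1 ≤ f) (D : ℕ) : ∃ C7 : ℝ, 1 ≤ C7 ∧ ∃ w : ℕ, TFree f D C7 w := by
  obtain ⟨C7, hC7, w, _, h0⟩ := tfg f hf D
  refine ⟨C7, hC7, w, fun K δ hδ => ?_⟩
  obtain ⟨N₀, hN₀⟩ := h0 δ hδ
  refine ⟨N₀, fun N hN Q hQ _ a ha haN haD X t hX => ?_⟩
  have h1 := hN₀ N hN Q hQ (fun i => (a i : ℤ)) (by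
    have := sep_of ha haD 0
    simpa using this) (by
    intro i
    have := haN i
    rw [abs_of_nonneg (by positivity)]
    have h2 : a i ≤ 2 * N := by omega
    exact_mod_cast h2) X t hX
  refine le_trans (le_of_eq ?_) h1
  apply sum_congr rfl
  intro n _
  have := LL_nat a 0 n
  simp only [Nat.cast_zero, sub_zero, add_zero] at this
  rw [this]

/-- the primes of `Q` which divide some `t - s i` -/
noncomputable def QB {f : ℕ} (s : Fin f → ℤ) (Q : Finset ℕ) (t : ℤ) : Finset ℕ := Q.filter (fun q => ¬ ∀ i, ¬ (q : ℤ) ∣ t - s i)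

lemma prod_QS {f : ℕ} (s : Fin f → ℤ) (Q : Finset ℕ) (t : ℤ) (hQ : ∀ q ∈ Q, q.Prime) (η : ℝ)
    (h : ∑ q ∈ QB s Q t, 1 / (q : ℝ) ≤ η) :
    ∏ q ∈ QS s Q t, (1 - 1 / (q : ℝ)) ≤ Real.exp (2 * η) * ∏ q ∈ Q, (1 - 1 / (q : ℝ)) := by
  have h0 := prod_QS_nonneg s Q t hQ
  have h1 : ∏ q ∈ Q, (1 - 1 / (q : ℝ)) = (∏ q ∈ QS s Q t, (1 - 1 / (q : ℝ))) * ∏ q ∈ QB s Q t, (1 - 1 / (q : ℝ)) := by
    unfold QS QB
    exact (prod_filter_mul_prod_filter_not _ _ _).symm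
  have h2 : Real.exp (-(2 * η)) ≤ ∏ q ∈ QB s Q t, (1 - 1 / (q : ℝ)) := by
    have h3 : Real.exp (-(2 * η)) ≤ Real.exp (∑ q ∈ QB s Q t, -(2 * (1 / (q : ℝ)))) := by
      apply Real.exp_le_exp.2
      rw [sum_neg_distrib, ← mul_sum]
      linarith
    refine h3.trans ?_
    rw [Real.exp_sum]
    apply Finset.prod_le_prod
    · intro q _
      exact (Real.exp_pos _).le
    · intro q hq
      unfold QB at hq
      rw [mem_filter] at hq
      have hq2 : (2 : ℝ) ≤ q := by exact_mod_cast (hQ q hq.1).two_le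
      obtain ⟨x, hx⟩ : ∃ x, x = 1 / (q : ℝ) := ⟨_, rfl⟩
      have hx0 : 0 < x := by rw [hx]; positivity
      have hx1 : x ≤ 1 / 2 := by rw [hx]; exact one_div_le_one_div_of_le (by norm_num) hq2
      rw [← hx, Real.exp_neg]
      have h4 := Real.add_one_le_exp (2 * x)
      rw [inv_le_comm₀ (Real.exp_pos _) (by linarith)]
      refine le_trans ?_ h4
      rw [inv_le_iff_one_le_mul₀ (by linarith)]
      nlinarith
  rw [h1]
  have h3 : 1 ≤ Real.exp (2 * η) * ∏ q ∈ QB s Q t, (1 - 1 / (q : ℝ)) := by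
    have := mul_le_mul_of_nonneg_left h2 (Real.exp_pos (2 * η)).le
    rwa [← Real.exp_add, add_neg_cancel, Real.exp_zero] at this
  calc ∏ q ∈ QS s Q t, (1 - 1 / (q : ℝ)) = (∏ q ∈ QS s Q t, (1 - 1 / (q : ℝ))) * 1 := (mul_one _).symm
    _ ≤ (∏ q ∈ QS s Q t, (1 - 1 / (q : ℝ))) * (Real.exp (2 * η) * ∏ q ∈ QB s Q t, (1 - 1 / (q : ℝ))) :=
        mul_le_mul_of_nonneg_left h3 h0
    _ = _ := by ring

open Classical in
lemma card_QB {f : ℕ} (s : Fin f → ℤ) (Q : Finset ℕ) (hQ : ∀ q ∈ Q, q.Prime) {w : ℕ} (hw : 1 ≤ w) (hwQ : ∀ q ∈ Q, w < q)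
    (K : ℝ) (hK : ∑ q ∈ Q, 1 / (q : ℝ) ≤ K) (B H : ℕ) (η : ℝ) :
    (((Icc 1 H).filter (fun h : ℕ => η < ∑ q ∈ QB s Q ((B + h : ℕ) : ℤ), 1 / (q : ℝ))).card : ℝ) * η ≤ f * (H / w + K) := by
  obtain ⟨E, hE⟩ : ∃ E, E = (Icc 1 H).filter (fun h : ℕ => η < ∑ q ∈ QB s Q ((B + h : ℕ) : ℤ), 1 / (q : ℝ)) := ⟨_, rfl⟩
  rw [← hE]
  have h1 : (E.card : ℝ) * η ≤ ∑ h ∈ E, ∑ q ∈ QB s Q ((B + h : ℕ) : ℤ), 1 / (q : ℝ) := by
    rw [← nsmul_eq_mul, ← sum_const]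
    apply sum_le_sum
    intro h hh
    rw [hE, mem_filter] at hh
    exact hh.2.le
  have h2 : ∑ h ∈ E, ∑ q ∈ QB s Q ((B + h : ℕ) : ℤ), 1 / (q : ℝ) ≤ ∑ h ∈ Icc 1 H, ∑ q ∈ QB s Q ((B + h : ℕ) : ℤ), 1 / (q : ℝ) := by
    apply sum_le_sum_of_subset_of_nonneg
    · rw [hE]; exact filter_subset _ _
    · intro h _ _
      exact sum_nonneg fun q _ => by positivity
  have h3 : ∀ h ∈ Icc 1 H, ∑ q ∈ QB s Q ((B + h : ℕ) : ℤ), 1 / (q : ℝ) ≤
      ∑ i : Fin f, ∑ q ∈ Q, (if (q : ℤ) ∣ 1 * (h : ℤ) + (B - s i) then 1 / (q : ℝ) else 0) := by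
    intro h _
    unfold QB
    rw [sum_filter, sum_comm]
    apply sum_le_sum
    intro q _
    have hnn : ∀ i : Fin f, 0 ≤ (if (q : ℤ) ∣ 1 * (h : ℤ) + (B - s i) then 1 / (q : ℝ) else 0) := by
      intro i
      split_ifs <;> positivity
    by_cases h4 : ¬ ∀ i, ¬ (q : ℤ) ∣ ((B + h : ℕ) : ℤ) - s i
    · rw [if_pos h4]
      push Not at h4
      obtain ⟨i, hi⟩ := h4
      have h5 := single_le_sum (f := fun i => if (q : ℤ) ∣ 1 * (h : ℤ) + (B - s i) then 1 / (q : ℝ) else 0)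
        (s := (univ : Finset (Fin f))) (fun i _ => hnn i) (mem_univ i)
      have e : ((B + h : ℕ) : ℤ) - s i = 1 * (h : ℤ) + (B - s i) := by push_cast; ring
      rw [e] at hi
      simp only [if_pos hi] at h5
      exact h5
    · rw [if_neg h4]
      exact sum_nonneg fun i _ => hnn i
  refine h1.trans (h2.trans ((sum_le_sum h3).trans ?_))
  rw [sum_comm]
  have h4 : ∀ i ∈ (univ : Finset (Fin f)), ∑ h ∈ Icc 1 H, ∑ q ∈ Q, (if (q : ℤ) ∣ 1 * (h : ℤ) + (B - s i) then 1 / (q : ℝ) else 0) ≤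
      H / w + K := by
    intro i _
    rw [sum_comm]
    have h5 : ∀ q ∈ Q, ∑ h ∈ Icc 1 H, (if (q : ℤ) ∣ 1 * (h : ℤ) + (B - s i) then 1 / (q : ℝ) else 0) ≤
        H * (1 / (q : ℝ) ^ 2) + 1 / q := by
      intro q hq
      have hqp := hQ q hq
      have hq0 : (0 : ℝ) < q := by exact_mod_cast hqp.pos
      rw [← sum_filter, sum_const, nsmul_eq_mul]
      have h6 := cnt_sq {q} (by simpa using hqp) 1 (B - s i) (by
        intro l hl h
        rw [mem_singleton] at hl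
        rw [hl] at h
        have : q ∣ 1 := by exact_mod_cast h
        exact hqp.one_lt.ne' (Nat.dvd_one.1 this)) H
      simp only [mem_singleton, forall_eq, prod_singleton] at h6
      calc _ ≤ (H / (q : ℝ) + 1) * (1 / q) := mul_le_mul_of_nonneg_right h6 (by positivity)
        _ = _ := by
          field_simp
    refine (sum_le_sum h5).trans ?_
    rw [sum_add_distrib, ← mul_sum]
    apply add_le_add _ hK
    have h6 := mul_le_mul_of_nonneg_left (sum_inv_sq hw hwQ) (Nat.cast_nonneg H : (0 : ℝ) ≤ H)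
    rw [mul_one_div] at h6
    exact h6
  refine (sum_le_sum h4).trans (le_of_eq ?_)
  rw [sum_const, card_univ, Fintype.card_fin, nsmul_eq_mul]

end Pool.Agent.Helper34.SW
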