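import Mathlib
import Pool.Agent.Helper34.SW.W3

set_option autoImplicit false

/-! The parameters. -/

namespace Pool.Agent.Helper34.SW
open Finset Filter Topology
open Pool.Agent.H373R2.T7 (Vz Vz_pos pz mem_pz)
open Pool.Agent.E8helper16.SL (mid mem_mid RP mert Vz_inv_eq Vz_split log_tendsto)

/-- the third theorem of Mertens for quotients -/
lemma vz_ratio (δ : ℝ) (hδ : 0 < δ) : ∃ z₀ : ℕ, ∀ X Y : ℕ, z₀ ≤ X → X ≤ Y →
    ∏ q ∈ mid X Y, (1 - 1 / (q : ℝ)) ≤ (1 + δ) ^ 2 * (Real.log X / Real.log Y) := by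
  have h := Pool.Agent.H305R2.mertens_three
  obtain ⟨g, hg⟩ : ∃ g, g = Real.exp Real.eulerMascheroniConstant := ⟨_, rfl⟩
  rw [← hg] at h
  have hg0 : 0 < g := by rw [hg]; exact Real.exp_pos _
  have hl : g / (1 + δ) < g := div_lt_self hg0 (by linarith)
  have hu : g < g * (1 + δ) := by nlinarith
  have h1 := h.eventually (Ioo_mem_nhds hl hu)
  rw [eventually_atTop] at h1
  obtain ⟨z₀, h0⟩ := h1
  refine ⟨z₀ + 2, fun X Y hX hXY => ?_⟩
  have hX2 : (2 : ℝ) ≤ X := by exact_mod_cast (by omega : 2 ≤ X)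
  have hY2 : (2 : ℝ) ≤ Y := hX2.trans (by exact_mod_cast hXY)
  have hlX : 0 < Real.log X := Real.log_pos (by linarith)
  have hlY : 0 < Real.log Y := Real.log_pos (by linarith)
  have hVX := Vz_pos X
  have hVY := Vz_pos Y
  have hprod : ∏ l ∈ mid X Y, (1 - 1 / (l : ℝ)) = (Vz X)⁻¹ / (Vz Y)⁻¹ := by
    rw [Vz_split X Y hXY]
    field_simp
  rw [hprod]
  have a1 := (h0 X (by omega)).2
  have a2 := (h0 Y (by omega)).1
  rw [Vz_inv_eq, div_lt_iff₀ hlX] at a1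
  rw [Vz_inv_eq, lt_div_iff₀ hlY] at a2
  rw [div_le_iff₀ (inv_pos.2 hVY)]
  have a3 : 0 < g / (1 + δ) * Real.log Y := by positivity
  calc (Vz X)⁻¹ ≤ g * (1 + δ) * Real.log X := a1.le
    _ = (1 + δ) ^ 2 * (Real.log X / Real.log Y) * (g / (1 + δ) * Real.log Y) := by
        field_simp
    _ ≤ (1 + δ) ^ 2 * (Real.log X / Real.log Y) * (Vz Y)⁻¹ := by
        apply mul_le_mul_of_nonneg_left a2.le
        positivity

/-- an upper bound for the sum of the reciprocals -/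
lemma RP_up {C : ℝ} (hC1 : 1 ≤ C) (hC : ∀ N : ℕ, 2 ≤ N → (Vz N)⁻¹ ≤ C * Real.log N ∧ Real.log N ≤ C * (Vz N)⁻¹)
    {X Y : ℕ} (hX : 2 ≤ X) (hXY : X ≤ Y) : RP (mid X Y) ≤ Real.log (C ^ 2 * (Real.log Y / Real.log X)) := by
  have hX2 : (2 : ℝ) ≤ X := by exact_mod_cast hX
  have hY2 : (2 : ℝ) ≤ Y := hX2.trans (by exact_mod_cast hXY)
  have hlX : 0 < Real.log X := Real.log_pos (by linarith)
  have hlY : 0 < Real.log Y := Real.log_pos (by linarith)
  have hVX := Vz_pos X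
  have hVY := Vz_pos Y
  have hC0 : 0 < C := by linarith
  have hprod : ∏ l ∈ mid X Y, (1 - 1 / (l : ℝ)) = Vz Y / Vz X := by
    rw [Vz_split X Y hXY]
    field_simp
  have hlpos : ∀ l ∈ mid X Y, 0 < 1 - 1 / (l : ℝ) := by
    intro l hl
    rw [mem_mid] at hl
    have hl2 : (2 : ℝ) ≤ l := by exact_mod_cast hl.2.2.two_le
    have hx1 : 1 / (l : ℝ) ≤ 1 / 2 := one_div_le_one_div_of_le (by norm_num) hl2
    linarith
  have h1 : ∀ l ∈ mid X Y, Real.log (1 - 1 / (l : ℝ)) ≤ -(1 / (l : ℝ)) := by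
    intro l hl
    have := Real.log_le_sub_one_of_pos (hlpos l hl)
    linarith
  have h2 : Real.log (Vz Y / Vz X) = ∑ l ∈ mid X Y, Real.log (1 - 1 / (l : ℝ)) := by
    rw [← hprod, Real.log_prod]
    intro l hl
    exact (hlpos l hl).ne'
  have h3 : Real.log (Vz Y / Vz X) ≤ - RP (mid X Y) := by
    rw [h2]
    unfold RP
    rw [← sum_neg_distrib]
    exact sum_le_sum h1
  have h4 : Real.log (Vz X / Vz Y) ≤ Real.log (C ^ 2 * (Real.log Y / Real.log X)) := by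
    apply Real.log_le_log (by positivity)
    have a1 := (hC X hX).2
    have a2 := (hC Y (by omega)).1
    have a3 : Vz X * Real.log X ≤ C := by
      have := mul_le_mul_of_nonneg_left a1 hVX.le
      rwa [← mul_assoc, mul_comm (Vz X) C, mul_assoc, mul_inv_cancel₀ hVX.ne', mul_one] at this
    rw [div_eq_mul_inv]
    calc Vz X * (Vz Y)⁻¹ ≤ Vz X * (C * Real.log Y) := mul_le_mul_of_nonneg_left a2 hVX.le
      _ = (Vz X * Real.log X) * (C * (Real.log Y / Real.log X)) := by field_simp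
      _ ≤ C * (C * (Real.log Y / Real.log X)) := mul_le_mul_of_nonneg_right a3 (by positivity)
      _ = _ := by ring
  have h5 : Real.log (Vz Y / Vz X) = - Real.log (Vz X / Vz Y) := by
    rw [← Real.log_inv, inv_div]
  linarith

/-- the exponents -/
lemma expo {f l h e : ℝ} (hf : 1 ≤ f) (hl : 0 < l) (he : 0 < e) (h1 : (f / 2 + 2 * e) * l ≤ h) (h2 : h ≤ f * l) :
    ((f + 2 * e) * l - h) / (h - 2 * e * l) ≤ f * l / h - 1 + 8 * e := by
  have hfl : l ≤ f * l := by nlinarith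
  have hel : 0 < e * l := by positivity
  have hh : 0 < h := by nlinarith
  have hd : l / 2 ≤ h - 2 * e * l := by nlinarith
  have hd0 : 0 < h - 2 * e * l := by linarith
  have e1 : f * l / h - 1 + 8 * e = ((f * l - h) + 8 * e * h) / h := by field_simp
  rw [e1, div_le_div_iff₀ hd0 hh]
  -- (A + 2el) h ≤ (A + 8eh)(h - 2el), A = fl - h ≤ h
  have hA0 : 0 ≤ f * l - h := by linarith
  have hA1 : f * l - h ≤ h := by nlinarith
  obtain ⟨A, hA⟩ : ∃ A, A = f * l - h := ⟨_, rfl⟩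
  obtain ⟨d, hdd⟩ : ∃ d, d = h - 2 * e * l := ⟨_, rfl⟩
  have e2 : (f + 2 * e) * l - h = A + 2 * (e * l) := by rw [hA]; ring
  rw [e2, ← hA, ← hdd]
  rw [← hA] at hA0 hA1
  rw [← hdd] at hd hd0
  have e3 : h = d + 2 * (e * l) := by rw [hdd]; ring
  -- 2 e l (h + A) ≤ 8 e h d
  have k1 : 2 * (e * l) * (h + A) ≤ 2 * (e * l) * (2 * h) := mul_le_mul_of_nonneg_left (by linarith) (by positivity)
  have k2 : l * (e * h) ≤ (2 * d) * (e * h) := mul_le_mul_of_nonneg_right (by linarith) (by positivity)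
  nlinarith

theorem params34 (f : ℕ) (hf : 1 ≤ f) (e1 : ℝ) (he0 : 0 < e1) (he1 : e1 ≤ 1) : ∃ K : ℝ, 0 ≤ K ∧ ∀ I₀ : ℕ, ∃ N₀ : ℕ, ∀ N : ℕ, N₀ ≤ N →
    ∀ H : ℕ, Real.log N ^ ((f : ℝ) / 2 + 2 * e1) ≤ H → (H : ℝ) ≤ Real.log N ^ f → ∃ i0 i1 : ℕ, I₀ ≤ i0 ∧ i0 ≤ i1 ∧
      Real.log N ^ ((f : ℝ) + e1) ≤ 2 ^ i0 * H ∧ 2 ^ i1 * Real.log N ^ e1 ≤ H ∧ RP (mid (2 ^ i0) (2 ^ i1)) ≤ K ∧
      ∏ q ∈ mid (2 ^ i0) (2 ^ i1), (1 - 1 / (q : ℝ)) ≤ (f * Real.log (Real.log N) / Real.log H - 1) + 11 * e1 := by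
  obtain ⟨C, hC1, hC⟩ := mert
  obtain ⟨z₀, hz₀⟩ := vz_ratio e1 he0
  have hf1 : (1 : ℝ) ≤ f := by exact_mod_cast hf
  have hfe : 1 ≤ (f : ℝ) / e1 := by rw [one_le_div he0]; linarith
  refine ⟨Real.log (C ^ 2 * ((f : ℝ) / e1)), by
    apply Real.log_nonneg
    nlinarith, fun I₀ => ?_⟩
  have t1 : Tendsto (fun N : ℕ => Real.log N ^ e1) atTop atTop := (tendsto_rpow_atTop he0).comp log_tendsto
  have t2 : Tendsto (fun N : ℕ => Real.log (Real.log N)) atTop atTop := Real.tendsto_log_atTop.comp log_tendsto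
  obtain ⟨N₃, hN₃⟩ := eventually_atTop.1 ((t1.eventually_ge_atTop ((2 : ℝ) ^ I₀ + z₀ + 8)).and
    ((log_tendsto.eventually_ge_atTop 3).and (t2.eventually_ge_atTop (Real.log 4 / e1 + 1))))
  refine ⟨N₃, fun N hN H hH1 hH2 => ?_⟩
  obtain ⟨hxe, hx3, hxl⟩ := hN₃ N hN
  obtain ⟨x, hx⟩ : ∃ x, x = Real.log N := ⟨_, rfl⟩
  rw [← hx] at hH1 hH2 hxe hx3 hxl ⊢
  have hx0 : 0 < x := by linarith
  have hz0r : (0 : ℝ) ≤ z₀ := Nat.cast_nonneg _
  have h2I : (0 : ℝ) < 2 ^ I₀ := by positivity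
  have hxe8 : 8 ≤ x ^ e1 := by linarith
  obtain ⟨l, hl⟩ : ∃ l, l = Real.log x := ⟨_, rfl⟩
  rw [← hl] at hxl ⊢
  have hlog4 : 0 < Real.log 4 := Real.log_pos (by norm_num)
  have hl0 : 0 < l := by
    have : 0 < Real.log 4 / e1 := by positivity
    linarith
  have hl4 : Real.log 4 ≤ e1 * l := by
    have : Real.log 4 / e1 ≤ l := by linarith
    rw [div_le_iff₀ he0] at this
    linarith
  have hH0 : (0 : ℝ) < H := lt_of_lt_of_le (by positivity) hH1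
  obtain ⟨h, hh⟩ : ∃ h, h = Real.log H := ⟨_, rfl⟩
  rw [← hh]
  have hh1 : ((f : ℝ) / 2 + 2 * e1) * l ≤ h := by
    have := Real.log_le_log (by positivity) hH1
    rw [Real.log_rpow hx0] at this
    rw [hh, hl]
    exact this
  have hh2 : h ≤ f * l := by
    have := Real.log_le_log hH0 hH2
    rw [Real.log_pow] at this
    rw [hh, hl]
    exact this
  -- the number `y`
  obtain ⟨y, hy⟩ : ∃ y, y = x ^ ((f : ℝ) + e1) / H := ⟨_, rfl⟩
  have hyx : x ^ e1 ≤ y := by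
    rw [hy, le_div_iff₀ hH0, Real.rpow_add hx0, Real.rpow_natCast, mul_comm]
    exact mul_le_mul_of_nonneg_right hH2 (by positivity)
  have hy8 : 8 ≤ y := by linarith
  have hylog : Real.log y = (f + e1) * l - h := by
    rw [hy, Real.log_div (by positivity) (by positivity), Real.log_rpow hx0, hl, hh]
  obtain ⟨i0, hi0⟩ : ∃ i0, i0 = Nat.clog 2 ⌈y⌉₊ := ⟨_, rfl⟩
  have hi0a : y ≤ 2 ^ i0 := by
    have a1 : ⌈y⌉₊ ≤ 2 ^ i0 := by rw [hi0]; exact Nat.le_pow_clog (by norm_num) _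
    have a2 : ((⌈y⌉₊ : ℕ) : ℝ) ≤ ((2 ^ i0 : ℕ) : ℝ) := by exact_mod_cast a1
    push_cast at a2
    exact (Nat.le_ceil y).trans a2
  have hi0b : (2 : ℝ) ^ i0 ≤ 4 * y := by
    have hceil : 1 < ⌈y⌉₊ := by
      rw [Nat.lt_ceil]
      push_cast
      linarith
    have a1 : 2 ^ (i0 - 1) < ⌈y⌉₊ := by rw [hi0]; exact Nat.pow_pred_clog_lt_self (by norm_num) hceil
    have a0 : 0 < i0 := by rw [hi0]; exact Nat.clog_pos (by norm_num) hceil
    have a2 : 2 ^ i0 = 2 * 2 ^ (i0 - 1) := by rw [← pow_succ']; congr 1; omega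
    have a3 : ((2 ^ (i0 - 1) : ℕ) : ℝ) < (⌈y⌉₊ : ℝ) := by exact_mod_cast a1
    have a4 : (⌈y⌉₊ : ℝ) < y + 1 := Nat.ceil_lt_add_one (by linarith)
    have a5 : ((2 ^ i0 : ℕ) : ℝ) = 2 * ((2 ^ (i0 - 1) : ℕ) : ℝ) := by rw [a2]; push_cast; ring
    push_cast at a3 a5
    linarith
  -- the number `u`
  obtain ⟨u, hu⟩ : ∃ u, u = H / x ^ e1 := ⟨_, rfl⟩
  have hxe0 : 0 < x ^ e1 := by positivity
  have h8yu : 8 * y ≤ u := by
    rw [hu, le_div_iff₀ hxe0, hy, mul_div_assoc', div_mul_eq_mul_div, div_le_iff₀ hH0]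
    have a1 : x ^ ((f : ℝ) + 4 * e1) ≤ H * H := by
      calc x ^ ((f : ℝ) + 4 * e1) = x ^ ((f : ℝ) / 2 + 2 * e1) * x ^ ((f : ℝ) / 2 + 2 * e1) := by
            rw [← Real.rpow_add hx0]
            congr 1
            ring
        _ ≤ H * H := mul_le_mul hH1 hH1 (by positivity) hH0.le
    refine le_trans ?_ a1
    have a2 : x ^ ((f : ℝ) + 4 * e1) = x ^ ((f : ℝ) + e1) * x ^ e1 * (x ^ e1 * x ^ e1) := by
      rw [← Real.rpow_add hx0, ← Real.rpow_add hx0, ← Real.rpow_add hx0]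
      congr 1
      ring
    rw [a2]
    have a3 : 8 ≤ x ^ e1 * x ^ e1 := by nlinarith
    have a4 : 0 < x ^ ((f : ℝ) + e1) * x ^ e1 := by positivity
    nlinarith
  have hu8 : 8 ≤ u := by linarith
  have hu0 : 0 < u := by linarith
  have hulog : Real.log u = h - e1 * l := by
    rw [hu, Real.log_div hH0.ne' hxe0.ne', Real.log_rpow hx0, hl, hh]
  obtain ⟨i1, hi1⟩ : ∃ i1, i1 = Nat.log 2 ⌊u⌋₊ := ⟨_, rfl⟩
  have hfl : 1 ≤ ⌊u⌋₊ := by
    rw [Nat.one_le_floor_iff]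
    linarith
  have hi1a : (2 : ℝ) ^ i1 ≤ u := by
    have a1 : 2 ^ i1 ≤ ⌊u⌋₊ := by rw [hi1]; exact Nat.pow_log_le_self 2 (by omega)
    have a2 : ((2 ^ i1 : ℕ) : ℝ) ≤ (⌊u⌋₊ : ℝ) := by exact_mod_cast a1
    push_cast at a2
    exact a2.trans (Nat.floor_le hu0.le)
  have hi1b : u ≤ 2 * 2 ^ i1 := by
    have a1 : ⌊u⌋₊ < 2 ^ (i1 + 1) := by rw [hi1]; exact Nat.lt_pow_succ_log_self (by norm_num) _
    have a2 : ((⌊u⌋₊ + 1 : ℕ) : ℝ) ≤ ((2 ^ (i1 + 1) : ℕ) : ℝ) := by exact_mod_cast a1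
    push_cast at a2
    rw [pow_succ] at a2
    have := Nat.lt_floor_add_one u
    linarith
  have h01 : i0 ≤ i1 := by
    have a1 : (2 : ℝ) ^ i0 ≤ 2 ^ i1 := by linarith
    exact (pow_le_pow_iff_right₀ (by norm_num : (1 : ℝ) < 2)).1 a1
  have hI : I₀ ≤ i0 := by
    have a1 : (2 : ℝ) ^ I₀ ≤ 2 ^ i0 := by linarith
    exact (pow_le_pow_iff_right₀ (by norm_num : (1 : ℝ) < 2)).1 a1
  have hzi : z₀ ≤ 2 ^ i0 := by
    have a1 : (z₀ : ℝ) ≤ ((2 ^ i0 : ℕ) : ℝ) := by push_cast; linarith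
    exact_mod_cast a1
  have h2i0 : 2 ≤ 2 ^ i0 := by
    have a1 : ((2 : ℕ) : ℝ) ≤ ((2 ^ i0 : ℕ) : ℝ) := by push_cast; linarith
    exact_mod_cast a1
  have hXY : 2 ^ i0 ≤ 2 ^ i1 := Nat.pow_le_pow_right (by norm_num) h01
  -- the logarithms
  obtain ⟨a, ha⟩ : ∃ a, a = Real.log ((2 ^ i0 : ℕ) : ℝ) := ⟨_, rfl⟩
  obtain ⟨b, hb⟩ : ∃ b, b = Real.log ((2 ^ i1 : ℕ) : ℝ) := ⟨_, rfl⟩
  have ha1 : e1 * l ≤ a := by
    have a1 : Real.log y ≤ a := by
      rw [ha]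
      apply Real.log_le_log (by linarith)
      push_cast
      exact hi0a
    rw [hylog] at a1
    nlinarith
  have ha2 : a ≤ (f + 2 * e1) * l - h := by
    have a1 : a ≤ Real.log (4 * y) := by
      rw [ha]
      apply Real.log_le_log (by positivity)
      push_cast
      exact hi0b
    rw [Real.log_mul (by norm_num) (by linarith), hylog] at a1
    nlinarith
  have hb1 : h - 2 * e1 * l ≤ b := by
    have a1 : Real.log (u / 4) ≤ b := by
      rw [hb]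
      apply Real.log_le_log (by positivity)
      push_cast
      have : (0 : ℝ) < 2 ^ i1 := by positivity
      linarith
    rw [Real.log_div hu0.ne' (by norm_num), hulog] at a1
    nlinarith
  have hb2 : b ≤ f * l := by
    have a1 : b ≤ Real.log u := by
      rw [hb]
      apply Real.log_le_log (by positivity)
      push_cast
      exact hi1a
    rw [hulog] at a1
    have : 0 < e1 * l := by positivity
    linarith
  have hel : 0 < e1 * l := by positivity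
  have ha0 : 0 < a := by linarith
  have hab : a ≤ b := by
    rw [ha, hb]
    apply Real.log_le_log (by positivity)
    exact_mod_cast hXY
  have hb0 : 0 < b := by linarith
  refine ⟨i0, i1, hI, h01, ?_, ?_, ?_, ?_⟩
  · rw [hy, div_le_iff₀ hH0] at hi0a
    exact hi0a
  · rw [hu, le_div_iff₀ hxe0] at hi1a
    exact hi1a
  · refine (RP_up hC1 hC h2i0 hXY).trans ?_
    rw [← ha, ← hb]
    apply Real.log_le_log (by positivity)
    apply mul_le_mul_of_nonneg_left _ (by positivity)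
    rw [div_le_div_iff₀ ha0 he0]
    calc b * e1 ≤ (f * l) * e1 := mul_le_mul_of_nonneg_right hb2 he0.le
      _ = f * (e1 * l) := by ring
      _ ≤ f * a := mul_le_mul_of_nonneg_left ha1 (by linarith)
  · refine (hz₀ _ _ hzi hXY).trans ?_
    rw [← ha, ← hb]
    have hr1 : a / b ≤ 1 := (div_le_one hb0).2 hab
    have hr0 : 0 < a / b := by positivity
    have hd0 : 0 < h - 2 * e1 * l := by nlinarith
    have hr2 : a / b ≤ f * l / h - 1 + 8 * e1 := by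
      refine le_trans ?_ (expo hf1 hl0 he0 hh1 hh2)
      exact div_le_div₀ (by linarith) ha2 hd0 hb1
    have k1 : (2 * e1 + e1 ^ 2) * (a / b) ≤ (2 * e1 + e1 ^ 2) * 1 := mul_le_mul_of_nonneg_left hr1 (by positivity)
    have k2 : e1 ^ 2 ≤ e1 := by nlinarith
    have k3 : (1 + e1) ^ 2 * (a / b) = a / b + (2 * e1 + e1 ^ 2) * (a / b) := by ring
    linarith

end Pool.Agent.Helper34.SW
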