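import Mathlib
import Pool.Agent.Helper34.SW.W4
import Pool.Agent.Helper34.SW.V6

set_option autoImplicit false

/-! The exceptional shifts for one length. -/

namespace Pool.Agent.Helper34.SW
open Finset Filter Topology
open Pool.Agent.E8helper16.SL (LL LL_nonneg LL_nat LL_sum Sep sep_of mid mem_mid RP SX duality lz log_tendsto)

lemma exc34 {f : ℕ} (a : Fin f → ℕ) (b : ℕ → ℂ) (hb : ∀ n, ‖b n‖ ≤ 1) (B X N H : ℕ) (hX : X + B ≤ N) {Q : Finset ℕ}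
    (hQ : ∀ q ∈ Q, q.Prime) {w : ℕ} (hw : 1 ≤ w) (hwQ : ∀ q ∈ Q, w < q) (S Kb : ℝ)
    (hS : ∑ n ∈ Icc 1 X, ∏ i, ArithmeticFunction.vonMangoldt (n + a i) ≤ S)
    (hK : ∀ c : ℕ → ℂ, (∀ h, ‖c h‖ ≤ 1) →
      ∑ p ∈ Q, ∑ n ∈ Icc 1 N, LL (fun i => (a i : ℤ) - B) n * ‖Gv (vq Q) c H p n‖ ≤ Kb)
    (E : Finset ℕ) (hE : E ⊆ Icc 1 H) :
    ∑ h ∈ E, ‖SX a b X (B + h)‖ ≤
      ∑ h ∈ E, ∑ n ∈ Icc 1 X, (∏ i, ArithmeticFunction.vonMangoldt (n + a i)) * (if omq Q (n + (B + h)) = 0 then (1 : ℝ) else 0) +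
        2 * (H / w + Q.card) * S + Kb := by
  classical
  obtain ⟨c, hc1, hc2⟩ := duality E (fun h => SX a b X (B + h))
  obtain ⟨c', hc'⟩ : ∃ c' : ℕ → ℂ, c' = fun h => if h ∈ E then c h else 0 := ⟨_, rfl⟩
  have hc'1 : ∀ h, ‖c' h‖ ≤ 1 := by
    intro h
    rw [hc']
    simp only
    split_ifs
    · exact hc1 h
    · simp
  have hc'0 : ∀ h, h ∉ E → c' h = 0 := by
    intro h hh
    rw [hc']
    simp only
    rw [if_neg hh]
  have h2 : ((∑ h ∈ E, ‖SX a b X (B + h)‖ : ℝ) : ℂ) =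
      ∑ n ∈ Icc 1 X, b n * ((∏ i, ArithmeticFunction.vonMangoldt (n + a i) : ℝ) : ℂ) *
        ∑ h ∈ Icc 1 H, c' h * lz ((n + B + h : ℕ) : ℤ) := by
    rw [Complex.ofReal_sum, ← sum_congr rfl hc2]
    have h3 : ∀ h ∈ E, c h * SX a b X (B + h) = c' h * SX a b X (B + h) := by
      intro h hh
      rw [hc']
      simp only
      rw [if_pos hh]
    rw [sum_congr rfl h3]
    have h4 : ∑ h ∈ E, c' h * SX a b X (B + h) = ∑ h ∈ Icc 1 H, c' h * SX a b X (B + h) := by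
      apply sum_subset hE
      intro h _ hh
      rw [hc'0 h hh, zero_mul]
    rw [h4]
    unfold SX
    have h5 : ∀ h ∈ Icc 1 H, c' h * ∑ n ∈ Icc 1 X, b n * ((∏ i, ArithmeticFunction.vonMangoldt (n + a i) : ℝ) : ℂ) * lz ((n + (B + h) : ℕ) : ℤ) =
        ∑ n ∈ Icc 1 X, b n * ((∏ i, ArithmeticFunction.vonMangoldt (n + a i) : ℝ) : ℂ) * (c' h * lz ((n + B + h : ℕ) : ℤ)) := by
      intro h _
      rw [mul_sum]
      apply sum_congr rfl
      intro n _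
      rw [add_assoc]
      ring
    rw [sum_congr rfl h5, sum_comm]
    apply sum_congr rfl
    intro n _
    rw [mul_sum]
  have h6 : (0 : ℝ) ≤ ∑ h ∈ E, ‖SX a b X (B + h)‖ := sum_nonneg fun _ _ => norm_nonneg _
  have h7 : ∑ h ∈ E, ‖SX a b X (B + h)‖ = ‖((∑ h ∈ E, ‖SX a b X (B + h)‖ : ℝ) : ℂ)‖ := by
    rw [Complex.norm_real, Real.norm_eq_abs, abs_of_nonneg h6]
  rw [h7, h2]
  obtain ⟨P, hP⟩ : ∃ P : ℕ → ℝ, P = fun n => ∏ i, ArithmeticFunction.vonMangoldt (n + a i) := ⟨_, rfl⟩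
  have hP0 : ∀ n, 0 ≤ P n := by
    intro n
    rw [hP]
    exact prod_nonneg fun i _ => ArithmeticFunction.vonMangoldt_nonneg
  have hPe : ∀ n, ∏ i, ArithmeticFunction.vonMangoldt (n + a i) = P n := by
    intro n
    rw [hP]
  simp only [hPe] at hS ⊢
  refine (norm_sum_le _ _).trans ?_
  have h8 : ∀ n ∈ Icc 1 X, ‖b n * ((P n : ℝ) : ℂ) * ∑ h ∈ Icc 1 H, c' h * lz ((n + B + h : ℕ) : ℤ)‖ ≤
      P n * ∑ h ∈ E, (if omq Q (n + B + h) = 0 then (1 : ℝ) else 0) + 2 * (H / w + Q.card) * P n +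
        ∑ p ∈ Q, P n * ‖Gv (vq Q) c' H p ((n + B : ℕ) : ℤ)‖ := by
    intro n _
    rw [norm_mul, norm_mul, Complex.norm_real, Real.norm_eq_abs, abs_of_nonneg (hP0 n)]
    have k1 := win_le c' hc'1 E hc'0 hQ hw hwQ (n + B) H
    have k2 := mul_le_mul_of_nonneg_left k1 (hP0 n)
    have k3 : ‖b n‖ * P n * ‖∑ h ∈ Icc 1 H, c' h * lz ((n + B + h : ℕ) : ℤ)‖ ≤
        P n * ‖∑ h ∈ Icc 1 H, c' h * lz ((n + B + h : ℕ) : ℤ)‖ := by
      apply mul_le_mul_of_nonneg_right _ (norm_nonneg _)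
      exact mul_le_of_le_one_left (hP0 n) (hb n)
    refine k3.trans (k2.trans (le_of_eq ?_))
    rw [← mul_sum]
    ring
  refine (sum_le_sum h8).trans ?_
  rw [sum_add_distrib, sum_add_distrib]
  apply add_le_add
  · apply add_le_add
    · apply le_of_eq
      have : ∀ n ∈ Icc 1 X, P n * ∑ h ∈ E, (if omq Q (n + B + h) = 0 then (1 : ℝ) else 0) =
          ∑ h ∈ E, P n * (if omq Q (n + (B + h)) = 0 then (1 : ℝ) else 0) := by
        intro n _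
        rw [mul_sum]
        simp only [add_assoc]
      rw [sum_congr rfl this, sum_comm]
    · rw [← mul_sum]
      apply mul_le_mul_of_nonneg_left hS
      exact mul_nonneg (by norm_num) (add_nonneg (div_nonneg (Nat.cast_nonneg _) (Nat.cast_nonneg _)) (Nat.cast_nonneg _))
  · rw [sum_comm]
    refine le_trans ?_ (hK c' hc'1)
    apply sum_le_sum
    intro p _
    have h9 : ∑ n ∈ Icc 1 X, P n * ‖Gv (vq Q) c' H p ((n + B : ℕ) : ℤ)‖ =
        ∑ n ∈ (Icc 1 X).image (fun n => n + B), LL (fun i => (a i : ℤ) - B) (n : ℤ) * ‖Gv (vq Q) c' H p (n : ℤ)‖ := by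
      rw [sum_image (fun x _ y _ h => by simpa using h)]
      apply sum_congr rfl
      intro n _
      rw [LL_nat, hPe]
    rw [h9]
    apply sum_le_sum_of_subset_of_nonneg
    · intro n hn
      rw [mem_image] at hn
      obtain ⟨m, hm, rfl⟩ := hn
      rw [mem_Icc] at hm ⊢
      omega
    · intro n _ _
      exact mul_nonneg (LL_nonneg _ _) (norm_nonneg _)

end Pool.Agent.Helper34.SW
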