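import Mathlib
import Pool.Agent.Helper34.SW.W5

set_option autoImplicit false

/-! The number of the exceptional shifts for one length. -/

namespace Pool.Agent.Helper34.SW
open Finset Filter Topology
open Pool.Agent.E8helper16.SL (LL LL_nonneg LL_nat LL_sum Sep sep_of mid mem_mid RP SX log_tendsto)

open Classical in
theorem gridX (f : ℕ) (hf : 1 ≤ f) (D : ℕ) (C : ℝ) (hC : 1 ≤ C) (w : ℕ) (hTF : TFree f D C w) (ε : ℝ) (hε : 0 < ε) (hε1 : ε ≤ 1) :
    ∃ N₀ : ℕ, ∀ N : ℕ, N₀ ≤ N → ∀ H : ℕ, Real.log N ^ ((f : ℝ) / 2 + ε) ≤ H → (H : ℝ) ≤ Real.log N ^ f →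
      ∀ a : Fin f → ℕ, Function.Injective a → (∀ i, a i ≤ N) → (∀ i l, a i ≤ a l + D) → ∀ B : ℕ, B ≤ 2 * N →
        ∀ b : ℕ → ℂ, (∀ n, ‖b n‖ ≤ 1) → ∀ X : ℕ, X ≤ N →
        (((Icc 1 H).filter (fun h => (C * (f * Real.log (Real.log N) / Real.log H - 1) + ε) * N < ‖SX a b X (B + h)‖)).card : ℝ) ≤
          ε * H := by
  obtain ⟨C6, hC6, hsum⟩ := LL_sum f hf D
  obtain ⟨N₁, hsum⟩ := hsum 1 one_pos
  have hC0 : 0 < C := by linarith
  have hC60 : 0 < C6 := by linarith
  obtain ⟨e1, he1d⟩ : ∃ e1, e1 = ε / (96 * C) := ⟨_, rfl⟩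
  have he0 : 0 < e1 := by rw [he1d]; positivity
  have he1C : 96 * C * e1 = ε := by rw [he1d]; field_simp
  have he14 : e1 ≤ ε / 96 := by
    rw [he1d]
    exact div_le_div_of_nonneg_left hε.le (by norm_num) (by linarith)
  have he1 : e1 ≤ 1 := by linarith
  obtain ⟨η, hηd⟩ : ∃ η, η = ε / (32 * C) := ⟨_, rfl⟩
  have hη0 : 0 < η := by rw [hηd]; positivity
  have hηC : 32 * C * η = ε := by rw [hηd]; field_simp
  have hη32 : η ≤ 1 / 32 := by
    rw [hηd]
    exact div_le_div₀ zero_le_one hε1 (by norm_num) (by linarith)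
  have hη1 : 2 * η ≤ 1 := by linarith
  obtain ⟨K, hK0, hpar⟩ := params34 f hf e1 he0 he1
  obtain ⟨I₁, N₂, hblk⟩ := blocks f hf D K hK0 e1 he0 (ε ^ 2 / 24) (by positivity)
  obtain ⟨ρ, hρd⟩ : ∃ ρ, ρ = ε ^ 2 / (16 * C6) := ⟨_, rfl⟩
  have hρ0 : 0 < ρ := by rw [hρd]; positivity
  have hρC : 16 * C6 * ρ = ε ^ 2 := by rw [hρd]; field_simp
  have hf0 : (0 : ℝ) < f := by exact_mod_cast (by omega : 0 < f)
  have hf1 : (1 : ℝ) ≤ f := by exact_mod_cast hf
  obtain ⟨I₂, hI₂⟩ := exists_nat_ge (2 * f / (η * ρ) + 2 / ρ)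
  obtain ⟨N₃, hpar⟩ := hpar (I₁ + I₂ + w + 2)
  obtain ⟨N₄, hTF⟩ := hTF K (ε / 8) (by positivity)
  have t1 : Tendsto (fun N : ℕ => Real.log N ^ e1) atTop atTop := (tendsto_rpow_atTop he0).comp log_tendsto
  have t2 : Tendsto (fun N : ℕ => Real.log (Real.log N)) atTop atTop := Real.tendsto_log_atTop.comp log_tendsto
  have t3 : Tendsto (fun N : ℕ => Real.log N ^ (ε / 2)) atTop atTop := (tendsto_rpow_atTop (by positivity)).comp log_tendsto
  have t4 : Tendsto (fun N : ℕ => Real.log N ^ (ε : ℝ)) atTop atTop := (tendsto_rpow_atTop (by positivity)).comp log_tendsto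
  obtain ⟨N₅, hN₅⟩ := eventually_atTop.1 ((t1.eventually_ge_atTop (2 / ρ)).and
    ((log_tendsto.eventually_ge_atTop 3).and ((t2.eventually_ge_atTop (2 / e1)).and
    ((t3.eventually_ge_atTop ((2 : ℝ) ^ ((f : ℝ) / 2 + 2))).and (t4.eventually_ge_atTop (2 * f * K / (η * ρ)))))))
  refine ⟨N₁ + N₂ + N₃ + N₄ + N₅ + 3, fun N hN H hH1 hH2 a ha haN haD B hB b hb X hX => ?_⟩
  obtain ⟨hxe, hx3, hxl, hx2f, hxK⟩ := hN₅ N (by omega)
  obtain ⟨x, hx⟩ : ∃ x, x = Real.log N := ⟨_, rfl⟩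
  have hx' := hx
  rw [← hx] at hH1 hH2 hxe hx3 hxl hx2f hxK ⊢
  have hx0 : 0 < x := by linarith
  have hx1 : 1 ≤ x := by linarith
  have hN3r : (3 : ℝ) ≤ N := by exact_mod_cast (by omega : 3 ≤ N)
  have hN0 : (0 : ℝ) < N := by linarith
  -- the scale `3 N`
  obtain ⟨x3, hx3d⟩ : ∃ x3, x3 = Real.log ((3 * N : ℕ) : ℝ) := ⟨_, rfl⟩
  have hx3l : x ≤ x3 := by
    rw [hx, hx3d]
    apply Real.log_le_log hN0
    push_cast
    linarith
  have hx3u : x3 ≤ 2 * x := by
    have h1 : x3 ≤ Real.log ((N : ℝ) ^ 2) := by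
      rw [hx3d]
      apply Real.log_le_log
      · push_cast; linarith
      · push_cast
        rw [pow_two]
        exact mul_le_mul_of_nonneg_right hN3r hN0.le
    rw [Real.log_pow, ← hx] at h1
    exact_mod_cast h1
  have hx30 : 0 < x3 := by linarith
  have hH1' : x3 ^ ((f : ℝ) / 2 + 2 * e1) ≤ H := by
    refine le_trans ?_ hH1
    calc x3 ^ ((f : ℝ) / 2 + 2 * e1) ≤ (2 * x) ^ ((f : ℝ) / 2 + 2 * e1) :=
          Real.rpow_le_rpow hx30.le hx3u (by positivity)
      _ = (2 : ℝ) ^ ((f : ℝ) / 2 + 2 * e1) * x ^ ((f : ℝ) / 2 + 2 * e1) := Real.mul_rpow (by norm_num) hx0.le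
      _ ≤ x ^ (ε / 2) * x ^ ((f : ℝ) / 2 + ε / 2) := by
          apply mul_le_mul _ _ (by positivity) (by positivity)
          · refine le_trans ?_ hx2f
            apply Real.rpow_le_rpow_of_exponent_le (by norm_num)
            linarith
          · apply Real.rpow_le_rpow_of_exponent_le hx1
            linarith
      _ = x ^ ((f : ℝ) / 2 + ε) := by rw [← Real.rpow_add hx0]; congr 1; ring
  have hH2' : (H : ℝ) ≤ x3 ^ f := hH2.trans (pow_le_pow_left₀ hx0.le hx3l _)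
  have hH0 : (0 : ℝ) < H := lt_of_lt_of_le (by positivity) hH1
  obtain ⟨i0, i1, hi0, hi01, p1, p2, p3, p4⟩ := hpar (3 * N) (by omega) H (by rw [← hx3d]; exact hH1') (by rw [← hx3d]; exact hH2')
  rw [← hx3d] at p1 p2 p4
  obtain ⟨Q, hQd⟩ : ∃ Q, Q = mid (2 ^ i0) (2 ^ i1) := ⟨_, rfl⟩
  have hblk' : ∀ c : ℕ → ℂ, (∀ h, ‖c h‖ ≤ 1) →
      ∑ p ∈ Q, ∑ n ∈ Icc 1 (3 * N), LL (fun i => (a i : ℤ) - B) n * ‖Gv (vq Q) c H p n‖ ≤ ε ^ 2 / 24 * (H * (3 * N : ℕ)) := by
    intro c hc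
    rw [hQd]
    refine hblk (3 * N) (by omega) H i0 i1 (by omega) ?_ (by rw [← hx3d]; exact p1) (by rw [← hx3d]; exact p2) p3
      (fun i => (a i : ℤ) - B) ?_ ?_ c hc
    · rw [← hx3d]
      refine hH2'.trans ?_
      exact pow_le_pow_right₀ (by linarith) (by omega)
    · have := sep_of ha haD (-(B : ℤ))
      simpa only [← sub_eq_add_neg] using this
    · intro i
      have := haN i
      rw [abs_le]
      constructor <;> push_cast <;> omega
  rw [← hQd] at p3 p4
  have hQp : ∀ q ∈ Q, q.Prime := fun q hq => by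
    rw [hQd, mem_mid] at hq
    exact hq.2.2
  have hQlow : ∀ q ∈ Q, 2 ^ i0 < q := fun q hq => by
    rw [hQd, mem_mid] at hq
    exact hq.1
  have h2i1 : (2 : ℝ) ^ i1 * x ^ e1 ≤ H := by
    refine le_trans ?_ p2
    apply mul_le_mul_of_nonneg_left _ (by positivity)
    exact Real.rpow_le_rpow hx0.le hx3l he0.le
  have hxe1 : 1 ≤ x ^ e1 := Real.one_le_rpow hx1 he0.le
  have hQcard : (Q.card : ℝ) * x ^ e1 ≤ H := by
    refine le_trans ?_ h2i1
    apply mul_le_mul_of_nonneg_right _ (by positivity)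
    have h1 : Q ⊆ Icc 1 (2 ^ i1) := fun q hq => by
      rw [hQd, mem_mid] at hq
      exact mem_Icc.2 ⟨hq.2.2.one_le, hq.2.1⟩
    have h2 := card_le_card h1
    rw [Nat.card_Icc, Nat.add_sub_cancel] at h2
    exact_mod_cast h2
  have h2i1' : (2 : ℝ) ^ i1 ≤ H := by
    refine le_trans ?_ h2i1
    exact le_mul_of_one_le_right (by positivity) hxe1
  have hi2 : i0 < 2 ^ i0 := Nat.lt_two_pow_self
  have hw1 : 1 ≤ 2 ^ i0 := Nat.one_le_two_pow
  have hwr : (I₂ : ℝ) ≤ ((2 ^ i0 : ℕ) : ℝ) := by exact_mod_cast (by omega : I₂ ≤ 2 ^ i0)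
  have hw0 : (0 : ℝ) < ((2 ^ i0 : ℕ) : ℝ) := by exact_mod_cast (by omega : 0 < 2 ^ i0)
  -- the free part
  have hfree : ∀ t : ℕ, ∑ n ∈ Icc 1 X, (∏ i, ArithmeticFunction.vonMangoldt (n + a i)) * (if omq Q (n + t) = 0 then (1 : ℝ) else 0) ≤
        C * N * ∏ q ∈ QS (fun i => (a i : ℤ)) Q t, (1 - 1 / (q : ℝ)) + ε / 8 * N := by
    intro t
    refine hTF N (by omega) Q (fun q hq => ⟨hQp q hq, lt_trans (by omega) (hQlow q hq), ?_⟩) p3 a ha haN haD X t hX
    rw [← hx]
    have h1 : q ≤ 2 ^ i1 := by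
      rw [hQd, mem_mid] at hq
      exact hq.2.1
    have h2 : (q : ℝ) ≤ 2 ^ i1 := by exact_mod_cast h1
    calc (q : ℝ) ≤ 2 ^ i1 := h2
      _ ≤ H := h2i1'
      _ ≤ x ^ f := hH2
      _ ≤ x ^ (f + 1) := pow_le_pow_right₀ hx1 (by omega)
  -- `κ`
  obtain ⟨κ, hκ⟩ : ∃ κ, κ = f * Real.log x / Real.log H - 1 := ⟨_, rfl⟩
  rw [← hκ]
  have hlogx0 : 0 < Real.log x := by
    have : 0 < 2 / e1 := by positivity
    linarith
  have hlogHlow : (f : ℝ) / 2 * Real.log x ≤ Real.log H := by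
    have h1 := Real.log_le_log (by positivity) hH1
    rw [Real.log_rpow hx0] at h1
    have h2 : 0 < ε * Real.log x := mul_pos hε hlogx0
    have h3 : ((f : ℝ) / 2 + ε) * Real.log x = (f : ℝ) / 2 * Real.log x + ε * Real.log x := by ring
    linarith
  have hlogH0 : 0 < Real.log H := by
    have : 0 < (f : ℝ) / 2 * Real.log x := by positivity
    linarith
  have hlogHup : Real.log H ≤ f * Real.log x := by
    have h1 := Real.log_le_log hH0 hH2
    rw [Real.log_pow] at h1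
    exact h1
  have hκ0 : 0 ≤ κ := by
    rw [hκ]
    have : 1 ≤ f * Real.log x / Real.log H := by rw [one_le_div hlogH0]; exact hlogHup
    linarith
  have hκ3 : f * Real.log x3 / Real.log H - 1 ≤ κ + e1 := by
    have h1 : Real.log x3 ≤ Real.log 2 + Real.log x := by
      rw [← Real.log_mul (by norm_num) hx0.ne']
      exact Real.log_le_log hx30 hx3u
    have h2 : (f : ℝ) * Real.log x3 / Real.log H ≤ f * Real.log x / Real.log H + e1 := by
      rw [div_add' _ _ _ hlogH0.ne']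
      apply div_le_div_of_nonneg_right _ hlogH0.le
      have h3 : (f : ℝ) * Real.log 2 ≤ e1 * Real.log H := by
        have h4 : Real.log 2 ≤ 1 := by
          have := Real.log_two_lt_d9
          linarith
        have h5 : 2 ≤ e1 * Real.log x := by
          have := hxl
          rw [div_le_iff₀ he0] at this
          linarith
        calc (f : ℝ) * Real.log 2 ≤ f * 1 := mul_le_mul_of_nonneg_left h4 hf0.le
          _ = f / 2 * 2 := by ring
          _ ≤ f / 2 * (e1 * Real.log x) := mul_le_mul_of_nonneg_left h5 (by positivity)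
          _ = e1 * (f / 2 * Real.log x) := by ring
          _ ≤ e1 * Real.log H := mul_le_mul_of_nonneg_left hlogHlow he0.le
      calc (f : ℝ) * Real.log x3 ≤ f * (Real.log 2 + Real.log x) := mul_le_mul_of_nonneg_left h1 hf0.le
        _ = f * Real.log x + f * Real.log 2 := by ring
        _ ≤ _ := by linarith
    rw [hκ]
    linarith
  obtain ⟨W, hW⟩ : ∃ W, W = ∏ q ∈ Q, (1 - 1 / (q : ℝ)) := ⟨_, rfl⟩
  rw [← hW] at p4
  have hW4 : W ≤ κ + 12 * e1 := by linarith
  have hW1 : W ≤ 1 := by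
    rw [hW]
    apply prod_le_one
    · intro q hq
      have : (1 : ℝ) ≤ q := by exact_mod_cast (hQp q hq).one_le
      have : 1 / (q : ℝ) ≤ 1 := by rw [div_le_one (by linarith)]; exact this
      linarith
    · intro q hq
      have : 0 ≤ 1 / (q : ℝ) := by positivity
      linarith
  have hexp : Real.exp (2 * η) ≤ 1 + 4 * η := by
    have h1 := Real.exp_bound_div_one_sub_of_interval (show 0 ≤ η from hη0.le) (by linarith : η < 1)
    have h2 : Real.exp (2 * η) = Real.exp η ^ 2 := by rw [← Real.exp_nat_mul]; norm_num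
    have hηη : η * η ≤ η * (1 / 32) := mul_le_mul_of_nonneg_left hη32 hη0.le
    have h3 : 1 / (1 - η) ≤ 1 + 3 / 2 * η := by
      rw [div_le_iff₀ (by linarith)]
      have e : (1 + 3 / 2 * η) * (1 - η) = 1 + η / 2 - 3 / 2 * (η * η) := by ring
      rw [e]
      linarith
    have h4 : Real.exp η ≤ 1 + 3 / 2 * η := h1.trans h3
    rw [h2]
    calc Real.exp η ^ 2 ≤ (1 + 3 / 2 * η) ^ 2 := pow_le_pow_left₀ (Real.exp_pos _).le h4 2
      _ = 1 + 3 * η + 9 / 4 * (η * η) := by ring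
      _ ≤ 1 + 4 * η := by linarith
  -- the exceptional sets
  obtain ⟨E, hE⟩ : ∃ E, E = (Icc 1 H).filter (fun h => (C * κ + ε) * N < ‖SX a b X (B + h)‖) := ⟨_, rfl⟩
  obtain ⟨Ex, hEx⟩ : ∃ Ex, Ex = (Icc 1 H).filter (fun h : ℕ => η < ∑ q ∈ QB (fun i => (a i : ℤ)) Q ((B + h : ℕ) : ℤ), 1 / (q : ℝ)) := ⟨_, rfl⟩
  rw [← hE]
  have hEx1 : (Ex.card : ℝ) ≤ ρ * H := by
    have h1 := card_QB (fun i => (a i : ℤ)) Q hQp hw1 hQlow K p3 B H η
    rw [← hEx] at h1
    have h2 : (f : ℝ) * (H / ((2 ^ i0 : ℕ) : ℝ) + K) ≤ (ρ * H) * η := by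
      have h3 : (f : ℝ) * (H / ((2 ^ i0 : ℕ) : ℝ)) ≤ ρ / 2 * H * η := by
        rw [mul_div_assoc', div_le_iff₀ hw0]
        have h4 : 2 * f / (η * ρ) ≤ ((2 ^ i0 : ℕ) : ℝ) := by
          have : 0 ≤ 2 / ρ := by positivity
          linarith
        rw [div_le_iff₀ (by positivity)] at h4
        calc (f : ℝ) * H = (2 * f) * (H / 2) := by ring
          _ ≤ (((2 ^ i0 : ℕ) : ℝ) * (η * ρ)) * (H / 2) := mul_le_mul_of_nonneg_right h4 (by positivity)
          _ = _ := by ring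
      have h5 : (f : ℝ) * K ≤ ρ / 2 * H * η := by
        have h6 : 2 * f * K / (η * ρ) ≤ H := by
          refine hxK.trans (le_trans ?_ hH1)
          apply Real.rpow_le_rpow_of_exponent_le hx1
          linarith
        rw [div_le_iff₀ (by positivity)] at h6
        linarith
      linarith
    exact le_of_mul_le_mul_right (h1.trans h2) hη0
  have hLLN : ∑ n ∈ Icc 1 N, ∏ i, ArithmeticFunction.vonMangoldt (n + a i) ≤ C6 * N := by
    have h1 := hsum N (by omega) N (by rw [one_mul]) le_rfl (fun i => (a i : ℤ)) (by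
      have := sep_of ha haD 0
      simpa using this) (by
      intro i
      have := haN i
      rw [abs_of_nonneg (by positivity)]
      have h2 : a i ≤ 2 * N := by omega
      exact_mod_cast h2)
    refine le_trans (le_of_eq ?_) h1
    apply sum_congr rfl
    intro n _
    have := LL_nat a 0 n
    simp only [Nat.cast_zero, sub_zero, add_zero] at this
    rw [this]
  have hnn : ∀ n : ℕ, 0 ≤ ∏ i, ArithmeticFunction.vonMangoldt (n + a i) :=
    fun n => prod_nonneg fun i _ => ArithmeticFunction.vonMangoldt_nonneg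
  have hLLX : ∑ n ∈ Icc 1 X, ∏ i, ArithmeticFunction.vonMangoldt (n + a i) ≤ C6 * N := by
    refine le_trans ?_ hLLN
    apply sum_le_sum_of_subset_of_nonneg
    · exact Icc_subset_Icc le_rfl hX
    · intro n _ _
      exact hnn n
  have main := exc34 a b hb B X (3 * N) H (by omega) hQp hw1 hQlow (C6 * N) _ hLLX hblk' E (by rw [hE]; exact filter_subset _ _)
  have hEsum : (E.card : ℝ) * ((C * κ + ε) * N) ≤ ∑ h ∈ E, ‖SX a b X (B + h)‖ := by
    rw [← nsmul_eq_mul, ← sum_const]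
    apply sum_le_sum
    intro h hh
    rw [hE, mem_filter] at hh
    exact hh.2.le
  -- the sum of the free parts
  have hfsum : ∑ h ∈ E, ∑ n ∈ Icc 1 X, (∏ i, ArithmeticFunction.vonMangoldt (n + a i)) * (if omq Q (n + (B + h)) = 0 then (1 : ℝ) else 0) ≤
      (E.card : ℝ) * ((C * κ + ε / 2) * N) + ρ * H * (C6 * N) := by
    have h1 : ∀ h ∈ E, ∑ n ∈ Icc 1 X, (∏ i, ArithmeticFunction.vonMangoldt (n + a i)) * (if omq Q (n + (B + h)) = 0 then (1 : ℝ) else 0) ≤
        (C * κ + ε / 2) * N + (if h ∈ Ex then C6 * N else 0) := by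
      intro h hh
      have hpos : 0 ≤ (C * κ + ε / 2) * N := by positivity
      by_cases hx2 : h ∈ Ex
      · rw [if_pos hx2]
        have : ∑ n ∈ Icc 1 X, (∏ i, ArithmeticFunction.vonMangoldt (n + a i)) * (if omq Q (n + (B + h)) = 0 then (1 : ℝ) else 0) ≤
            ∑ n ∈ Icc 1 X, ∏ i, ArithmeticFunction.vonMangoldt (n + a i) := by
          apply sum_le_sum
          intro n _
          have := hnn n
          split_ifs <;> linarith
        linarith
      · rw [if_neg hx2, add_zero]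
        have hhH : h ∈ Icc 1 H := by rw [hE, mem_filter] at hh; exact hh.1
        rw [hEx, mem_filter] at hx2
        push Not at hx2
        have hs := hx2 hhH
        have h2 := prod_QS (fun i => (a i : ℤ)) Q ((B + h : ℕ) : ℤ) hQp η hs
        rw [← hW] at h2
        refine (hfree (B + h)).trans ?_
        have h3 : ∏ q ∈ QS (fun i => (a i : ℤ)) Q ((B + h : ℕ) : ℤ), (1 - 1 / (q : ℝ)) ≤ κ + 12 * e1 + 4 * η := by
          refine h2.trans ?_
          have hW0 : 0 ≤ W := by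
            rw [hW]
            apply prod_nonneg
            intro q hq
            have : (1 : ℝ) ≤ q := by exact_mod_cast (hQp q hq).one_le
            have : 1 / (q : ℝ) ≤ 1 := by rw [div_le_one (by linarith)]; exact this
            linarith
          calc Real.exp (2 * η) * W ≤ (1 + 4 * η) * W := mul_le_mul_of_nonneg_right hexp hW0
            _ = W + 4 * η * W := by ring
            _ ≤ (κ + 12 * e1) + 4 * η * 1 := add_le_add hW4 (mul_le_mul_of_nonneg_left hW1 (by linarith))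
            _ = _ := by ring
        have h4 : C * N * ∏ q ∈ QS (fun i => (a i : ℤ)) Q ((B + h : ℕ) : ℤ), (1 - 1 / (q : ℝ)) ≤ C * N * (κ + 12 * e1 + 4 * η) :=
          mul_le_mul_of_nonneg_left h3 (by positivity)
        have h5 : C * N * (κ + 12 * e1 + 4 * η) + ε / 8 * N ≤ (C * κ + ε / 2) * N := by
          have e : C * N * (κ + 12 * e1 + 4 * η) + ε / 8 * N = (C * κ + (96 * C * e1) / 8 + (32 * C * η) / 8 + ε / 8) * N := by ring
          rw [e, he1C, hηC]
          apply mul_le_mul_of_nonneg_right _ hN0.le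
          linarith
        linarith
    refine (sum_le_sum h1).trans ?_
    rw [sum_add_distrib, sum_const, nsmul_eq_mul, ← sum_filter, sum_const, nsmul_eq_mul]
    apply add_le_add le_rfl
    apply mul_le_mul_of_nonneg_right _ (by positivity)
    refine le_trans ?_ hEx1
    have : E.filter (fun h => h ∈ Ex) ⊆ Ex := fun h hh => (mem_filter.1 hh).2
    exact_mod_cast card_le_card this
  -- the squares
  have hsq : 2 * ((H : ℝ) / ((2 ^ i0 : ℕ) : ℝ) + Q.card) * (C6 * N) ≤ 2 * ρ * H * (C6 * N) := by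
    apply mul_le_mul_of_nonneg_right _ (by positivity)
    have h1 : (H : ℝ) / ((2 ^ i0 : ℕ) : ℝ) ≤ ρ / 2 * H := by
      rw [div_le_iff₀ hw0]
      have h4 : 2 / ρ ≤ ((2 ^ i0 : ℕ) : ℝ) := by
        have : 0 ≤ 2 * f / (η * ρ) := by positivity
        linarith
      rw [div_le_iff₀ hρ0] at h4
      calc (H : ℝ) = 2 * (H / 2) := by ring
        _ ≤ (((2 ^ i0 : ℕ) : ℝ) * ρ) * (H / 2) := mul_le_mul_of_nonneg_right h4 (by positivity)
        _ = _ := by ring
    have h2 : (Q.card : ℝ) ≤ ρ / 2 * H := by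
      have h3 := hxe
      rw [div_le_iff₀ hρ0] at h3
      have h4 : (Q.card : ℝ) * 2 ≤ (Q.card : ℝ) * (x ^ e1 * ρ) := mul_le_mul_of_nonneg_left h3 (Nat.cast_nonneg _)
      have h5 := mul_le_mul_of_nonneg_right hQcard hρ0.le
      have e : (Q.card : ℝ) * (x ^ e1 * ρ) = (Q.card : ℝ) * x ^ e1 * ρ := by ring
      linarith
    linarith
  have hfin : (E.card : ℝ) * (ε / 2 * N) ≤ ε * H * (ε / 2 * N) := by
    push_cast at main
    have e0 : ρ * H * (C6 * N) = (16 * C6 * ρ) / 16 * (H * N) := by ring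
    have e00 : 2 * ρ * H * (C6 * N) = (16 * C6 * ρ) / 8 * (H * N) := by ring
    rw [hρC] at e0 e00
    rw [e0] at hfsum
    rw [e00] at hsq
    push_cast at hsq
    have hHN : 0 < ε ^ 2 * (H * N) := by positivity
    have e1 : (E.card : ℝ) * ((C * κ + ε) * N) = (E.card : ℝ) * ((C * κ + ε / 2) * N) + (E.card : ℝ) * (ε / 2 * N) := by ring
    rw [e1] at hEsum
    have e2 : ε * H * (ε / 2 * N) = ε ^ 2 * (H * N) / 2 := by ring
    have e3 : ε ^ 2 / 24 * (H * (3 * N)) = ε ^ 2 * (H * N) / 8 := by ring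
    rw [e3] at main
    rw [e2]
    linarith
  exact le_of_mul_le_mul_right hfin (by positivity)

end Pool.Agent.Helper34.SW
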