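import Mathlib
import Pool.Agent.Helper34.SW.W6

set_option autoImplicit false

/-! The exceptional shifts: the theorem. -/

namespace Pool.Agent.Helper34.SW
open Finset Filter Topology
open Pool.Agent.E8helper16.SL (LL LL_nonneg LL_nat LL_sum Sep sep_of SX SX_diff log_tendsto final)

open Classical in
theorem windowW (f : ℕ) (hf : 1 ≤ f) (D : ℕ) (C : ℝ) (hC : 1 ≤ C) (w : ℕ) (hTF : TFree f D C w) (ε : ℝ) (hε : 0 < ε) :
    ∃ N₀ : ℕ, ∀ N : ℕ, N₀ ≤ N → ∀ H : ℕ, Real.log N ^ ((f : ℝ) / 2 + ε) ≤ H → (H : ℝ) ≤ Real.log N ^ f →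
      ∀ a : Fin f → ℕ, Function.Injective a → (∀ i, a i ≤ N) → (∀ i l, a i ≤ a l + D) → ∀ B : ℕ, B ≤ 2 * N →
        ∀ b : ℕ → ℂ, (∀ n, ‖b n‖ ≤ 1) →
        (((Icc 1 H).filter (fun h => ∃ X : ℕ, X ≤ N ∧
          (C * (f * Real.log (Real.log N) / Real.log H - 1) + ε) * N < ‖SX a b X (B + h)‖)).card : ℝ) ≤ ε * H := by
  obtain ⟨C6, hC6, hsum⟩ := LL_sum f hf D
  obtain ⟨m, hm⟩ := exists_nat_ge (4 * C6 / ε + 2)
  have hCε : 0 ≤ 4 * C6 / ε := by positivity
  have hm2 : 2 ≤ m := by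
    have : (2 : ℝ) ≤ m := by linarith
    exact_mod_cast this
  have hm0 : (0 : ℝ) < m := by exact_mod_cast (by omega : 0 < m)
  have hm1 : (1 : ℝ) ≤ m := by exact_mod_cast (by omega : 1 ≤ m)
  obtain ⟨N₁, hsum⟩ := hsum (1 / m) (by positivity)
  obtain ⟨ε', hε'd⟩ : ∃ ε', ε' = min (ε / 2 / m) 1 := ⟨_, rfl⟩
  have hε'0 : 0 < ε' := by rw [hε'd]; positivity
  have hε'1 : ε' ≤ 1 := by rw [hε'd]; exact min_le_right _ _
  have hε'm : ε' ≤ ε / 2 / m := by rw [hε'd]; exact min_le_left _ _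
  have hε'2 : ε' ≤ ε / 2 := hε'm.trans (div_le_self (by positivity) hm1)
  have hε'3 : m * ε' ≤ ε := by
    have := mul_le_mul_of_nonneg_left hε'm hm0.le
    rw [mul_div_cancel₀ _ hm0.ne'] at this
    linarith
  obtain ⟨N₂, hgrid⟩ := gridX f hf D C hC w hTF ε' hε'0 hε'1
  obtain ⟨N₃, hN₃⟩ := eventually_atTop.1 (log_tendsto.eventually_ge_atTop 1)
  refine ⟨N₁ + N₂ + N₃ + m + 3, fun N hN H hH1 hH2 a ha haN haD B hB b hb => ?_⟩
  have hx1 := hN₃ N (by omega)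
  have hN3r : (3 : ℝ) ≤ N := by exact_mod_cast (by omega : 3 ≤ N)
  have hN0 : (0 : ℝ) < N := by linarith
  have hH1' : Real.log N ^ ((f : ℝ) / 2 + ε') ≤ H := by
    refine le_trans ?_ hH1
    apply Real.rpow_le_rpow_of_exponent_le hx1
    linarith
  obtain ⟨κ, hκ⟩ : ∃ κ, κ = f * Real.log (Real.log N) / Real.log H - 1 := ⟨_, rfl⟩
  have hgrid' := hgrid N (by omega) H hH1' hH2 a ha haN haD B hB b hb
  rw [← hκ] at hgrid' ⊢
  -- the grid
  obtain ⟨Y, hY⟩ : ∃ Y, Y = N / m + 1 := ⟨_, rfl⟩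
  have hY1 : N < m * Y := by rw [hY]; exact Nat.lt_mul_div_succ _ (by omega)
  have hY2 : Y ≤ N := by
    have : N / m ≤ N / 2 := Nat.div_le_div_left hm2 (by norm_num)
    omega
  have hY3 : m * Y ≤ 2 * N := by
    have := Nat.mul_div_le N m
    have : m * Y = m * (N / m) + m := by rw [hY]; ring
    omega
  have hYlow : 1 / (m : ℝ) * N ≤ Y := by
    rw [one_div, inv_mul_le_iff₀ hm0]
    exact_mod_cast hY1.le
  have hYC : C6 * Y ≤ ε / 2 * N := by
    have g1 : (m : ℝ) * Y ≤ 2 * N := by exact_mod_cast hY3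
    have g2 : 4 * C6 ≤ ε * m := by
      have : 4 * C6 / ε ≤ m := by linarith
      rw [div_le_iff₀ hε] at this
      linarith
    have g3 : 4 * C6 * Y ≤ ε * m * Y := mul_le_mul_of_nonneg_right g2 (Nat.cast_nonneg _)
    nlinarith
  have hY0 : 0 < Y := by rw [hY]; exact Nat.succ_pos _
  -- the exceptional set
  have hsub : (Icc 1 H).filter (fun h => ∃ X : ℕ, X ≤ N ∧ (C * κ + ε) * N < ‖SX a b X (B + h)‖) ⊆
      (range m).biUnion (fun k => if Y * k ≤ N then (Icc 1 H).filter (fun h => (C * κ + ε') * N < ‖SX a b (Y * k) (B + h)‖) else ∅) := by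
    intro h hh
    rw [mem_filter] at hh
    obtain ⟨hh1, X, hX, hlt⟩ := hh
    rw [mem_biUnion]
    have hk1 : Y * (X / Y) ≤ X := Nat.mul_div_le _ _
    have hk2 : X < Y * (X / Y + 1) := Nat.lt_mul_div_succ _ hY0
    refine ⟨X / Y, ?_, ?_⟩
    · rw [mem_range, Nat.div_lt_iff_lt_mul hY0]
      omega
    · rw [if_pos (hk1.trans hX), mem_filter]
      refine ⟨hh1, ?_⟩
      have d1 := SX_diff a b hb X (Y * (X / Y)) Y (B + h) hk1 (by rw [mul_add, mul_one] at hk2; omega)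
      have d2 := hsum N (by omega) Y hYlow hY2 (fun i => (a i : ℤ) + ((Y * (X / Y) : ℕ) : ℤ)) (sep_of ha haD _) (by
        intro i
        have q1 : (0 : ℤ) ≤ (a i : ℤ) + ((Y * (X / Y) : ℕ) : ℤ) := by positivity
        rw [abs_of_nonneg q1]
        have q2 := haN i
        have q3 : Y * (X / Y) ≤ N := hk1.trans hX
        have q4 : a i + Y * (X / Y) ≤ 2 * N := by omega
        exact_mod_cast q4)
      have d3 : ε' * N ≤ ε / 2 * N := mul_le_mul_of_nonneg_right hε'2 hN0.le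
      have e1 : (C * κ + ε) * N = C * κ * N + ε / 2 * N + ε / 2 * N := by ring
      have e2 : (C * κ + ε') * N = C * κ * N + ε' * N := by ring
      rw [e1] at hlt
      rw [e2]
      linarith
  have hcard : ∀ k ∈ range m, (((if Y * k ≤ N then (Icc 1 H).filter (fun h => (C * κ + ε') * N < ‖SX a b (Y * k) (B + h)‖) else ∅ : Finset ℕ).card : ℕ) : ℝ) ≤
      ε' * H := by
    intro k _
    split_ifs with hk
    · exact hgrid' (Y * k) hk
    · simp only [card_empty, Nat.cast_zero]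
      positivity
  have h1 := card_le_card hsub
  have h2 : (((Icc 1 H).filter (fun h => ∃ X : ℕ, X ≤ N ∧ (C * κ + ε) * N < ‖SX a b X (B + h)‖)).card : ℝ) ≤
      ∑ k ∈ range m, (((if Y * k ≤ N then (Icc 1 H).filter (fun h => (C * κ + ε') * N < ‖SX a b (Y * k) (B + h)‖) else ∅ : Finset ℕ).card : ℕ) : ℝ) := by
    exact_mod_cast h1.trans card_biUnion_le
  refine h2.trans ((sum_le_sum hcard).trans ?_)
  rw [sum_const, card_range, nsmul_eq_mul, ← mul_assoc]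
  exact mul_le_mul_of_nonneg_right hε'3 (Nat.cast_nonneg _)

open Classical in
theorem finalW (f : ℕ) (hf : 1 ≤ f) (D : ℕ) (C : ℝ) (hC : 1 ≤ C) (w : ℕ) (hTF : TFree f D C w) (ε : ℝ) (hε : 0 < ε) :
    ∃ N₀ : ℕ, ∀ N : ℕ, N₀ ≤ N → ∀ H : ℕ, Real.log N ^ ((f : ℝ) / 2 + ε) ≤ H → H ≤ N →
      ∀ a : Fin f → ℕ, Function.Injective a → (∀ i, a i ≤ N) → (∀ i l, a i ≤ a l + D) → ∀ B : ℕ, B ≤ N →
        ∀ b : ℕ → ℂ, (∀ n, ‖b n‖ ≤ 1) →
        (((Icc 1 H).filter (fun h => ∃ X : ℕ, X ≤ N ∧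
          (C * max 0 (f * Real.log (Real.log N) / Real.log H - 1) + ε) * N < ‖SX a b X (B + h)‖)).card : ℝ) ≤ ε * H := by
  obtain ⟨η, hη0, N₁, h1⟩ := final f hf D ε hε
  obtain ⟨N₂, h2⟩ := windowW f hf D C hC w hTF ε hε
  obtain ⟨N₃, hN₃⟩ := eventually_atTop.1 (log_tendsto.eventually_ge_atTop 1)
  refine ⟨N₁ + N₂ + N₃, fun N hN H hH1 hH2 a ha haN haD B hB b hb => ?_⟩
  have hx1 := hN₃ N (by omega)
  have hmono : ∀ T : ℝ, T ≤ C * max 0 (f * Real.log (Real.log N) / Real.log H - 1) + ε →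
      (((Icc 1 H).filter (fun h => ∃ X : ℕ, X ≤ N ∧
          (C * max 0 (f * Real.log (Real.log N) / Real.log H - 1) + ε) * N < ‖SX a b X (B + h)‖)).card : ℝ) ≤
      (((Icc 1 H).filter (fun h => ∃ X : ℕ, X ≤ N ∧ T * N < ‖SX a b X (B + h)‖)).card : ℝ) := by
    intro T hT
    apply Nat.cast_le.2
    apply card_le_card
    intro h hh
    rw [mem_filter] at hh ⊢
    obtain ⟨hh1, X, hX, hlt⟩ := hh
    refine ⟨hh1, X, hX, lt_of_le_of_lt ?_ hlt⟩
    exact mul_le_mul_of_nonneg_right hT (Nat.cast_nonneg _)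
  rcases le_total (H : ℝ) (Real.log N ^ f) with hH | hH
  · refine (hmono _ ?_).trans (h2 N (by omega) H hH1 hH a ha haN haD B (by omega) b hb)
    have : C * (f * Real.log (Real.log N) / Real.log H - 1) ≤ C * max 0 (f * Real.log (Real.log N) / Real.log H - 1) :=
      mul_le_mul_of_nonneg_left (le_max_right _ _) (by linarith)
    linarith
  · refine (hmono ε ?_).trans (h1 N (by omega) H ?_ hH2 a ha haN haD B hB b hb)
    · have : 0 ≤ C * max 0 (f * Real.log (Real.log N) / Real.log H - 1) := mul_nonneg (by linarith) (le_max_left _ _)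
      linarith
    · refine le_trans ?_ hH
      rw [← Real.rpow_natCast]
      apply Real.rpow_le_rpow_of_exponent_le hx1
      linarith

end Pool.Agent.Helper34.SW
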